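import Mathlib

set_option autoImplicit false

/-!
A direction `x` without integer relations lies in the interior of a unimodular cone inside the
half-space `y > 0`.
-/

namespace Pool.Agent.Helper40_Pisot

open Finset Matrix

variable {d : ℕ}

/-- No integer relation between the coordinates. -/
def Indep (x : Fin d → ℝ) : Prop := ∀ c : Fin d → ℤ, ∑ j, (c j : ℝ) * x j = 0 → c = 0

lemma coord_ne_zero {x : Fin d → ℝ} (hx : Indep x) {B : Matrix (Fin d) (Fin d) ℤ}
    (hB : B.det ≠ 0) {a : Fin d → ℝ} (hxa : ∀ i, x i = ∑ j, (B i j : ℝ) * a j) (k : Fin d) :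
    a k ≠ 0 := by
  intro hak
  have h1 : ∑ j, ((B.adjugate k j : ℤ) : ℝ) * x j = 0 := by
    simp_rw [hxa, Finset.mul_sum]
    rw [Finset.sum_comm]
    have h2 : ∀ j, ∑ i, ((B.adjugate k i : ℤ) : ℝ) * ((B i j : ℝ) * a j) =
        (((B.adjugate * B) k j : ℤ) : ℝ) * a j := by
      intro j
      rw [Matrix.mul_apply]
      push_cast
      rw [Finset.sum_mul]
      exact Finset.sum_congr rfl fun i _ => by ring
    simp_rw [h2]
    rw [Matrix.adjugate_mul]
    refine Finset.sum_eq_zero fun j _ => ?_
    by_cases hkj : k = j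
    · rw [← hkj, hak, mul_zero]
    · rw [Matrix.smul_apply, Matrix.one_apply_ne hkj]
      simp
  have h3 := hx _ h1
  apply hB
  have h4 : (B.adjugate * B) k k = B.det := by
    rw [Matrix.adjugate_mul, Matrix.smul_apply, Matrix.one_apply_eq]
    simp
  rw [← h4, Matrix.mul_apply]
  exact Finset.sum_eq_zero fun j _ => by rw [congrFun h3 j]; simp

lemma descend {x y : Fin d → ℝ} (hx : Indep x) (D : ℕ) :
    ∀ (B : Matrix (Fin d) (Fin d) ℤ) (a : Fin d → ℝ), B.det.natAbs = D → D ≠ 0 →
      (∀ i, 0 < a i) → (∀ i, x i = ∑ j, (B i j : ℝ) * a j) →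
      (∀ j, 0 < ∑ i, y i * (B i j : ℝ)) →
      ∃ P Q : Matrix (Fin d) (Fin d) ℤ, P * Q = 1 ∧ (∀ i, 0 < ∑ j, (P i j : ℝ) * x j) ∧
        (∀ j, 0 < ∑ i, y i * (Q i j : ℝ)) := by
  induction D using Nat.strong_induction_on with
  | _ D ih =>
    intro B a hBD hD ha hxa hy
    have hdet0 : B.det ≠ 0 := by
      intro h0
      rw [h0] at hBD
      exact hD hBD.symm
    by_cases hD1 : D = 1
    · -- unimodular
      have hunit : IsUnit B.det := by
        rw [Int.isUnit_iff_natAbs_eq, hBD, hD1]
      refine ⟨B⁻¹, B, Matrix.nonsing_inv_mul B hunit, fun i => ?_, hy⟩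
      have : ∑ j, ((B⁻¹ i j : ℤ) : ℝ) * x j = a i := by
        simp_rw [hxa, Finset.mul_sum]
        rw [Finset.sum_comm]
        have h2 : ∀ j, ∑ k, ((B⁻¹ i k : ℤ) : ℝ) * ((B k j : ℝ) * a j) =
            (((B⁻¹ * B) i j : ℤ) : ℝ) * a j := by
          intro j
          rw [Matrix.mul_apply]
          push_cast
          rw [Finset.sum_mul]
          exact Finset.sum_congr rfl fun i _ => by ring
        simp_rw [h2]
        rw [Matrix.nonsing_inv_mul B hunit, Finset.sum_eq_single i]
        · rw [Matrix.one_apply_eq]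
          simp
        · intro j _ hj
          rw [Matrix.one_apply_ne hj.symm]
          simp
        · intro h
          exact absurd (Finset.mem_univ i) h
      rw [this]
      exact ha i
    · -- a lattice point in the open parallelepiped
      have hex : ∃ i j, ¬ B.det ∣ B.adjugate i j := by
        by_contra hno
        push Not at hno
        choose A' hA' using hno
        have h1 : B.adjugate = B.det • (Matrix.of A' : Matrix (Fin d) (Fin d) ℤ) := by
          ext i j
          rw [Matrix.smul_apply, smul_eq_mul]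
          exact hA' i j
        have h2 := Matrix.mul_adjugate B
        rw [h1, Matrix.mul_smul] at h2
        have h3 : B * (Matrix.of A' : Matrix (Fin d) (Fin d) ℤ) = 1 := by
          ext i j
          have h4 := congrFun (congrFun h2 i) j
          rw [Matrix.smul_apply, Matrix.smul_apply, smul_eq_mul, smul_eq_mul] at h4
          exact mul_left_cancel₀ hdet0 h4
        have h5 : B.det * (Matrix.of A' : Matrix (Fin d) (Fin d) ℤ).det = 1 := by
          rw [← Matrix.det_mul, h3, Matrix.det_one]
        have h6 : IsUnit B.det := IsUnit.of_mul_eq_one _ h5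
        rw [Int.isUnit_iff_natAbs_eq, hBD] at h6
        exact hD1 h6
      obtain ⟨i0, j, hij⟩ := hex
      set Δ : ℤ := B.det with hΔ
      set ρ : Fin d → ℤ := fun i => B.adjugate i j % Δ with hρ
      have hρ0 : ∀ i, 0 ≤ ρ i := fun i => Int.emod_nonneg _ hdet0
      have hρ1 : ∀ i, ρ i < |Δ| := fun i => Int.emod_lt_abs _ hdet0
      have hρi0 : 0 < ρ i0 := by
        refine lt_of_le_of_ne (hρ0 i0) ?_
        intro h0
        exact hij (Int.dvd_of_emod_eq_zero h0.symm)
      have hΔpos : 0 < |Δ| := abs_pos.2 hdet0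
      obtain ⟨w, hw⟩ : ∃ w : Fin d → ℤ, ∀ m, ∑ k, B m k * ρ k = |Δ| * w m := by
        have h1 : ∀ k, ρ k = B.adjugate k j - Δ * (B.adjugate k j / Δ) := by
          intro k
          have := Int.emod_add_mul_ediv (B.adjugate k j) Δ
          rw [hρ]
          simp only
          linarith
        have h2 : ∀ m, ∑ k, B m k * ρ k =
            Δ * ((1 : Matrix (Fin d) (Fin d) ℤ) m j - ∑ k, B m k * (B.adjugate k j / Δ)) := by
          intro m
          have h3 := congrFun (congrFun (Matrix.mul_adjugate B) m) j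
          rw [Matrix.mul_apply, Matrix.smul_apply, smul_eq_mul, ← hΔ] at h3
          simp_rw [h1, mul_sub, Finset.sum_sub_distrib, h3]
          congr 1
          rw [Finset.mul_sum]
          exact Finset.sum_congr rfl fun k _ => by ring
        refine ⟨fun m => Int.sign Δ *
          ((1 : Matrix (Fin d) (Fin d) ℤ) m j - ∑ k, B m k * (B.adjugate k j / Δ)), fun m => ?_⟩
        rw [h2 m, ← mul_assoc]
        congr 1
        rw [mul_comm, Int.sign_mul_abs]
      -- the minimal ratio
      obtain ⟨i, hi, hmin⟩ := Finset.exists_min_image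
        (Finset.univ.filter fun k => 0 < ρ k) (fun k => a k / ρ k) ⟨i0, by simpa using hρi0⟩
      rw [Finset.mem_filter] at hi
      have hρi : 0 < ρ i := hi.2
      have hρiR : (0 : ℝ) < ρ i := by exact_mod_cast hρi
      set B' := B.updateCol i w with hB'
      have hdet' : |Δ| * B'.det = Δ * ρ i := by
        have h1 : |Δ| * B'.det = (B.updateCol i (|Δ| • w)).det := by
          rw [Matrix.det_updateCol_smul]
          
        have h2 : |Δ| • w = B *ᵥ ρ := by
          funext m
          rw [Pi.smul_apply, smul_eq_mul, ← hw m]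
          rfl
        rw [h1, h2, ← Matrix.cramer_apply, Matrix.cramer_eq_adjugate_mulVec,
          Matrix.mulVec_mulVec, Matrix.adjugate_mul, Matrix.smul_mulVec, Matrix.one_mulVec]
        rfl
      have hΔabs : |B'.det| = ρ i := by
        have h1 := congrArg abs hdet'
        rw [abs_mul, abs_mul, abs_abs, abs_of_pos hρi] at h1
        exact mul_left_cancel₀ hΔpos.ne' h1
      have hnat : B'.det.natAbs < D := by
        have h1 : (B'.det.natAbs : ℤ) = ρ i := by
          rw [Int.natCast_natAbs, hΔabs]
        have h2 : (D : ℤ) = |Δ| := by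
          rw [← hBD, Int.natCast_natAbs]
        have h3 := hρ1 i
        omega
      have hdet'0 : B'.det ≠ 0 := by
        intro h0
        rw [h0, abs_zero] at hΔabs
        omega
      set c : ℝ := a i / ρ i with hc
      have hcpos : 0 < c := div_pos (ha i) hρiR
      set a' : Fin d → ℝ := fun k => if k = i then c * |Δ| else a k - ρ k * c with ha'
      have hΔR : (0 : ℝ) < |(Δ : ℝ)| := by exact_mod_cast hΔpos
      have hwR : ∀ m, (|(Δ : ℝ)|) * (w m : ℝ) = ∑ k, (B m k : ℝ) * (ρ k : ℝ) := by
        intro m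
        have := congrArg (Int.cast : ℤ → ℝ) (hw m)
        push_cast at this
        rw [this]
      have hxa' : ∀ m, x m = ∑ k, (B' m k : ℝ) * a' k := by
        intro m
        rw [← Finset.add_sum_erase _ _ (Finset.mem_univ i)]
        have h1 : ((B' m i : ℤ) : ℝ) * a' i = c * ∑ k, (B m k : ℝ) * (ρ k : ℝ) := by
          rw [hB', Matrix.updateCol_self, ha']
          simp only [if_true]
          rw [← hwR m]
          push_cast
          ring
        have h2 : ∑ k ∈ Finset.univ.erase i, ((B' m k : ℤ) : ℝ) * a' k =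
            ∑ k ∈ Finset.univ.erase i, ((B m k : ℝ) * a k - c * ((B m k : ℝ) * ρ k)) := by
          refine Finset.sum_congr rfl fun k hk => ?_
          have hki : k ≠ i := (Finset.mem_erase.1 hk).1
          rw [hB', Matrix.updateCol_ne hki, ha']
          simp only [if_neg hki]
          ring
        rw [h1, h2, Finset.sum_sub_distrib, ← Finset.mul_sum, hxa m,
          ← Finset.add_sum_erase Finset.univ (fun k => (B m k : ℝ) * (ρ k : ℝ))
            (Finset.mem_univ i),
          ← Finset.add_sum_erase Finset.univ (fun k => (B m k : ℝ) * a k) (Finset.mem_univ i)]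
        have h3 : (ρ i : ℝ) * c = a i := by
          rw [hc]
          field_simp
        have h4 : c * ((B m i : ℝ) * (ρ i : ℝ)) = (B m i : ℝ) * a i := by
          rw [← h3]
          ring
        rw [mul_add, h4]
        ring
      have ha'pos : ∀ k, 0 < a' k := by
        intro k
        refine lt_of_le_of_ne ?_ (coord_ne_zero hx hdet'0 hxa' k).symm
        rw [ha']
        by_cases hki : k = i
        · simp only [hki, if_true]
          positivity
        · simp only [if_neg hki]
          rcases (hρ0 k).eq_or_lt with h0 | h0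
          · rw [← h0]
            simpa using (ha k).le
          · have h1 := hmin k (by simpa using h0)
            have h0R : (0 : ℝ) < ρ k := by exact_mod_cast h0
            rw [le_div_iff₀ h0R] at h1
            linarith
      have hy' : ∀ j, 0 < ∑ m, y m * ((B' m j : ℤ) : ℝ) := by
        intro j'
        by_cases hji : j' = i
        · subst hji
          simp_rw [hB', Matrix.updateCol_self]
          have h1 : |(Δ : ℝ)| * ∑ m, y m * (w m : ℝ) =
              ∑ k, (∑ m, y m * (B m k : ℝ)) * (ρ k : ℝ) := by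
            rw [Finset.mul_sum]
            simp_rw [Finset.sum_mul]
            rw [Finset.sum_comm]
            refine Finset.sum_congr rfl fun m _ => ?_
            have := hwR m
            rw [mul_left_comm, this, Finset.mul_sum]
            exact Finset.sum_congr rfl fun k _ => by ring
          have h2 : 0 < ∑ k, (∑ m, y m * (B m k : ℝ)) * (ρ k : ℝ) := by
            refine Finset.sum_pos' (fun k _ => ?_) ⟨j', Finset.mem_univ _, ?_⟩
            · exact mul_nonneg (hy k).le (by exact_mod_cast hρ0 k)
            · exact mul_pos (hy j') hρiR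
          rw [← h1] at h2
          exact (mul_pos_iff_of_pos_left hΔR).1 h2
        · simp_rw [hB', Matrix.updateCol_ne hji]
          exact hy j'
      exact ih _ hnat B' a' rfl (by rwa [Ne, Int.natAbs_eq_zero]) ha'pos hxa' hy'

lemma start {x y : Fin d → ℝ} (hd : 0 < d) (hx0 : ∀ i, x i ≠ 0) (hxy : 0 < ∑ i, y i * x i) :
    ∃ (B : Matrix (Fin d) (Fin d) ℤ) (a : Fin d → ℝ), B.det ≠ 0 ∧ (∀ i, 0 < a i) ∧
      (∀ i, x i = ∑ j, (B i j : ℝ) * a j) ∧ (∀ j, 0 < ∑ i, y i * (B i j : ℝ)) := by
  set sg : Fin d → ℤ := fun i => if 0 < x i then 1 else -1 with hsg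
  have hsx : ∀ i, x i = sg i * |x i| := by
    intro i
    rw [hsg]
    by_cases h : 0 < x i
    · simp only [if_pos h]
      rw [abs_of_pos h]
      simp
    · simp only [if_neg h]
      have : x i < 0 := lt_of_le_of_ne (not_lt.1 h) (hx0 i)
      rw [abs_of_neg this]
      simp
  have hsg2 : ∀ i, sg i * sg i = 1 := by
    intro i
    rw [hsg]
    by_cases h : 0 < x i
    · simp [if_pos h]
    · simp [if_neg h]
  have hsgabs : ∀ i, |(sg i : ℝ)| = 1 := by
    intro i
    rw [hsg]
    by_cases h : 0 < x i
    · simp [if_pos h]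
    · simp [if_neg h]
  set Y : ℝ := ∑ i, |y i| with hY
  have hY0 : 0 ≤ Y := Finset.sum_nonneg fun i _ => abs_nonneg _
  set t : ℝ := ∑ i, y i * x i with ht
  set Qr : ℝ := ((1 + d) * Y + 1) / t with hQr
  have hQ0 : 0 < Qr := by positivity
  set X : ℝ := ∑ i, |x i| with hX
  have hX0 : 0 < X := by
    have : Nonempty (Fin d) := ⟨⟨0, hd⟩⟩
    exact Finset.sum_pos (fun i _ => abs_pos.2 (hx0 i)) Finset.univ_nonempty
  set f : Fin d → ℤ := fun i => ⌊Qr * |x i|⌋ with hf
  have hf0 : ∀ i, 0 ≤ f i := fun i => Int.floor_nonneg.2 (by positivity)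
  set δ : Fin d → ℝ := fun i => Qr * |x i| - f i with hδ
  have hδ0 : ∀ i, 0 ≤ δ i := fun i => sub_nonneg.2 (Int.floor_le _)
  have hδ1 : ∀ i, δ i < 1 := fun i => by
    have := Int.lt_floor_add_one (Qr * |x i|)
    rw [hδ, hf]
    simp only
    linarith
  set E : ℝ := ∑ i, δ i with hE
  have hE1 : E < d := by
    have : Nonempty (Fin d) := ⟨⟨0, hd⟩⟩
    have h1 : E < ∑ _i : Fin d, (1 : ℝ) :=
      Finset.sum_lt_sum_of_nonempty Finset.univ_nonempty fun i _ => hδ1 i
    simpa using h1
  set den : ℝ := d + Qr * X - E with hden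
  have hden0 : 0 < den := by
    have : 0 < Qr * X := by positivity
    linarith
  have hdR : (0 : ℝ) < d := by exact_mod_cast hd
  set B : Matrix (Fin d) (Fin d) ℤ :=
    Matrix.of fun i j => sg i * f i + if i = j then d * sg i else 0 with hB
  have hBap : ∀ i j, B i j = sg i * f i + if i = j then d * sg i else 0 := fun i j => rfl
  set a : Fin d → ℝ := fun k => (|x k| * (d - E) + X * δ k) / (d * den) with ha
  have hfR : ∀ i, (f i : ℝ) = Qr * |x i| - δ i := fun i => by rw [hδ]; ring
  refine ⟨B, a, ?_, ?_, ?_, ?_⟩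
  · intro hdet
    obtain ⟨c, hc0, hc⟩ := Matrix.exists_mulVec_eq_zero_iff.2 hdet
    apply hc0
    set s : ℤ := ∑ j, c j with hs
    have h1 : ∀ i, sg i * (f i * s + d * c i) = 0 := by
      intro i
      have h2 := congrFun hc i
      rw [Matrix.mulVec, dotProduct, Pi.zero_apply] at h2
      rw [← h2]
      simp_rw [hBap, add_mul, Finset.sum_add_distrib, ite_mul, zero_mul]
      rw [Finset.sum_ite_eq, if_pos (Finset.mem_univ i), ← Finset.mul_sum, ← hs]
      ring
    have h3 : ∀ i, f i * s + d * c i = 0 := by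
      intro i
      have h4 := congrArg (fun z => sg i * z) (h1 i)
      simp only [mul_zero] at h4
      rw [← mul_assoc, hsg2, one_mul] at h4
      exact h4
    have h5 : s * (∑ i, f i + d) = 0 := by
      have h6 : ∑ i, (f i * s + d * c i) = 0 := Finset.sum_eq_zero fun i _ => h3 i
      rw [Finset.sum_add_distrib, ← Finset.sum_mul, ← Finset.mul_sum, ← hs] at h6
      linarith
    have h7 : 0 < ∑ i, f i + (d : ℤ) := by
      have : 0 ≤ ∑ i, f i := Finset.sum_nonneg fun i _ => hf0 i
      have : (0 : ℤ) < d := by exact_mod_cast hd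
      omega
    have h8 : s = 0 := by
      rcases mul_eq_zero.1 h5 with h | h
      · exact h
      · omega
    funext i
    have h9 := h3 i
    rw [h8, mul_zero, zero_add] at h9
    rcases mul_eq_zero.1 h9 with h | h
    · have : (0 : ℤ) < d := by exact_mod_cast hd
      omega
    · exact h
  · intro k
    have h1 : 0 < |x k| * (d - E) := mul_pos (abs_pos.2 (hx0 k)) (by linarith)
    have h2 : 0 ≤ X * δ k := mul_nonneg hX0.le (hδ0 k)
    have h3 : 0 < (d : ℝ) * den := mul_pos hdR hden0
    exact div_pos (by linarith) h3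
  · intro i
    have h1 : ∑ j, a j = X / den := by
      rw [ha, ← Finset.sum_div, Finset.sum_add_distrib, ← Finset.sum_mul, ← Finset.mul_sum,
        ← hX, ← hE]
      field_simp
      ring
    have h2 : ∑ j, ((B i j : ℤ) : ℝ) * a j = sg i * f i * (X / den) + d * sg i * a i := by
      rw [← h1]
      simp_rw [hBap]
      push_cast
      simp_rw [add_mul, Finset.sum_add_distrib, ite_mul, zero_mul]
      rw [Finset.sum_ite_eq, if_pos (Finset.mem_univ i), ← Finset.mul_sum]
    rw [h2, hfR, ha]
    simp only
    have h3 : (d : ℝ) * sg i * ((|x i| * (d - E) + X * δ i) / (d * den)) =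
        sg i * ((|x i| * (d - E) + X * δ i) / den) := by
      field_simp
    rw [h3]
    have h4 : (sg i : ℝ) * (Qr * |x i| - δ i) * (X / den) +
        sg i * ((|x i| * (d - E) + X * δ i) / den) = sg i * |x i| * (den / den) := by
      rw [hden]
      ring
    rw [h4, div_self hden0.ne', mul_one, ← hsx]
  · intro j
    have h1 : ∑ i, y i * ((B i j : ℤ) : ℝ) = ∑ i, y i * (sg i * f i) + y j * (d * sg j) := by
      simp_rw [hBap]
      push_cast
      simp_rw [mul_add, Finset.sum_add_distrib, mul_ite, mul_zero]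
      rw [Finset.sum_ite_eq', if_pos (Finset.mem_univ j)]
    rw [h1]
    have h2 : ∑ i, y i * ((sg i : ℝ) * f i) = Qr * t - ∑ i, y i * (sg i * δ i) := by
      rw [ht, Finset.mul_sum, ← Finset.sum_sub_distrib]
      refine Finset.sum_congr rfl fun i _ => ?_
      rw [hfR]
      conv_rhs => rw [hsx i]
      ring
    rw [h2]
    have h3 : |∑ i, y i * (sg i * δ i)| ≤ Y := by
      refine le_trans (Finset.abs_sum_le_sum_abs _ _) ?_
      rw [hY]
      refine Finset.sum_le_sum fun i _ => ?_
      rw [abs_mul, abs_mul, hsgabs, one_mul, abs_of_nonneg (hδ0 i)]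
      exact mul_le_of_le_one_right (abs_nonneg _) (hδ1 i).le
    have h4 : |y j * (d * sg j)| ≤ d * Y := by
      rw [abs_mul, abs_mul, hsgabs, mul_one, abs_of_pos hdR, mul_comm]
      refine mul_le_mul_of_nonneg_left ?_ hdR.le
      rw [hY]
      exact Finset.single_le_sum (f := fun j => |y j|) (fun _ _ => abs_nonneg _)
        (Finset.mem_univ j)
    have h5 : Qr * t = (1 + d) * Y + 1 := by
      rw [hQr]
      field_simp
    have h6 := (abs_le.1 h3).2
    have h7 := (abs_le.1 h4).1
    rw [h5]
    linarith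

/-- The unimodular change of basis. -/
theorem unimod {x y : Fin d → ℝ} (hd : 0 < d) (hx : Indep x) (hxy : 0 < ∑ i, y i * x i) :
    ∃ P Q : Matrix (Fin d) (Fin d) ℤ, P * Q = 1 ∧ (∀ i, 0 < ∑ j, (P i j : ℝ) * x j) ∧
      (∀ j, 0 < ∑ i, y i * (Q i j : ℝ)) := by
  have hx0 : ∀ i, x i ≠ 0 := by
    intro i h0
    have h1 : ∑ j, (((Pi.single i 1 : Fin d → ℤ) j : ℤ) : ℝ) * x j = 0 := by
      rw [Finset.sum_eq_single i]
      · rw [h0, mul_zero]
      · intro j _ hj
        simp [hj]
      · intro h
        exact absurd (Finset.mem_univ i) h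
    have h2 := congrFun (hx _ h1) i
    simp at h2
  obtain ⟨B, a, h1, h2, h3, h4⟩ := start hd hx0 hxy
  exact descend hx _ B a rfl (by rwa [Ne, Int.natAbs_eq_zero]) h2 h3 h4

end Pool.Agent.Helper40_Pisot
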