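import Pool.Agent.Helper40_Pisot.LinAlg2
import Pool.Agent.Helper40_Pisot.Unimod

set_option autoImplicit false

/-!
Any integer matrix of unimodular irreducible Pisot type is conjugate in `GL_d(ℤ)` to an eventually
positive one.
-/

namespace Pool.Agent.Helper40_Pisot

open Matrix Polynomial Finset

variable {d : ℕ}

lemma indep_of_eig (A : Matrix (Fin d) (Fin d) ℤ)
    (irr : Irreducible (A.charpoly.map (Int.castRingHom ℚ))) {x : Fin d → ℝ} {r : ℝ}
    (hx : ∀ i, ∑ j, (A i j : ℝ) * x j = r * x i) (hne : x ≠ 0) : Indep x := by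
  classical
  intro c hc
  by_contra hc0
  set B : Matrix (Fin d) (Fin d) ℚ := (A.transpose).map (Int.castRingHom ℚ) with hB
  have hBc : B.charpoly = A.charpoly.map (Int.castRingHom ℚ) := by
    rw [hB, Matrix.charpoly_map, Matrix.charpoly_transpose]
  have irrB : Irreducible B.charpoly := by rw [hBc]; exact irr
  let L : (Fin d → ℚ) →ₗ[ℚ] ℝ :=
    { toFun := fun v => ∑ j, (v j : ℝ) * x j
      map_add' := by
        intro v w
        simp [add_mul, Finset.sum_add_distrib]
      map_smul' := by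
        intro c v
        simp only [Pi.smul_apply, smul_eq_mul, Rat.cast_mul, RingHom.id_apply, Finset.smul_sum]
        refine Finset.sum_congr rfl fun j _ => ?_
        rw [mul_assoc, Rat.smul_def] }
  have hL : ∀ v, L v = ∑ j, (v j : ℝ) * x j := fun v => rfl
  have hLB : ∀ v, L (B *ᵥ v) = r * L v := by
    intro v
    rw [hL, hL]
    have h1 : ∀ j, (((B *ᵥ v) j : ℚ) : ℝ) = ∑ i, (A i j : ℝ) * (v i : ℝ) := by
      intro j
      rw [Matrix.mulVec, dotProduct]
      push_cast
      refine Finset.sum_congr rfl fun i _ => ?_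
      have : B j i = ((A i j : ℤ) : ℚ) := rfl
      rw [this]
      push_cast
      rfl
    simp_rw [h1, Finset.sum_mul]
    rw [Finset.sum_comm, Finset.mul_sum]
    refine Finset.sum_congr rfl fun i _ => ?_
    have h2 := hx i
    calc ∑ j, (A i j : ℝ) * (v i : ℝ) * x j = (v i : ℝ) * ∑ j, (A i j : ℝ) * x j := by
          rw [Finset.mul_sum]
          exact Finset.sum_congr rfl fun j _ => by ring
      _ = r * ((v i : ℝ) * x i) := by rw [h2]; ring
  set e : Fin d → ℚ := fun i => (c i : ℚ) with he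
  have he0 : e ≠ 0 := by
    intro h0
    apply hc0
    funext i
    have := congrFun h0 i
    rw [he] at this
    simpa using this
  have hLe : L e = 0 := by
    rw [hL, ← hc]
    refine Finset.sum_congr rfl fun j _ => ?_
    rw [he]
    push_cast
    rfl
  have hpow : ∀ k : ℕ, L (B ^ k *ᵥ e) = 0 := by
    intro k
    induction k with
    | zero => rw [pow_zero, Matrix.one_mulVec, hLe]
    | succ k ih => rw [pow_succ', ← Matrix.mulVec_mulVec, hLB, ih, mul_zero]
  apply hne
  funext j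
  obtain ⟨f, hf⟩ := cyclic B irrB e he0 (Pi.single j 1)
  have h1 : L (Pi.single j 1) = x j := by
    rw [hL, Finset.sum_eq_single j]
    · simp
    · intro b _ hb
      simp [hb]
    · intro hj
      exact absurd (Finset.mem_univ j) hj
  rw [Pi.zero_apply, ← h1, hf, aeval_eq_sum_range, Matrix.sum_mulVec, map_sum]
  refine Finset.sum_eq_zero fun k _ => ?_
  rw [Matrix.smul_mulVec, map_smul, hpow, smul_zero]

lemma limit_idem {M : Matrix (Fin d) (Fin d) ℤ} {r : ℝ} (hr : 1 < r)
    {G : Matrix (Fin d) (Fin d) ℝ} {C ρ : ℝ} (hρ0 : 0 < ρ) (hρ1 : ρ < 1)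
    (hdec : ∀ k i j, |((M ^ k) i j : ℝ) - r ^ k * G i j| ≤ C * ρ ^ k) (i j : Fin d) :
    ∑ t, G i t * G t j = G i j := by
  have hr0 : 0 < r := by linarith
  have hlim : ∀ i j, Filter.Tendsto (fun k : ℕ => ((M ^ k) i j : ℝ) / r ^ k) Filter.atTop
      (nhds (G i j)) := by
    intro i j
    rw [tendsto_iff_norm_sub_tendsto_zero]
    refine squeeze_zero (fun k => norm_nonneg _) (fun k => ?_)
      (tendsto_ratio (C := C) hρ0 hρ1 hr)
    have hrk : (0 : ℝ) < r ^ k := by positivity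
    rw [Real.norm_eq_abs]
    have e : ((M ^ k) i j : ℝ) / r ^ k - G i j = (((M ^ k) i j : ℝ) - r ^ k * G i j) / r ^ k := by
      field_simp
    rw [e, abs_div, abs_of_pos hrk, div_le_iff₀ hrk, div_pow]
    have e2 : C * (ρ ^ k / r ^ k) * r ^ k = C * ρ ^ k := by
      field_simp
    rw [e2]
    exact hdec k i j
  have h1 : Filter.Tendsto (fun k : ℕ => ∑ t, ((M ^ k) i t : ℝ) / r ^ k *
      (((M ^ k) t j : ℝ) / r ^ k)) Filter.atTop (nhds (∑ t, G i t * G t j)) :=
    tendsto_finsetSum _ fun t _ => (hlim i t).mul (hlim t j)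
  have h2 : Filter.Tendsto (fun k : ℕ => k + k) Filter.atTop Filter.atTop :=
    Filter.tendsto_atTop_mono (fun k => Nat.le_add_left k k) Filter.tendsto_id
  have h3 := (hlim i j).comp h2
  refine tendsto_nhds_unique h1 (h3.congr fun k => ?_)
  simp only [Function.comp]
  rw [pow_add M k k, Matrix.mul_apply]
  push_cast
  rw [Finset.sum_div]
  refine Finset.sum_congr rfl fun t _ => ?_
  rw [pow_add, div_mul_div_comm]

/-- Conjugation by a unimodular matrix. -/
lemma pisot_conj {M P Q : Matrix (Fin d) (Fin d) ℤ} {r : ℝ} (h : PisotMat M r)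
    (hPQ : P * Q = 1) : PisotMat (P * M * Q) r := by
  have hQP : Q * P = 1 := mul_eq_one_comm.1 hPQ
  have hc : (P * M * Q).charpoly = M.charpoly := by
    rw [Matrix.mul_assoc, Matrix.charpoly_mul_comm, Matrix.mul_assoc, hQP, Matrix.mul_one]
  have hdet : (P * M * Q).det = M.det := by
    rw [Matrix.det_mul, Matrix.det_mul]
    have h1 : P.det * Q.det = 1 := by rw [← Matrix.det_mul, hPQ, Matrix.det_one]
    calc P.det * M.det * Q.det = (P.det * Q.det) * M.det := by ring
      _ = M.det := by rw [h1, one_mul]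
  refine ⟨h.one_lt, ?_, ?_, ?_, ?_⟩
  · rw [hc]
    exact h.root
  · rw [hc]
    exact h.others
  · rw [hc]
    exact h.irr
  · rw [hdet]
    exact h.det

lemma conj_pow {M P Q : Matrix (Fin d) (Fin d) ℤ} (hPQ : P * Q = 1) (k : ℕ) :
    (P * M * Q) ^ k = P * M ^ k * Q := by
  have hQP : Q * P = 1 := mul_eq_one_comm.1 hPQ
  induction k with
  | zero => rw [pow_zero, pow_zero, Matrix.mul_one, hPQ]
  | succ k ih =>
    rw [pow_succ, ih, pow_succ]
    calc P * M ^ k * Q * (P * M * Q) = P * M ^ k * (Q * P) * (M * Q) := by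
          simp only [Matrix.mul_assoc]
      _ = P * (M ^ k * M) * Q := by rw [hQP, Matrix.mul_one]; simp only [Matrix.mul_assoc]

theorem exists_conj (M : Matrix (Fin d) (Fin d) ℤ) (r : ℝ) (hd : 0 < d) (h : PisotMat M r) :
    ∃ P Q : Matrix (Fin d) (Fin d) ℤ, P * Q = 1 ∧ ((∀ i j, 0 ≤ M i j) → P = 1) ∧
      ∃ α l : Fin d → ℝ, PFData (P * M * Q) r α l := by
  have hne : Nonempty (Fin d) := ⟨⟨0, hd⟩⟩
  by_cases hM : ∀ i j, 0 ≤ M i j
  · refine ⟨1, 1, by simp, fun _ => rfl, ?_⟩
    rw [Matrix.one_mul, Matrix.mul_one]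
    exact pfData M r h hM
  obtain ⟨G, C, ρ, hC, hρ0, hρ1, hdec, hG, hG'⟩ := exists_limit M r h
  have hGne : G ≠ 0 := limit_ne_zero h hρ0 hρ1 hdec
  have hent := entry_ne_zero h.irr hG hG' hGne
  set o : Fin d := ⟨0, hd⟩ with ho
  set x : Fin d → ℝ := fun i => G i o with hx
  set y : Fin d → ℝ := fun j => G o j / G o o with hy
  have hGxy : ∀ i j, G i j = x i * y j := by
    intro i j
    have h1 := limit_prop h.irr hG i j o o
    have h2 := hent o o
    rw [hx, hy]
    simp only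
    field_simp
    linarith
  have hxy : ∑ i, y i * x i = 1 := by
    have h1 := limit_idem h.one_lt hρ0 hρ1 hdec o o
    have h2 : ∑ t, G o t * G t o = G o o * ∑ i, y i * x i := by
      rw [Finset.mul_sum]
      refine Finset.sum_congr rfl fun t _ => ?_
      rw [hGxy o t, hGxy t o, hGxy o o]
      ring
    rw [h2] at h1
    have h3 := hent o o
    exact mul_left_cancel₀ h3 (by rw [h1, mul_one])
  have hxe : ∀ i, ∑ j, (M i j : ℝ) * x j = r * x i := by
    intro i
    have e1 := congrFun (congrFun hG i) o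
    rw [Matrix.mul_apply, Matrix.smul_apply, smul_eq_mul] at e1
    exact e1
  have hx0 : x ≠ 0 := by
    intro h0
    exact hent o o (congrFun h0 o)
  have hind := indep_of_eig M h.irr hxe hx0
  obtain ⟨P, Q, hPQ, hPx, hyQ⟩ := unimod hd hind (by rw [hxy]; exact one_pos)
  have hQP : Q * P = 1 := mul_eq_one_comm.1 hPQ
  refine ⟨P, Q, hPQ, fun h' => absurd h' hM, ?_⟩
  have htoR : ∀ A B : Matrix (Fin d) (Fin d) ℤ, toR (A * B) = toR A * toR B := by
    intro A B
    unfold toR
    rw [← RingHom.mapMatrix_apply, map_mul, RingHom.mapMatrix_apply, RingHom.mapMatrix_apply]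
  have htoR1 : toR (1 : Matrix (Fin d) (Fin d) ℤ) = 1 := by
    unfold toR
    rw [← RingHom.mapMatrix_apply, map_one]
  have hQPR : toR Q * toR P = 1 := by rw [← htoR, hQP, htoR1]
  set G' := toR P * G * toR Q with hG'def
  set S : ℝ := ∑ i, ∑ j, ∑ t, ∑ s, |(P i s : ℝ)| * |(Q t j : ℝ)| with hS
  have hnn2 : ∀ i j, 0 ≤ ∑ t, ∑ s, |(P i s : ℝ)| * |(Q t j : ℝ)| := fun i j =>
    Finset.sum_nonneg fun _ _ => Finset.sum_nonneg fun _ _ => mul_nonneg (abs_nonneg _) (abs_nonneg _)
  have hnn3 : ∀ i, 0 ≤ ∑ j, ∑ t, ∑ s, |(P i s : ℝ)| * |(Q t j : ℝ)| := fun i =>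
    Finset.sum_nonneg fun j _ => hnn2 i j
  have hS0 : 0 ≤ S := Finset.sum_nonneg fun i _ => hnn3 i
  refine pfData_of_pos (P * M * Q) r (pisot_conj h hPQ) (G := G') (C := C * S) (ρ := ρ)
    (mul_nonneg hC hS0) hρ0 hρ1 ?_ ?_ ?_ ?_
  · intro k i j
    rw [conj_pow hPQ]
    have e1 : (((P * M ^ k * Q) i j : ℤ) : ℝ) =
        ∑ t, ∑ s, (P i s : ℝ) * ((M ^ k) s t : ℝ) * (Q t j : ℝ) := by
      rw [Matrix.mul_apply]
      push_cast
      refine Finset.sum_congr rfl fun t _ => ?_
      rw [Matrix.mul_apply]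
      push_cast
      rw [Finset.sum_mul]
    have e2 : G' i j = ∑ t, ∑ s, (P i s : ℝ) * G s t * (Q t j : ℝ) := by
      rw [hG'def, Matrix.mul_apply]
      refine Finset.sum_congr rfl fun t _ => ?_
      rw [Matrix.mul_apply, Finset.sum_mul]
      rfl
    have e3 : (((P * M ^ k * Q) i j : ℤ) : ℝ) - r ^ k * G' i j =
        ∑ t, ∑ s, (P i s : ℝ) * (((M ^ k) s t : ℝ) - r ^ k * G s t) * (Q t j : ℝ) := by
      rw [e1, e2, Finset.mul_sum, ← Finset.sum_sub_distrib]
      refine Finset.sum_congr rfl fun t _ => ?_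
      rw [Finset.mul_sum, ← Finset.sum_sub_distrib]
      refine Finset.sum_congr rfl fun s _ => ?_
      ring
    rw [e3]
    have h4 : |∑ t, ∑ s, (P i s : ℝ) * (((M ^ k) s t : ℝ) - r ^ k * G s t) * (Q t j : ℝ)| ≤
        ∑ t, ∑ s, |(P i s : ℝ)| * |(Q t j : ℝ)| * (C * ρ ^ k) := by
      refine le_trans (Finset.abs_sum_le_sum_abs _ _) (Finset.sum_le_sum fun t _ => ?_)
      refine le_trans (Finset.abs_sum_le_sum_abs _ _) (Finset.sum_le_sum fun s _ => ?_)
      rw [abs_mul, abs_mul]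
      have := hdec k s t
      calc |(P i s : ℝ)| * |((M ^ k) s t : ℝ) - r ^ k * G s t| * |(Q t j : ℝ)|
          ≤ |(P i s : ℝ)| * (C * ρ ^ k) * |(Q t j : ℝ)| := by gcongr
        _ = _ := by ring
    refine le_trans h4 ?_
    have h5 : ∑ t, ∑ s, |(P i s : ℝ)| * |(Q t j : ℝ)| ≤ S := by
      rw [hS]
      refine le_trans (Finset.single_le_sum
        (f := fun j => ∑ t, ∑ s, |(P i s : ℝ)| * |(Q t j : ℝ)|)
        (fun j _ => hnn2 i j) (Finset.mem_univ j)) ?_
      exact Finset.single_le_sum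
        (f := fun i => ∑ j, ∑ t, ∑ s, |(P i s : ℝ)| * |(Q t j : ℝ)|)
        (fun i _ => hnn3 i) (Finset.mem_univ i)
    have h6 : 0 ≤ C * ρ ^ k := mul_nonneg hC (pow_pos hρ0 k).le
    calc ∑ t, ∑ s, |(P i s : ℝ)| * |(Q t j : ℝ)| * (C * ρ ^ k) =
          (∑ t, ∑ s, |(P i s : ℝ)| * |(Q t j : ℝ)|) * (C * ρ ^ k) := by
            rw [Finset.sum_mul]
            refine Finset.sum_congr rfl fun t _ => ?_
            rw [Finset.sum_mul]
      _ ≤ S * (C * ρ ^ k) := mul_le_mul_of_nonneg_right h5 h6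
      _ = C * S * ρ ^ k := by ring
  · rw [htoR, htoR, hG'def]
    calc toR P * toR M * toR Q * (toR P * G * toR Q) =
        toR P * toR M * (toR Q * toR P) * (G * toR Q) := by simp only [Matrix.mul_assoc]
      _ = toR P * (toR M * G) * toR Q := by rw [hQPR, Matrix.mul_one]; simp only [Matrix.mul_assoc]
      _ = r • (toR P * G * toR Q) := by rw [hG, Matrix.mul_smul, Matrix.smul_mul]
  · rw [htoR, htoR, hG'def]
    calc toR P * G * toR Q * (toR P * toR M * toR Q) =
        toR P * G * (toR Q * toR P) * (toR M * toR Q) := by simp only [Matrix.mul_assoc]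
      _ = toR P * (G * toR M) * toR Q := by rw [hQPR, Matrix.mul_one]; simp only [Matrix.mul_assoc]
      _ = r • (toR P * G * toR Q) := by rw [hG', Matrix.mul_smul, Matrix.smul_mul]
  · intro i j
    have e2 : G' i j = (∑ s, (P i s : ℝ) * x s) * (∑ t, y t * (Q t j : ℝ)) := by
      rw [hG'def, Matrix.mul_apply, Finset.mul_sum]
      refine Finset.sum_congr rfl fun t _ => ?_
      rw [Matrix.mul_apply, Finset.sum_mul, Finset.sum_mul]
      refine Finset.sum_congr rfl fun s _ => ?_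
      rw [hGxy, toR_apply, toR_apply]
      ring
    rw [e2]
    exact mul_pos (hPx i) (hyQ j)

end Pool.Agent.Helper40_Pisot
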