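import Pool.Agent.Helper40_Pisot.Final

set_option autoImplicit false

/-!
Powers of the incidence matrix, and the exclusion property from the discrepancies of the prefixes of
the images of the letters.
-/

namespace Pool.Agent.Helper40_Pisot

open Finset

variable {d : ℕ}

/-- The data of a power. -/
theorem pf_pow {M : Matrix (Fin d) (Fin d) ℤ} {r : ℝ} {α l : Fin d → ℝ} (h : PFData M r α l)
    {N : ℕ} (hN : 1 ≤ N) : PFData (M ^ N) (r ^ N) α l where
  one_lt := one_lt_pow₀ h.one_lt (by omega)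
  α_pos := h.α_pos
  α_sum := h.α_sum
  α_eig := fun i => pow_α h N i
  l_pos := h.l_pos
  l_eig := fun j => pow_l h N j
  det := by
    rw [Matrix.det_pow, Int.cast_pow, abs_pow, h.det, one_pow]
  prim := by
    obtain ⟨K, hK⟩ := h.prim
    refine ⟨K, fun k hk i j => ?_⟩
    rw [← pow_mul]
    exact hK _ (le_trans hk (Nat.le_mul_of_pos_left k (by omega))) i j
  decay := by
    obtain ⟨C, ρ, hC, hρ0, hρ1, hdec⟩ := h.decay
    refine ⟨C, ρ ^ N, hC, pow_pos hρ0 N, pow_lt_one₀ hρ0.le hρ1 (by omega), fun k i j => ?_⟩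
    rw [← pow_mul, ← pow_mul]
    exact hdec _ i j

/-- Discrepancy bounds on the prefixes of the images of letters give discrepancy bounds on the
prefixes of all iterates, and closeness to the discrepancies of the former. -/
lemma disc_blocks {σ : Fin d → List (Fin d)} {M : Matrix (Fin d) (Fin d) ℤ} {r : ℝ}
    {α l : Fin d → ℝ} (hM : Inc σ M) (h : PFData M r α l) {K δ : ℝ} (hK : 0 ≤ K) (hδ0 : 0 ≤ δ)
    (hδ : ∀ i j, |Bmat M α 1 i j| ≤ δ) (hδK : d * δ ≤ 1 / 2)
    (hb : ∀ i p, p <+: σ i → ∀ j, |disc α p j| ≤ K) {a : Fin d} :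
    ∀ (n : ℕ) (p : List (Fin d)), p <+: it σ (n + 1) [a] →
      (∀ j, |disc α p j| ≤ 2 * K) ∧
      ∃ b p', p' <+: σ b ∧ ∀ j, |disc α p j - disc α p' j| ≤ 2 * K * (d * δ) := by
  have hK2 : 0 ≤ 2 * K * (d * δ) := by positivity
  intro n
  induction n with
  | zero =>
    intro p hp
    have e : it σ (0 + 1) [a] = σ a := by simp [it]
    rw [e] at hp
    refine ⟨fun j => ?_, a, p, hp, fun j => by simpa using hK2⟩
    have := hb a p hp j
    linarith
  | succ n ih =>
    intro p hp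
    have e : it σ (n + 1 + 1) [a] = (it σ (n + 1) [a]).flatMap σ := it_succ' σ (n + 1) [a]
    -- the main computation
    have main : ∀ (u p' : List (Fin d)) (b : Fin d), u <+: it σ (n + 1) [a] → p' <+: σ b →
        p = u.flatMap σ ++ p' → (∀ j, |disc α p j| ≤ 2 * K) ∧
      ∃ b p', p' <+: σ b ∧ ∀ j, |disc α p j - disc α p' j| ≤ 2 * K * (d * δ) := by
      intro u p' b hu hp' hpe
      have hub := (ih u hu).1
      have e1 : u.flatMap σ = it σ 1 u := rfl
      have hc : ∀ j, |disc α p j - disc α p' j| ≤ 2 * K * (d * δ) := by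
        intro j
        rw [hpe, disc_append, e1, disc_it hM h]
        have e2 : ∑ k, Bmat M α 1 j k * disc α u k + disc α p' j - disc α p' j =
            ∑ k, Bmat M α 1 j k * disc α u k := by ring
        rw [e2]
        refine le_trans (Finset.abs_sum_le_sum_abs _ _) ?_
        have h3 : ∀ k ∈ (Finset.univ : Finset (Fin d)),
            |Bmat M α 1 j k * disc α u k| ≤ δ * (2 * K) := by
          intro k _
          rw [abs_mul]
          exact mul_le_mul (hδ j k) (hub k) (abs_nonneg _) hδ0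
        refine le_trans (Finset.sum_le_sum h3) ?_
        rw [Finset.sum_const, Finset.card_univ, Fintype.card_fin, nsmul_eq_mul]
        linarith
      refine ⟨fun j => ?_, b, p', hp', hc⟩
      have h1 := hc j
      have h2 := hb b p' hp' j
      have h3 : 2 * K * (d * δ) ≤ K := by nlinarith
      have h4 : |disc α p j| ≤ |disc α p j - disc α p' j| + |disc α p' j| := by
        have := abs_add_le (disc α p j - disc α p' j) (disc α p' j)
        simpa using this
      linarith
    rw [e] at hp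
    by_cases hlt : p.length < ((it σ (n + 1) [a]).flatMap σ).length
    · obtain ⟨q, b, s, p', e1, e2, e3, _⟩ := prefix_flatMap σ _ p hp hlt
      exact main q p' b ⟨b :: s, e1.symm⟩ e3 e2
    · have hpe : p = (it σ (n + 1) [a]).flatMap σ :=
        hp.eq_of_length_le (by omega)
      exact main (it σ (n + 1) [a]) [] a (List.prefix_rfl) List.nil_prefix (by rw [hpe]; simp)

/-- The exclusion property. -/
lemma excl_of_blocks {σ : Fin d → List (Fin d)} {M : Matrix (Fin d) (Fin d) ℤ} {r : ℝ}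
    {α l : Fin d → ℝ} (hM : Inc σ M) (h : PFData M r α l) {K δ ε : ℝ} (hK : 0 ≤ K) (hδ0 : 0 ≤ δ)
    (hδ : ∀ i j, |Bmat M α 1 i j| ≤ δ) (hδK : d * δ ≤ 1 / 2)
    (hε : 0 < ε) (hδε : 2 * K * (d * δ) ≤ ε / 2)
    (hb : ∀ i p, p <+: σ i → ∀ j, |disc α p j| ≤ K)
    (hz : ∀ i p, p <+: σ i → ∀ z : Fin d → ℤ, (∀ j, |disc α p j - z j| < ε) → z = 0)
    {a : Fin d} (ha : FixLetter σ a) : Excl σ α a := by
  refine ⟨ε / 2, half_pos hε, ?_⟩
  intro n p hp z hpz
  have hp' : p <+: it σ (n + 1) [a] := hp.trans (ha.pre (Nat.le_succ n))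
  obtain ⟨b, p', h1, h2⟩ := (disc_blocks hM h hK hδ0 hδ hδK hb n p hp').2
  apply hz b p' h1 z
  intro j
  have h3 := abs_lt.1 (hpz j)
  have h4 := abs_le.1 (h2 j)
  rw [abs_lt]
  constructor <;> linarith [h3.1, h3.2, h4.1, h4.2]

/-- The matrix `π₀ M^N` is small for large `N`. -/
lemma Bmat_small {M : Matrix (Fin d) (Fin d) ℤ} {r : ℝ} {α l : Fin d → ℝ} (h : PFData M r α l)
    {δ : ℝ} (hδ : 0 < δ) : ∃ N0 : ℕ, ∀ N, N0 ≤ N → ∀ i j, |Bmat (M ^ N) α 1 i j| ≤ δ := by
  obtain ⟨C, ρ, hC, hρ0, hρ1, hdec⟩ := h.decay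
  have h1 : Filter.Tendsto (fun N : ℕ => C * ρ ^ N) Filter.atTop (nhds (C * 0)) :=
    (tendsto_pow_atTop_nhds_zero_of_lt_one hρ0.le hρ1).const_mul C
  rw [mul_zero] at h1
  obtain ⟨N0, hN0⟩ := Filter.eventually_atTop.1 (h1.eventually_lt_const hδ)
  refine ⟨N0, fun N hN i j => ?_⟩
  unfold Bmat
  rw [pow_one]
  exact le_trans (hdec N i j) (hN0 N hN).le

/-- The discrepancies of a word add up to zero. -/
lemma sum_disc {α : Fin d → ℝ} (hα : ∑ i, α i = 1) (w : List (Fin d)) : ∑ i, disc α w i = 0 := by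
  unfold disc
  rw [Finset.sum_sub_distrib, ← Finset.mul_sum, hα, length_eq_sum_count]
  push_cast
  ring

end Pool.Agent.Helper40_Pisot
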