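import Pool.Agent.Helper40_Pisot.Surgery

set_option autoImplicit false

/-!
Every large power of a substitution can be rearranged on a small proportion of the positions so that
the exclusion property holds.
-/

namespace Pool.Agent.Helper40_Pisot

open Finset

variable {d : ℕ}

lemma card_le_of_spaced {n g : ℕ} (hg : 1 ≤ g) (S : Finset ℕ) (hS : ∀ z ∈ S, z < n)
    (hsp : ∀ z ∈ S, ∀ z' ∈ S, z < z' → z + g ≤ z') : S.card ≤ n / g + 1 := by
  have h1 : S.card ≤ (Finset.range (n / g + 1)).card := by
    apply Finset.card_le_card_of_injOn (fun z => z / g)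
    · intro z hz
      have := hS z hz
      rw [Finset.coe_range, Set.mem_Iio]
      exact Nat.lt_succ_of_le (Nat.div_le_div_right this.le)
    · intro z hz z' hz' h
      have hz := Finset.mem_coe.1 hz
      have hz' := Finset.mem_coe.1 hz'
      simp only at h
      by_contra hne
      rcases Nat.lt_or_gt_of_ne hne with h1 | h1
      · have h2 := hsp z hz z' hz' h1
        have h3 : (z + g) / g ≤ z' / g := Nat.div_le_div_right h2
        rw [Nat.add_div_right _ (by omega)] at h3
        omega
      · have h2 := hsp z' hz' z hz h1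
        have h3 : (z' + g) / g ≤ z / g := Nat.div_le_div_right h2
        rw [Nat.add_div_right _ (by omega)] at h3
        omega
  simpa using h1

/-- Multiples of a frequency stay away from the integers. -/
lemma away {α : Fin d → ℝ} (hα : ∑ i, α i = 1) (hind : Indep α) (hd : 2 ≤ d) (o : Fin d) (Q : ℕ) :
    ∃ η : ℝ, 0 < η ∧ ∀ q : ℕ, 1 ≤ q → q ≤ Q → ∀ c : ℤ, 2 * η ≤ |(q : ℝ) * α o - c| := by
  have hne : ∀ q : ℕ, 1 ≤ q → ∀ c : ℤ, (q : ℝ) * α o - c ≠ 0 := by
    intro q hq c h0
    have h1 : ∑ j, (((if j = o then (q : ℤ) else 0) - c : ℤ) : ℝ) * α j = 0 := by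
      have h2 : ∀ j, (((if j = o then (q : ℤ) else 0) - c : ℤ) : ℝ) * α j =
          (if j = o then (q : ℝ) * α j else 0) - c * α j := by
        intro j
        split_ifs with h
        · push_cast
          ring
        · push_cast
          ring
      simp_rw [h2]
      rw [Finset.sum_sub_distrib, ← Finset.mul_sum, hα, Finset.sum_ite_eq' Finset.univ o,
        if_pos (Finset.mem_univ o)]
      linarith
    have h3 := hind _ h1
    -- a second index
    obtain ⟨o', ho'⟩ : ∃ o' : Fin d, o' ≠ o := by
      have : Nontrivial (Fin d) := Fin.nontrivial_iff_two_le.2 hd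
      exact exists_ne o
    have h4 := congrFun h3 o'
    have h5 := congrFun h3 o
    simp only [if_neg ho', Pi.zero_apply, if_true] at h4 h5
    omega
  induction Q with
  | zero => exact ⟨1, one_pos, fun q hq1 hq2 => by omega⟩
  | succ Q ih =>
    obtain ⟨η, hη, h⟩ := ih
    set x : ℝ := ((Q + 1 : ℕ) : ℝ) * α o with hx
    have hx0 : 0 < |x - round x| := abs_pos.2 (hne (Q + 1) (by omega) _)
    refine ⟨min η (|x - round x| / 2), by positivity, ?_⟩
    intro q hq1 hq2 c
    rcases Nat.lt_or_ge q (Q + 1) with hq | hq
    · exact le_trans (by linarith [min_le_left η (|x - round x| / 2)]) (h q hq1 (by omega) c)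
    · have : q = Q + 1 := le_antisymm hq2 hq
      subst this
      have h1 := round_le x c
      have h2 := min_le_right η (|x - round x| / 2)
      linarith

lemma int_zero_of_abs_lt {z : ℤ} (h : |(z : ℝ)| < 1) : z = 0 := by
  have : |z| < 1 := by exact_mod_cast h
  exact Int.abs_lt_one_iff.1 this

theorem approx_power {σ : Fin d → List (Fin d)} {M : Matrix (Fin d) (Fin d) ℤ} {r : ℝ}
    {α l : Fin d → ℝ} (hM : Inc σ M) (h : PFData M r α l) (hd : 2 ≤ d) (hσ : ∀ a, σ a ≠ [])
    (hind : Indep α) {ε : ℝ} (hε : 0 < ε) : ∃ N0 : ℕ, ∀ N, N0 ≤ N →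
      ∃ (τ : Fin d → List (Fin d)) (a : Fin d), (∀ i, (τ i).Perm (it σ N [i])) ∧
        (∀ i, (ham (τ i) (it σ N [i]) : ℝ) ≤ ε * (it σ N [i]).length) ∧
        (∀ i, [a] <+: τ i) ∧ Excl τ α a := by
  classical
  obtain ⟨C, hC0, hC⟩ := disc_prefix_bound hM h
  have hdpos : 0 < d := by omega
  have hdR : (2 : ℝ) ≤ d := by exact_mod_cast hd
  set o : Fin d := ⟨0, hdpos⟩ with ho
  have hne : Nonempty (Fin d) := ⟨o⟩
  -- a lower bound for the frequencies
  obtain ⟨κ, hκ0, hκ⟩ : ∃ κ : ℝ, 0 < κ ∧ ∀ j, κ ≤ α j := by
    obtain ⟨m, _, hm⟩ := Finset.exists_min_image Finset.univ α Finset.univ_nonempty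
    exact ⟨α m, h.α_pos m, fun j => hm j (Finset.mem_univ j)⟩
  obtain ⟨W, hW⟩ := exists_nat_ge ((C + 2) / κ)
  rw [div_le_iff₀ hκ0] at hW
  have hW1 : 1 ≤ W := by
    by_contra hcon
    have : W = 0 := by omega
    rw [this] at hW
    simp at hW
    linarith
  have hW1R : (1 : ℝ) ≤ W := by exact_mod_cast hW1
  have hWα : ∀ j, C + 2 ≤ W * α j := fun j =>
    le_trans hW (mul_le_mul_of_nonneg_left (hκ j) (by positivity))
  obtain ⟨Q1, hQ1⟩ := exists_nat_ge (4 * W / ε)
  set Q : ℕ := Q1 + 2 * W + 1 with hQ
  obtain ⟨η1, hη1, hη1'⟩ := away h.α_sum hind hd o Q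
  set η : ℝ := min η1 (1 / (2 * d)) with hη
  have hη0 : 0 < η := by positivity
  have hηd : d * η ≤ 1 / 2 := by
    have : η ≤ 1 / (2 * d) := min_le_right _ _
    calc (d : ℝ) * η ≤ d * (1 / (2 * d)) := mul_le_mul_of_nonneg_left this (by linarith)
      _ = 1 / 2 := by field_simp
  have hη4 : η ≤ 1 / 4 := by
    have : 2 * η ≤ d * η := mul_le_mul_of_nonneg_right hdR hη0.le
    linarith
  have haway : ∀ q : ℕ, 1 ≤ q → q ≤ Q → ∀ c : ℤ, 2 * η ≤ |(q : ℝ) * α o - c| := by
    intro q hq1 hq2 c
    have := hη1' q hq1 hq2 c
    have h2 : η ≤ η1 := min_le_left _ _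
    linarith
  set K : ℝ := C + 2 * W with hK
  have hK0 : 0 < K := by positivity
  set δ : ℝ := min (η / 2) (η / (4 * K * d)) with hδ
  have hδ0 : 0 < δ := by positivity
  have hδη : δ < η := lt_of_le_of_lt (min_le_left _ _) (by linarith)
  have hδK : 2 * K * (d * δ) ≤ η / 2 := by
    have : δ ≤ η / (4 * K * d) := min_le_right _ _
    calc 2 * K * (d * δ) ≤ 2 * K * (d * (η / (4 * K * d))) := by gcongr
      _ = η / 2 := by field_simp; ring
  have hdδ : d * δ ≤ 1 / 2 := by
    have : d * δ ≤ d * η := mul_le_mul_of_nonneg_left hδη.le (by linarith)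
    linarith
  obtain ⟨N1, hN1⟩ := Bmat_small h hδ0
  obtain ⟨L0, hL0⟩ := exists_nat_ge (8 * W / ε)
  have hp := prim_of_pf hM h
  obtain ⟨N2, hN2⟩ := length_large hd hσ hp (L0 + W + 1)
  refine ⟨max (max N1 N2) 1, fun N hN => ?_⟩
  have hNa : N1 ≤ N := le_trans (le_trans (le_max_left _ _) (le_max_left _ _)) hN
  have hNb : N2 ≤ N := le_trans (le_trans (le_max_right _ _) (le_max_left _ _)) hN
  have hNc : 1 ≤ N := le_trans (le_max_right _ _) hN
  have hB := hN1 N hNa
  -- one letter at a time
  have key : ∀ i, ∃ w' : List (Fin d), w'.Perm (it σ N [i]) ∧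
      (ham w' (it σ N [i]) : ℝ) ≤ ε * (it σ N [i]).length ∧ [o] <+: w' ∧
      (∀ p, p <+: w' → ∀ j, |disc α p j| ≤ K) ∧
      (∀ p, p <+: w' → ∀ z : Fin d → ℤ, (∀ j, |disc α p j - z j| < η) → z = 0) := by
    intro i
    set w := it σ N [i] with hw
    set L := w.length with hL
    have hLbig : L0 + W + 1 ≤ L := hN2 N hNb i
    have hwdisc : ∀ j, |disc α w j| ≤ δ := by
      intro j
      have h1 := hB j i
      unfold Bmat at h1
      rw [pow_one] at h1
      unfold disc
      have e1 : ∀ t, ((w.count t : ℕ) : ℝ) = (((M ^ N) t i : ℤ) : ℝ) := by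
        intro t
        have := count_it_single hM N i t
        rw [← this]
        push_cast
        rfl
      have e2 : ((w.length : ℕ) : ℝ) = ∑ t, (((M ^ N) t i : ℤ) : ℝ) := by
        rw [length_eq_sum_count]
        push_cast
        exact Finset.sum_congr rfl fun t _ => e1 t
      rw [e1, e2]
      exact h1
    have hpd : ∀ s, s ≤ L → ∀ j, |((w.take s).count j : ℝ) - s * α j| ≤ C := by
      intro s hs j
      have h1 := hC N i (w.take s) (List.take_prefix _ _) j
      unfold disc at h1
      have h2 : (w.take s).length = s := by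
        rw [List.length_take]
        omega
      rw [h2] at h1
      exact h1
    -- the bad times
    let bad : ℕ → Prop := fun t => ∃ c : Fin d → ℤ, ∀ j, |(t : ℝ) * α j - c j| < η
    have hbad : ∀ t, bad t → ∃ c : Fin d → ℤ, ∀ j, |(t : ℝ) * α j - c j| < η := fun t ht => ht
    choose! cs hcs using hbad
    set T0 : Finset ℕ := (Finset.Ico 1 L).filter bad with hT0
    have hT0m : ∀ t, t ∈ T0 ↔ (1 ≤ t ∧ t < L) ∧ bad t := by
      intro t
      rw [hT0, Finset.mem_filter, Finset.mem_Ico]
    have hgap : ∀ t ∈ T0, ∀ t' ∈ T0, t < t' → t + (Q + 1) ≤ t' := by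
      intro t ht t' ht' hlt
      by_contra hcon
      push Not at hcon
      have h1 := hcs t ((hT0m t).1 ht).2 o
      have h2 := hcs t' ((hT0m t').1 ht').2 o
      have h3 := haway (t' - t) (by omega) (by omega) (cs t' o - cs t o)
      have e : ((t' - t : ℕ) : ℝ) * α o - ((cs t' o - cs t o : ℤ) : ℝ) =
          ((t' : ℝ) * α o - cs t' o) - ((t : ℝ) * α o - cs t o) := by
        rw [Nat.cast_sub hlt.le]
        push_cast
        ring
      rw [e] at h3
      have h4 := abs_sub ((t' : ℝ) * α o - cs t' o) ((t : ℝ) * α o - cs t o)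
      linarith
    have hfirst : ∀ t ∈ T0, Q < t := by
      intro t ht
      by_contra hcon
      push Not at hcon
      have h1 := hcs t ((hT0m t).1 ht).2 o
      have h3 := haway t ((hT0m t).1 ht).1.1 hcon (cs t o)
      linarith
    have hlast : ∀ t ∈ T0, t + Q < L := by
      intro t ht
      by_contra hcon
      push Not at hcon
      have htL := ((hT0m t).1 ht).1.2
      have h1 := hcs t ((hT0m t).1 ht).2 o
      have h2 := hwdisc o
      unfold disc at h2
      rw [← hL] at h2
      have h3 := haway (L - t) (by omega) (by omega) ((w.count o : ℤ) - cs t o)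
      have e : ((L - t : ℕ) : ℝ) * α o - (((w.count o : ℤ) - cs t o : ℤ) : ℝ) =
          -((w.count o : ℝ) - L * α o) - ((t : ℝ) * α o - cs t o) := by
        rw [Nat.cast_sub htL.le]
        push_cast
        ring
      rw [e] at h3
      have h4 := abs_sub (-((w.count o : ℝ) - L * α o)) ((t : ℝ) * α o - cs t o)
      rw [abs_neg] at h4
      linarith
    have hcsum : ∀ t ∈ T0, ∑ j, cs t j = t := by
      intro t ht
      have h1 := hcs t ((hT0m t).1 ht).2
      have h2 : |((t : ℝ) - ((∑ j, cs t j : ℤ) : ℝ))| < 1 := by
        have e : (t : ℝ) - ((∑ j, cs t j : ℤ) : ℝ) = ∑ j, ((t : ℝ) * α j - cs t j) := by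
          rw [Finset.sum_sub_distrib, ← Finset.mul_sum, h.α_sum]
          push_cast
          ring
        rw [e]
        refine lt_of_le_of_lt (Finset.abs_sum_le_sum_abs _ _) ?_
        refine lt_of_le_of_lt (Finset.sum_le_sum fun j _ => (h1 j).le) ?_
        rw [Finset.sum_const, Finset.card_univ, Fintype.card_fin, nsmul_eq_mul]
        linarith
      have h3 : |((t : ℤ) - ∑ j, cs t j)| < 1 := by exact_mod_cast h2
      have := Int.abs_lt_one_iff.1 h3
      omega
    set T : Finset ℕ := insert 1 T0 with hT
    set lo : ℕ → ℕ := fun t => if t = 1 then 0 else t - W with hlo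
    set hi : ℕ → ℕ := fun t => if t = 1 then W else t + W with hhi
    set v : ℕ → Fin d → ℕ := fun t => if t = 1 then Pi.single o 1 else fun j => (cs t j).toNat
      with hv
    have hlo1 : lo 1 = 0 := by simp [hlo]
    have hhi1 : hi 1 = W := by simp [hhi]
    have hv1 : v 1 = Pi.single o 1 := by simp [hv]
    have hne1 : ∀ t ∈ T0, t ≠ 1 := by
      intro t ht h0
      have := hfirst t ht
      omega
    have hlot : ∀ t ∈ T0, lo t = t - W := fun t ht => by simp [hlo, hne1 t ht]
    have hhit : ∀ t ∈ T0, hi t = t + W := fun t ht => by simp [hhi, hne1 t ht]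
    have hvt : ∀ t ∈ T0, v t = fun j => (cs t j).toNat := fun t ht => by simp [hv, hne1 t ht]
    have hcs1 : ∀ t ∈ T0, ∀ j, (((w.take (t - W)).count j : ℕ) : ℤ) ≤ cs t j := by
      intro t ht j
      have h1 := (abs_lt.1 (hcs t ((hT0m t).1 ht).2 j)).2
      have h2 := (abs_le.1 (hpd (t - W) (by have := hlast t ht; omega) j)).2
      have h3 := hfirst t ht
      have h4 : ((t - W : ℕ) : ℝ) = (t : ℝ) - W := by
        rw [Nat.cast_sub (by omega)]
      rw [h4] at h2
      have h5 := hWα j
      have h6 : (((w.take (t - W)).count j : ℕ) : ℝ) < cs t j + 1 := by nlinarith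
      have h7 : ((((w.take (t - W)).count j : ℕ) : ℤ) : ℝ) < ((cs t j + 1 : ℤ) : ℝ) := by
        push_cast
        exact h6
      have h8 : (((w.take (t - W)).count j : ℕ) : ℤ) < cs t j + 1 := by exact_mod_cast h7
      omega
    have hcs2 : ∀ t ∈ T0, ∀ j, cs t j ≤ (((w.take (t + W)).count j : ℕ) : ℤ) := by
      intro t ht j
      have h1 := (abs_lt.1 (hcs t ((hT0m t).1 ht).2 j)).1
      have h3 := hlast t ht
      have h2 := (abs_le.1 (hpd (t + W) (by omega) j)).1
      push_cast at h2
      have h5 := hWα j
      have h7 : ((cs t j : ℤ) : ℝ) < ((((w.take (t + W)).count j : ℕ) : ℤ) + 1 : ℤ) := by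
        push_cast
        nlinarith
      have h8 : cs t j < (((w.take (t + W)).count j : ℕ) : ℤ) + 1 := by exact_mod_cast h7
      omega
    have hcs0 : ∀ t ∈ T0, ∀ j, 0 ≤ cs t j := by
      intro t ht j
      have := hcs1 t ht j
      omega
    have hLQ : T0.card ≤ L / (Q + 1) + 1 :=
      card_le_of_spaced (by omega) T0 (fun z hz => ((hT0m z).1 hz).1.2) hgap
    obtain ⟨w', e1, e2, e3, e4, e5⟩ := surgery w (2 * W) lo hi v T
      (by
        intro t ht
        rcases Finset.mem_insert.1 ht with rfl | ht
        · omega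
        · rw [hlot t ht]; omega)
      (by
        intro t ht
        rcases Finset.mem_insert.1 ht with rfl | ht
        · omega
        · rw [hhit t ht]; omega)
      (by
        intro t ht
        rcases Finset.mem_insert.1 ht with rfl | ht
        · omega
        · rw [hhit t ht]
          have := hlast t ht
          omega)
      (by
        intro t ht
        rcases Finset.mem_insert.1 ht with rfl | ht
        · omega
        · rw [hhit t ht, hlot t ht]
          have := hfirst t ht
          omega)
      (by
        intro t ht j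
        rcases Finset.mem_insert.1 ht with rfl | ht
        · rw [hlo1]
          simp
        · rw [hlot t ht, hvt t ht]
          have := hcs1 t ht j
          simp only
          omega)
      (by
        intro t ht j
        rcases Finset.mem_insert.1 ht with rfl | ht
        · rw [hhi1, hv1]
          by_cases hj : j = o
          · subst hj
            rw [Pi.single_eq_same]
            have h2 := (abs_le.1 (hpd W (by omega) o)).1
            have h5 := hWα o
            have h6 : (1 : ℝ) ≤ ((w.take W).count o : ℝ) := by linarith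
            exact_mod_cast h6
          · rw [Pi.single_eq_of_ne hj]
            exact Nat.zero_le _
        · rw [hhit t ht, hvt t ht]
          have := hcs2 t ht j
          simp only
          omega)
      (by
        intro t ht
        rcases Finset.mem_insert.1 ht with rfl | ht
        · rw [hv1]
          simp
        · rw [hvt t ht]
          have h1 := hcsum t ht
          have h2 : ((∑ j, (cs t j).toNat : ℕ) : ℤ) = ∑ j, cs t j := by
            push_cast
            refine Finset.sum_congr rfl fun j _ => ?_
            exact Int.toNat_of_nonneg (hcs0 t ht j)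
          rw [h1] at h2
          exact_mod_cast h2)
      (by
        intro t ht t' ht' hlt
        rcases Finset.mem_insert.1 ht with rfl | ht1
        · rcases Finset.mem_insert.1 ht' with rfl | ht2
          · omega
          · rw [hhi1, hlot t' ht2]
            have := hfirst t' ht2
            omega
        · rcases Finset.mem_insert.1 ht' with rfl | ht2
          · have := hfirst t ht1
            omega
          · rw [hhit t ht1, hlot t' ht2]
            have := hgap t ht1 t' ht2 hlt
            omega)
    have hwin : ∀ t ∈ T, hi t ≤ L := by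
      intro t ht
      rcases Finset.mem_insert.1 ht with rfl | ht
      · omega
      · rw [hhit t ht]
        have := hlast t ht
        omega
    have hcount : ∀ j, w'.count j = w.count j := by
      intro j
      have h1 := e2 L (fun t ht => Or.inr (hwin t ht)) j
      rw [hL, ← e1] at h1
      rw [List.take_length] at h1
      rw [e1, List.take_length] at h1
      exact h1
    have hpre : ∀ p, p <+: w' → p = w'.take p.length ∧ p.length ≤ L := by
      intro p hp
      refine ⟨List.prefix_iff_eq_take.1 hp, ?_⟩
      rw [hL, ← e1]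
      exact hp.length_le
    refine ⟨w', ?_, ?_, ?_, ?_, ?_⟩
    · rw [List.perm_iff_count]
      exact hcount
    · -- the number of changes
      have h1 : T.card ≤ L / (Q + 1) + 2 := by
        rw [hT]
        have := Finset.card_insert_le 1 T0
        omega
      have h2 : (ham w' w : ℝ) ≤ 2 * W * ((L / (Q + 1) : ℕ) + 2) := by
        have h3 : ham w' w ≤ 2 * W * (L / (Q + 1) + 2) :=
          le_trans e5 (Nat.mul_le_mul_left _ h1)
        exact_mod_cast h3
      have h4 : ((L / (Q + 1) : ℕ) : ℝ) ≤ (L : ℝ) * ε / (4 * W) := by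
        refine le_trans Nat.cast_div_le ?_
        rw [div_le_div_iff₀ (by positivity) (by positivity)]
        have h5 : 4 * (W : ℝ) ≤ ε * ((Q + 1 : ℕ) : ℝ) := by
          rw [div_le_iff₀ hε] at hQ1
          have h6 : (Q1 : ℝ) ≤ ((Q + 1 : ℕ) : ℝ) := by
            exact_mod_cast (show Q1 ≤ Q + 1 by omega)
          nlinarith
        have hL0' : (0 : ℝ) ≤ L := Nat.cast_nonneg _
        nlinarith
      have h7 : 8 * (W : ℝ) ≤ ε * L := by
        rw [div_le_iff₀ hε] at hL0
        have h6 : (L0 : ℝ) ≤ L := by exact_mod_cast (show L0 ≤ L by omega)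
        nlinarith
      have h8 : 2 * (W : ℝ) * ((L : ℝ) * ε / (4 * W)) = ε * L / 2 := by
        field_simp
        ring
      nlinarith
    · -- the first letter
      have h1 : ∀ j, (w'.take 1).count j = (Pi.single o 1 : Fin d → ℕ) j := by
        intro j
        rw [e4 1 (Finset.mem_insert_self _ _) j, hv1]
      have h2 : (w'.take 1).length = 1 := by
        rw [List.length_take, e1]
        omega
      obtain ⟨x, hx⟩ := List.length_eq_one_iff.1 h2
      have h3 := h1 o
      rw [hx, Pi.single_eq_same] at h3
      have h4 : o ∈ [x] := by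
        rw [← List.count_pos_iff, h3]
        exact one_pos
      rw [List.mem_singleton] at h4
      rw [h4, ← hx]
      exact List.take_prefix _ _
    · intro p hp j
      obtain ⟨hp1, hp2⟩ := hpre p hp
      set s := p.length with hs
      unfold disc
      rw [← hs, hp1]
      have h1 := hpd s hp2 j
      have h2 := (e3 s j).1
      have h3 := (e3 s j).2
      have h2' : (((w'.take s).count j : ℕ) : ℝ) ≤ ((w.take s).count j : ℕ) + 2 * W := by
        exact_mod_cast h2
      have h3' : (((w.take s).count j : ℕ) : ℝ) ≤ ((w'.take s).count j : ℕ) + 2 * W := by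
        exact_mod_cast h3
      have h4 := abs_le.1 h1
      rw [abs_le, hK]
      constructor <;> linarith [h4.1, h4.2]
    · intro p hp z hz
      obtain ⟨hp1, hp2⟩ := hpre p hp
      set s := p.length with hs
      have hz' : ∀ j, |(s : ℝ) * α j - (((p.count j : ℕ) : ℤ) - z j : ℤ)| < η := by
        intro j
        have := hz j
        unfold disc at this
        rw [← hs] at this
        rw [abs_sub_comm]
        push_cast
        have e : (p.count j : ℝ) - z j - s * α j = (p.count j : ℝ) - s * α j - z j := by ring
        rw [e]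
        exact this
      rcases Nat.eq_zero_or_pos s with hs0 | hs0
      · -- empty
        have hp0 : p = [] := List.length_eq_zero_iff.1 hs0
        funext j
        apply int_zero_of_abs_lt
        have := hz j
        rw [hp0, disc_nil, zero_sub, abs_neg] at this
        linarith
      rcases Nat.lt_or_ge s L with hsL | hsL
      · have hsT : s ∈ T0 := (hT0m s).2 ⟨⟨hs0, hsL⟩, _, hz'⟩
        funext j
        apply int_zero_of_abs_lt
        have h1 := hcs s ((hT0m s).1 hsT).2 j
        have h2 := hz' j
        have h3 := e4 s (Finset.mem_insert_of_mem hsT) j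
        rw [hvt s hsT, ← hp1] at h3
        have h4 : ((p.count j : ℕ) : ℤ) = cs s j := by
          rw [h3]
          exact Int.toNat_of_nonneg (hcs0 s hsT j)
        rw [h4] at h2
        push_cast at h2
        have h5 := abs_sub ((s : ℝ) * α j - ((cs s j : ℝ) - z j)) ((s : ℝ) * α j - cs s j)
        have e : (s : ℝ) * α j - ((cs s j : ℝ) - z j) - ((s : ℝ) * α j - cs s j) = z j := by ring
        rw [e] at h5
        linarith
      · -- the whole word
        have hsL' : s = L := le_antisymm hp2 hsL
        have hpw : p = w' := by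
          rw [hp1, hsL', hL, ← e1, List.take_length]
        funext j
        apply int_zero_of_abs_lt
        have h1 := hz j
        have h2 := hwdisc j
        have h3 : disc α p j = disc α w j := by
          unfold disc
          rw [hpw, hcount, e1]
        rw [h3] at h1
        have h5 := abs_sub (disc α w j - (disc α w j - z j)) 0
        have e : disc α w j - (disc α w j - z j) = z j := by ring
        have h6 := abs_sub (disc α w j) (disc α w j - z j)
        rw [e] at h6
        linarith
  choose τ hτ using key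
  refine ⟨τ, o, fun i => (hτ i).1, fun i => (hτ i).2.1, fun i => (hτ i).2.2.1, ?_⟩
  have hInc : Inc τ (M ^ N) := by
    intro j i
    rw [(hτ i).1.count_eq, count_it_single hM]
  exact excl_of_blocks hInc (pf_pow h hNc) hK0.le hδ0.le hB hdδ hη0 hδK
    (fun i => (hτ i).2.2.2.1) (fun i => (hτ i).2.2.2.2) (hτ o).2.2.1

end Pool.Agent.Helper40_Pisot
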