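import Pool.Agent.Helper40_Pisot.Disc

set_option autoImplicit false

/-!
Bi-infinite sequences, Birkhoff sums, the continuous transfer function.
-/

namespace Pool.Agent.Helper40_Pisot

open Finset

variable {d : ℕ}

/-- The window of length `k` of `x` starting at `i`. -/
def win (x : ℤ → Fin d) (i : ℤ) (k : ℕ) : List (Fin d) :=
  List.ofFn (fun j : Fin k => x (i + ((j : ℕ) : ℤ)))

@[simp] lemma length_win (x : ℤ → Fin d) (i : ℤ) (k : ℕ) : (win x i k).length = k := by
  simp [win]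

@[simp] lemma win_zero (x : ℤ → Fin d) (i : ℤ) : win x i 0 = [] := by
  simp [win]

lemma win_succ (x : ℤ → Fin d) (i : ℤ) (k : ℕ) : win x i (k + 1) = win x i k ++ [x (i + k)] := by
  unfold win
  rw [List.ofFn_succ']
  simp

lemma win_add (x : ℤ → Fin d) (i : ℤ) (k l : ℕ) :
    win x i (k + l) = win x i k ++ win x (i + k) l := by
  induction l with
  | zero => simp
  | succ l ih =>
    rw [← add_assoc, win_succ, ih, win_succ, List.append_assoc]
    congr 4
    push_cast
    ring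

lemma win_eq_iff (x y : ℤ → Fin d) (i j : ℤ) (k : ℕ) :
    win x i k = win y j k ↔ ∀ t : ℕ, t < k → x (i + t) = y (j + t) := by
  unfold win
  rw [List.ofFn_inj]
  constructor
  · intro h t ht
    exact congrFun h ⟨t, ht⟩
  · intro h
    funext t
    exact h t t.2

/-- The subshift. -/
def InX (σ : Fin d → List (Fin d)) (x : ℤ → Fin d) : Prop :=
  ∀ (i : ℤ) (k : ℕ), Lang σ (win x i k)

/-- The `m`-th power of the shift. -/
def sh (m : ℤ) (x : ℤ → Fin d) : ℤ → Fin d := fun n => x (n + m)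

lemma win_sh (m : ℤ) (x : ℤ → Fin d) (i : ℤ) (k : ℕ) : win (sh m x) i k = win x (i + m) k := by
  rw [win_eq_iff]
  intro t _
  simp only [sh]
  congr 1
  ring

lemma InX.sh {σ : Fin d → List (Fin d)} {x : ℤ → Fin d} (h : InX σ x) (m : ℤ) :
    InX σ (sh m x) := by
  intro i k
  rw [win_sh]
  exact h _ _

lemma sh_sh (m k : ℤ) (x : ℤ → Fin d) : sh m (sh k x) = sh (m + k) x := by
  funext n
  simp only [sh]
  congr 1
  ring

@[simp] lemma sh_zero (x : ℤ → Fin d) : sh 0 x = x := by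
  funext n
  simp [sh]

/-- The cocycle. -/
noncomputable def fv (α : Fin d → ℝ) (b i : Fin d) : ℝ := (if b = i then 1 else 0) - α i

/-- Birkhoff sums of the cocycle, over `ℤ`. -/
noncomputable def S (α : Fin d → ℝ) (x : ℤ → Fin d) (n : ℤ) (i : Fin d) : ℝ :=
  ∑ k ∈ Finset.Ico 0 n, fv α (x k) i - ∑ k ∈ Finset.Ico n 0, fv α (x k) i

@[simp] lemma S_zero (α : Fin d → ℝ) (x : ℤ → Fin d) (i : Fin d) : S α x 0 i = 0 := by
  simp [S]

lemma S_succ (α : Fin d → ℝ) (x : ℤ → Fin d) (n : ℤ) (i : Fin d) :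
    S α x (n + 1) i = S α x n i + fv α (x n) i := by
  unfold S
  rcases le_or_gt 0 n with hn | hn
  · have h1 : Finset.Ico (n + 1) 0 = ∅ := Finset.Ico_eq_empty (by omega)
    have h2 : Finset.Ico n 0 = ∅ := Finset.Ico_eq_empty (by omega)
    have h3 : Finset.Ico 0 (n + 1) = insert n (Finset.Ico 0 n) := by
      ext t
      simp only [Finset.mem_Ico, Finset.mem_insert]
      omega
    rw [h1, h2, h3, Finset.sum_insert (by simp)]
    simp
    ring
  · have h1 : Finset.Ico 0 (n + 1) = ∅ := Finset.Ico_eq_empty (by omega)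
    have h2 : Finset.Ico 0 n = ∅ := Finset.Ico_eq_empty (by omega)
    have h3 : Finset.Ico n 0 = insert n (Finset.Ico (n + 1) 0) := by
      ext t
      simp only [Finset.mem_Ico, Finset.mem_insert]
      omega
    rw [h1, h2, h3, Finset.sum_insert (by simp)]
    simp

lemma S_shift (α : Fin d → ℝ) (x : ℤ → Fin d) (m n : ℤ) (i : Fin d) :
    S α (sh m x) n i = S α x (m + n) i - S α x m i := by
  induction n using Int.induction_on with
  | zero => simp
  | succ n ih =>
    rw [S_succ, ih, ← add_assoc, S_succ]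
    have : sh m x n = x (m + n) := by
      simp only [sh]
      congr 1
      ring
    rw [this]
    ring
  | pred n ih =>
    have h1 := S_succ α (sh m x) (-(n : ℤ) - 1) i
    have h2 := S_succ α x (m + (-(n : ℤ) - 1)) i
    have e1 : -(n : ℤ) - 1 + 1 = -(n : ℤ) := by ring
    have e2 : m + (-(n : ℤ) - 1) + 1 = m + -(n : ℤ) := by ring
    rw [e1] at h1
    rw [e2] at h2
    have : sh m x (-(n : ℤ) - 1) = x (m + (-(n : ℤ) - 1)) := by
      simp only [sh]
      congr 1
      ring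
    rw [this] at h1
    linarith

lemma S_nat (α : Fin d → ℝ) (x : ℤ → Fin d) (n : ℕ) (i : Fin d) :
    S α x n i = disc α (win x 0 n) i := by
  induction n with
  | zero => simp
  | succ n ih =>
    push_cast
    rw [S_succ, ih, win_succ, disc_append]
    congr 1
    unfold fv disc
    rw [zero_add]
    by_cases h : x n = i
    · subst h
      simp
    · have : List.count i [x n] = 0 := by
        rw [List.count_eq_zero]
        simp
        exact fun h2 => h h2.symm
      rw [this]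
      simp [h]

lemma S_neg (α : Fin d → ℝ) (x : ℤ → Fin d) (n : ℤ) (i : Fin d) :
    S α x (-n) i = - S α (sh (-n) x) n i := by
  rw [S_shift]
  simp

lemma S_bound {σ : Fin d → List (Fin d)} {α : Fin d → ℝ} {C : ℝ}
    (hC : ∀ w, Lang σ w → ∀ i, |disc α w i| ≤ C) {x : ℤ → Fin d} (hx : InX σ x) (n : ℤ)
    (i : Fin d) : |S α x n i| ≤ C := by
  obtain ⟨k, rfl | rfl⟩ := n.eq_nat_or_neg
  · rw [S_nat]
    exact hC _ (hx _ _) i
  · rw [S_neg, abs_neg, S_nat]
    exact hC _ ((hx.sh _) _ _) i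

/-- The transfer function. -/
noncomputable def phi (α : Fin d → ℝ) (x : ℤ → Fin d) (i : Fin d) : ℝ := - ⨆ n : ℤ, S α x n i

lemma S_bddAbove {σ : Fin d → List (Fin d)} {α : Fin d → ℝ} {C : ℝ}
    (hC : ∀ w, Lang σ w → ∀ i, |disc α w i| ≤ C) {x : ℤ → Fin d} (hx : InX σ x)
    (i : Fin d) : BddAbove (Set.range fun n : ℤ => S α x n i) := by
  refine ⟨C, ?_⟩
  rintro _ ⟨n, rfl⟩
  exact (abs_le.1 (S_bound hC hx n i)).2

lemma S_bddBelow {σ : Fin d → List (Fin d)} {α : Fin d → ℝ} {C : ℝ}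
    (hC : ∀ w, Lang σ w → ∀ i, |disc α w i| ≤ C) {x : ℤ → Fin d} (hx : InX σ x)
    (i : Fin d) : BddBelow (Set.range fun n : ℤ => S α x n i) := by
  refine ⟨-C, ?_⟩
  rintro _ ⟨n, rfl⟩
  exact (abs_le.1 (S_bound hC hx n i)).1

lemma phi_shift {σ : Fin d → List (Fin d)} {α : Fin d → ℝ} {C : ℝ}
    (hC : ∀ w, Lang σ w → ∀ i, |disc α w i| ≤ C) {x : ℤ → Fin d} (hx : InX σ x) (m : ℤ)
    (i : Fin d) : phi α (sh m x) i = phi α x i + S α x m i := by
  unfold phi
  simp_rw [S_shift]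
  have h1 : ⨆ n : ℤ, (S α x (m + n) i - S α x m i) = (⨆ n : ℤ, S α x n i) - S α x m i := by
    have h2 : ⨆ n : ℤ, (S α x (m + n) i - S α x m i) = ⨆ n : ℤ, (S α x n i - S α x m i) :=
      (Equiv.addLeft m).iSup_congr (fun n => rfl)
    rw [h2, ← ciSup_sub (S_bddAbove hC hx i)]
  rw [h1]
  ring

/-- A factor of a window occurs as a window. -/
lemma occ_of_infix {x : ℤ → Fin d} {i : ℤ} {R : ℕ} {w : List (Fin d)} (h : w <:+: win x i R) :
    ∃ j, i ≤ j ∧ win x j w.length = w := by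
  obtain ⟨s, t, hst⟩ := h
  have hl : R = s.length + (w.length + t.length) := by
    have := congrArg List.length hst
    simp only [List.length_append, length_win] at this
    omega
  refine ⟨i + s.length, by omega, ?_⟩
  rw [hl, win_add, win_add, List.append_assoc] at hst
  have h1 := List.append_inj hst (by simp)
  have h2 := List.append_inj h1.2 (by simp)
  exact h2.1.symm

/-- In a repetitive subshift, each central window of `y` occurs far to the right in `x`. -/
lemma exists_match {σ : Fin d → List (Fin d)} (hσ : ∀ a, σ a ≠ []) (hp : Prim σ)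
    {x y : ℤ → Fin d} (hx : InX σ x) (hy : InX σ y) (N : ℕ) (n0 : ℤ) :
    ∃ n : ℤ, n0 ≤ n ∧ ∀ k : ℤ, -N ≤ k → k ≤ N → x (n + k) = y k := by
  obtain ⟨R, hR⟩ := repetitive hσ hp (win y (-N) (2 * N + 1)) (hy _ _)
  have h1 := hR (win x (n0 - N) R) (hx _ _) (by simp)
  obtain ⟨j, hj, hw⟩ := occ_of_infix h1
  rw [length_win, win_eq_iff] at hw
  refine ⟨j + N, by omega, ?_⟩
  intro k hk1 hk2
  have := hw (k + N).toNat (by omega)
  have e : (((k + N).toNat : ℕ) : ℤ) = k + N := by omega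
  rw [e] at this
  have e1 : j + (k + N) = j + N + k := by ring
  have e2 : -(N : ℤ) + (k + N) = k := by ring
  rw [e1, e2] at this
  exact this

/-- Birkhoff sums depend only on a central window. -/
lemma S_congr (α : Fin d → ℝ) {x y : ℤ → Fin d} {N : ℕ}
    (h : ∀ k : ℤ, -N ≤ k → k ≤ N → x k = y k) {n : ℤ} (h1 : -N ≤ n) (h2 : n ≤ N) (i : Fin d) :
    S α x n i = S α y n i := by
  unfold S
  congr 1
  · refine Finset.sum_congr rfl fun k hk => ?_
    rw [Finset.mem_Ico] at hk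
    rw [h k (by omega) (by omega)]
  · refine Finset.sum_congr rfl fun k hk => ?_
    rw [Finset.mem_Ico] at hk
    rw [h k (by omega) (by omega)]

/-- The oscillation is the same for all points. -/
lemma osc_le {σ : Fin d → List (Fin d)} (hσ : ∀ a, σ a ≠ []) (hp : Prim σ)
    {α : Fin d → ℝ} {C : ℝ} (hC : ∀ w, Lang σ w → ∀ i, |disc α w i| ≤ C)
    {x y : ℤ → Fin d} (hx : InX σ x) (hy : InX σ y) (i : Fin d) :
    (⨆ n : ℤ, S α y n i) - (⨅ n : ℤ, S α y n i) ≤
      (⨆ n : ℤ, S α x n i) - (⨅ n : ℤ, S α x n i) := by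
  have key : ∀ n1 n2 : ℤ, S α y n1 i - S α y n2 i ≤
      (⨆ n : ℤ, S α x n i) - (⨅ n : ℤ, S α x n i) := by
    intro n1 n2
    set N : ℕ := n1.natAbs + n2.natAbs with hN
    obtain ⟨n, _, hn⟩ := exists_match hσ hp hx hy N 0
    have hm : ∀ k : ℤ, -N ≤ k → k ≤ N → sh n x k = y k := by
      intro k h1 h2
      rw [← hn k h1 h2]
      simp only [sh]
      congr 1
      ring
    rw [← S_congr α hm (by omega) (by omega) i, ← S_congr α hm (n := n2) (by omega) (by omega) i,
      S_shift, S_shift]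
    have h1 := le_ciSup (S_bddAbove hC hx i) (n + n1)
    have h2 := ciInf_le (S_bddBelow hC hx i) (n + n2)
    linarith
  have h1 : ∀ n2 : ℤ, (⨆ n : ℤ, S α y n i) ≤
      (⨆ n : ℤ, S α x n i) - (⨅ n : ℤ, S α x n i) + S α y n2 i := by
    intro n2
    apply ciSup_le
    intro n1
    have := key n1 n2
    linarith
  have h2 : (⨆ n : ℤ, S α y n i) - ((⨆ n : ℤ, S α x n i) - (⨅ n : ℤ, S α x n i)) ≤
      ⨅ n : ℤ, S α y n i := by
    apply le_ciInf
    intro n2
    have := h1 n2
    linarith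
  linarith

/-- Quantitative continuity of the transfer function. -/
lemma phi_cont {σ : Fin d → List (Fin d)} (hσ : ∀ a, σ a ≠ []) (hp : Prim σ)
    {α : Fin d → ℝ} {C : ℝ} (hC : ∀ w, Lang σ w → ∀ i, |disc α w i| ≤ C)
    {x : ℤ → Fin d} (hx : InX σ x) {ε : ℝ} (hε : 0 < ε) :
    ∃ N : ℕ, ∀ y, InX σ y → (∀ k : ℤ, -N ≤ k → k ≤ N → x k = y k) →
      ∀ i, |phi α y i - phi α x i| ≤ ε := by
  have h1 : ∀ i, ∃ n1 : ℤ, (⨆ n : ℤ, S α x n i) - ε < S α x n1 i := by
    intro i
    exact exists_lt_of_lt_ciSup (by linarith)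
  have h2 : ∀ i, ∃ n2 : ℤ, S α x n2 i < (⨅ n : ℤ, S α x n i) + ε := by
    intro i
    exact exists_lt_of_ciInf_lt (by linarith)
  choose n1 hn1 using h1
  choose n2 hn2 using h2
  refine ⟨∑ i, ((n1 i).natAbs + (n2 i).natAbs), ?_⟩
  intro y hy hxy i
  have hle : (n1 i).natAbs + (n2 i).natAbs ≤ ∑ i, ((n1 i).natAbs + (n2 i).natAbs) :=
    Finset.single_le_sum (f := fun i => (n1 i).natAbs + (n2 i).natAbs) (fun _ _ => Nat.zero_le _)
      (Finset.mem_univ i)
  have e1 : S α x (n1 i) i = S α y (n1 i) i := S_congr α hxy (by omega) (by omega) i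
  have e2 : S α x (n2 i) i = S α y (n2 i) i := S_congr α hxy (by omega) (by omega) i
  have g1 := le_ciSup (S_bddAbove hC hy i) (n1 i)
  have g2 := ciInf_le (S_bddBelow hC hy i) (n2 i)
  have g3 := osc_le hσ hp hC hx hy i
  have g4 := hn1 i
  have g5 := hn2 i
  unfold phi
  rw [abs_le]
  constructor <;> linarith

end Pool.Agent.Helper40_Pisot
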