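import Pool.Agent.Helper40_Pisot.Words

set_option autoImplicit false

/-!
Discrepancy vectors of words.
-/

namespace Pool.Agent.Helper40_Pisot

open Finset

variable {d : ℕ}

/-- Discrepancy of the letter `i` in the word `w` with respect to the frequency vector `α`. -/
noncomputable def disc (α : Fin d → ℝ) (w : List (Fin d)) (i : Fin d) : ℝ :=
  (w.count i : ℝ) - (w.length : ℝ) * α i

lemma disc_append (α : Fin d → ℝ) (u v : List (Fin d)) (i : Fin d) :
    disc α (u ++ v) i = disc α u i + disc α v i := by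
  unfold disc
  rw [List.count_append, List.length_append]
  push_cast
  ring

@[simp] lemma disc_nil (α : Fin d → ℝ) (i : Fin d) : disc α [] i = 0 := by
  simp [disc]

/-- The matrix `π₀ Mⁿ`. -/
noncomputable def Bmat (M : Matrix (Fin d) (Fin d) ℤ) (α : Fin d → ℝ) (n : ℕ) (i j : Fin d) : ℝ :=
  ((M ^ n) i j : ℝ) - (∑ t, ((M ^ n) t j : ℝ)) * α i

lemma pow_α {M : Matrix (Fin d) (Fin d) ℤ} {r : ℝ} {α l : Fin d → ℝ} (h : PFData M r α l)
    (n : ℕ) (i : Fin d) : ∑ j, ((M ^ n) i j : ℝ) * α j = r ^ n * α i := by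
  induction n generalizing i with
  | zero =>
    rw [Finset.sum_eq_single i]
    · simp
    · intro j _ hj
      rw [pow_zero, Matrix.one_apply_ne hj.symm]
      simp
    · intro h
      exact absurd (Finset.mem_univ i) h
  | succ n ih =>
    simp_rw [pow_succ, Matrix.mul_apply]
    push_cast
    simp_rw [Finset.sum_mul]
    rw [Finset.sum_comm]
    have : ∀ x, ∑ y, ((M ^ n) i x : ℝ) * (M x y : ℝ) * α y = ((M ^ n) i x : ℝ) * (r * α x) := by
      intro x
      rw [← h.α_eig x, Finset.mul_sum]
      exact Finset.sum_congr rfl fun y _ => by ring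
    simp_rw [this]
    have h2 : ∀ x, ((M ^ n) i x : ℝ) * (r * α x) = r * (((M ^ n) i x : ℝ) * α x) := by
      intro x; ring
    simp_rw [h2]
    rw [← Finset.mul_sum, ih]
    ring

lemma pow_l {M : Matrix (Fin d) (Fin d) ℤ} {r : ℝ} {α l : Fin d → ℝ} (h : PFData M r α l)
    (n : ℕ) (j : Fin d) : ∑ i, l i * ((M ^ n) i j : ℝ) = r ^ n * l j := by
  induction n generalizing j with
  | zero =>
    rw [Finset.sum_eq_single j]
    · simp
    · intro j' _ hj
      rw [pow_zero, Matrix.one_apply_ne hj]
      simp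
    · intro h
      exact absurd (Finset.mem_univ j) h
  | succ n ih =>
    simp_rw [pow_succ, Matrix.mul_apply]
    push_cast
    simp_rw [Finset.mul_sum]
    rw [Finset.sum_comm]
    have : ∀ x, ∑ y, l y * (((M ^ n) y x : ℝ) * (M x j : ℝ)) = r ^ n * (l x * (M x j : ℝ)) := by
      intro x
      rw [← mul_assoc, ← ih x, Finset.sum_mul]
      exact Finset.sum_congr rfl fun y _ => by ring
    simp_rw [this]
    rw [← Finset.mul_sum, h.l_eig j]
    ring

lemma disc_it {σ : Fin d → List (Fin d)} {M : Matrix (Fin d) (Fin d) ℤ} {r : ℝ}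
    {α l : Fin d → ℝ} (hM : Inc σ M) (h : PFData M r α l) (n : ℕ) (w : List (Fin d))
    (i : Fin d) : disc α (it σ n w) i = ∑ j, Bmat M α n i j * disc α w j := by
  have hc : ∀ t, ((it σ n w).count t : ℝ) = ∑ j, ((M ^ n) t j : ℝ) * (w.count j : ℝ) := by
    intro t
    have := count_it hM n w t
    have h2 : (((it σ n w).count t : ℤ) : ℝ) =
        ((∑ j, (M ^ n) t j * (w.count j : ℤ) : ℤ) : ℝ) := by rw [this]
    push_cast at h2
    exact h2
  have hlen : ((it σ n w).length : ℝ) = ∑ t, ∑ j, ((M ^ n) t j : ℝ) * (w.count j : ℝ) := by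
    rw [length_eq_sum_count]
    push_cast
    exact Finset.sum_congr rfl fun t _ => hc t
  have hwc : ∀ j, (w.count j : ℝ) = disc α w j + w.length * α j := by
    intro j
    unfold disc
    ring
  unfold disc
  rw [hc, hlen]
  change _ = ∑ j, Bmat M α n i j * disc α w j
  unfold Bmat
  simp_rw [hwc]
  have e1 : ∀ t, ∑ j, ((M ^ n) t j : ℝ) * (disc α w j + w.length * α j) =
      ∑ j, ((M ^ n) t j : ℝ) * disc α w j + w.length * (r ^ n * α t) := by
    intro t
    rw [← pow_α h n t, Finset.mul_sum, ← Finset.sum_add_distrib]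
    exact Finset.sum_congr rfl fun j _ => by ring
  simp_rw [e1]
  rw [Finset.sum_add_distrib, ← Finset.mul_sum, ← Finset.mul_sum, h.α_sum]
  have e2 : ∑ j, (((M ^ n) i j : ℝ) - (∑ t, ((M ^ n) t j : ℝ)) * α i) * disc α w j =
      ∑ j, ((M ^ n) i j : ℝ) * disc α w j - (∑ t, ∑ j, ((M ^ n) t j : ℝ) * disc α w j) * α i := by
    rw [Finset.sum_comm, Finset.sum_mul, ← Finset.sum_sub_distrib]
    refine Finset.sum_congr rfl fun j _ => ?_
    rw [Finset.sum_mul, sub_mul, Finset.sum_mul, Finset.sum_mul]
    congr 1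
    exact Finset.sum_congr rfl fun t _ => by ring
  rw [e2]
  ring

lemma disc_abs_le {α : Fin d → ℝ} (h0 : ∀ i, 0 ≤ α i) (h1 : ∀ i, α i ≤ 1) (w : List (Fin d))
    (i : Fin d) : |disc α w i| ≤ w.length := by
  unfold disc
  have hc : (w.count i : ℝ) ≤ w.length := by exact_mod_cast List.count_le_length
  have hc0 : (0 : ℝ) ≤ w.count i := Nat.cast_nonneg _
  have hl0 : (0 : ℝ) ≤ w.length := Nat.cast_nonneg _
  have ha : 0 ≤ (w.length : ℝ) * α i := mul_nonneg hl0 (h0 i)
  have hb : (w.length : ℝ) * α i ≤ w.length := by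
    have := mul_le_mul_of_nonneg_left (h1 i) hl0
    linarith
  rw [abs_le]
  constructor <;> linarith

lemma PFData.α_le_one {M : Matrix (Fin d) (Fin d) ℤ} {r : ℝ} {α l : Fin d → ℝ}
    (h : PFData M r α l) (i : Fin d) : α i ≤ 1 := by
  rw [← h.α_sum]
  exact Finset.single_le_sum (f := α) (fun j _ => (h.α_pos j).le) (Finset.mem_univ i)

/-- Decomposition of a proper prefix of a concatenation. -/
lemma prefix_flatMap (τ : Fin d → List (Fin d)) (u p : List (Fin d)) (h : p <+: u.flatMap τ)
    (hlt : p.length < (u.flatMap τ).length) :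
    ∃ q b s p', u = q ++ b :: s ∧ p = q.flatMap τ ++ p' ∧ p' <+: τ b ∧
      p'.length < (τ b).length := by
  induction u generalizing p with
  | nil => simp at hlt
  | cons b u ih =>
    rw [List.flatMap_cons] at h hlt
    by_cases hb : p.length < (τ b).length
    · refine ⟨[], b, u, p, rfl, by simp, ?_, hb⟩
      exact List.prefix_of_prefix_length_le h (List.prefix_append _ _) hb.le
    · push Not at hb
      have h1 : τ b <+: p :=
        List.prefix_of_prefix_length_le (List.prefix_append _ _) h hb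
      obtain ⟨p2, hp2⟩ := h1
      have h2 : p2 <+: u.flatMap τ := by
        rw [← hp2] at h
        exact (List.prefix_append_right_inj _).1 h
      have h3 : p2.length < (u.flatMap τ).length := by
        rw [← hp2] at hlt
        rw [List.length_append, List.length_append] at hlt
        omega
      obtain ⟨q, b', s, p', e1, e2, e3, e4⟩ := ih p2 h2 h3
      refine ⟨b :: q, b', s, p', by rw [e1]; rfl, ?_, e3, e4⟩
      rw [← hp2, e2, List.flatMap_cons, List.append_assoc]

/-- Uniform bound for the discrepancy of prefixes of `σⁿ(a)`. -/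
lemma disc_prefix_bound {σ : Fin d → List (Fin d)} {M : Matrix (Fin d) (Fin d) ℤ} {r : ℝ}
    {α l : Fin d → ℝ} (hM : Inc σ M) (h : PFData M r α l) :
    ∃ C : ℝ, 0 ≤ C ∧ ∀ n a p, p <+: it σ n [a] → ∀ i, |disc α p i| ≤ C := by
  obtain ⟨C, ρ, hC, hρ0, hρ1, hdec⟩ := h.decay
  set L : ℝ := ∑ a, ((σ a).length : ℝ) with hL
  have hL0 : 0 ≤ L := Finset.sum_nonneg fun _ _ => Nat.cast_nonneg _
  have hLa : ∀ a, ((σ a).length : ℝ) ≤ L := fun a =>
    Finset.single_le_sum (f := fun a => ((σ a).length : ℝ)) (fun _ _ => Nat.cast_nonneg _)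
      (Finset.mem_univ a)
  have hα0 : ∀ i, 0 ≤ α i := fun i => (h.α_pos i).le
  have hα1 := h.α_le_one
  have hstep : ∀ n (q : List (Fin d)) i, |disc α (it σ n q) i| ≤ q.length * (d * (C * ρ ^ n)) := by
    intro n q i
    rw [disc_it hM h]
    refine le_trans (Finset.abs_sum_le_sum_abs _ _) ?_
    have : ∀ j ∈ (Finset.univ : Finset (Fin d)), |Bmat M α n i j * disc α q j| ≤
        (C * ρ ^ n) * q.length := by
      intro j _
      rw [abs_mul]
      exact mul_le_mul (hdec n i j) (disc_abs_le hα0 hα1 q j) (abs_nonneg _) (by positivity)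
    refine le_trans (Finset.sum_le_sum this) ?_
    rw [Finset.sum_const, Finset.card_univ, Fintype.card_fin, nsmul_eq_mul]
    apply le_of_eq
    ring
  have hmain : ∀ n a p, p <+: it σ n [a] → ∀ i,
      |disc α p i| ≤ L * (d * C) * (∑ j ∈ Finset.range n, ρ ^ j) + 1 := by
    intro n
    induction n with
    | zero =>
      intro a p hp i
      rw [it_zero] at hp
      have h1 := disc_abs_le hα0 hα1 p i
      have h2 : p.length ≤ 1 := by
        have := hp.length_le
        simpa using this
      have h3 : (p.length : ℝ) ≤ 1 := by exact_mod_cast h2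
      simp
      linarith
    | succ n ih =>
      intro a p hp i
      have hmono : L * (d * C) * (∑ j ∈ Finset.range (n + 1), ρ ^ j) + 1 =
          L * (d * (C * ρ ^ n)) + (L * (d * C) * (∑ j ∈ Finset.range n, ρ ^ j) + 1) := by
        rw [Finset.sum_range_succ]
        ring
      rw [hmono]
      have hitn : it σ (n + 1) [a] = (σ a).flatMap (fun b => it σ n [b]) := by
        rw [it_succ, it_flatMap]
        simp
      have hnn : 0 ≤ L * (d * C) * (∑ j ∈ Finset.range n, ρ ^ j) + 1 := by positivity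
      rw [hitn] at hp
      rcases hp.length_le.lt_or_eq with hlt | heq
      · obtain ⟨q, b, s, p', e1, e2, e3, e4⟩ := prefix_flatMap _ _ _ hp hlt
        rw [e2, disc_append, ← it_flatMap]
        refine le_trans (abs_add_le _ _) (add_le_add ?_ (ih b p' e3 i))
        refine le_trans (hstep n q i) ?_
        have hq : (q.length : ℝ) ≤ L := by
          refine le_trans ?_ (hLa a)
          rw [e1, List.length_append]
          push_cast
          have : (0 : ℝ) ≤ ((b :: s).length : ℝ) := Nat.cast_nonneg _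
          linarith
        exact mul_le_mul_of_nonneg_right hq (by positivity)
      · have hpe : p = (σ a).flatMap (fun b => it σ n [b]) := hp.eq_of_length heq
        rw [hpe, ← it_flatMap]
        refine le_trans (hstep n (σ a) i) ?_
        have := mul_le_mul_of_nonneg_right (hLa a) (show (0 : ℝ) ≤ d * (C * ρ ^ n) by positivity)
        linarith
  refine ⟨L * (d * C) * (1 - ρ)⁻¹ + 1, ?_, ?_⟩
  · have : 0 < 1 - ρ := by linarith
    positivity
  · intro n a p hp i
    refine le_trans (hmain n a p hp i) ?_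
    have hgeo : ∑ j ∈ Finset.range n, ρ ^ j ≤ (1 - ρ)⁻¹ := by
      rw [geom_sum_eq hρ1.ne, inv_eq_one_div, ← neg_div_neg_eq, neg_sub, neg_sub]
      have : 0 < 1 - ρ := by linarith
      apply div_le_div_of_nonneg_right _ this.le
      have : 0 < ρ ^ n := by positivity
      linarith
    have := mul_le_mul_of_nonneg_left hgeo (show 0 ≤ L * (d * C) by positivity)
    linarith

/-- Uniform bound for the discrepancy of all words of the language. -/
lemma disc_lang_bound {σ : Fin d → List (Fin d)} {M : Matrix (Fin d) (Fin d) ℤ} {r : ℝ}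
    {α l : Fin d → ℝ} (hM : Inc σ M) (h : PFData M r α l) :
    ∃ C : ℝ, 0 ≤ C ∧ ∀ w, Lang σ w → ∀ i, |disc α w i| ≤ C := by
  obtain ⟨C, hC, hb⟩ := disc_prefix_bound hM h
  refine ⟨2 * C, by positivity, ?_⟩
  intro w hw i
  obtain ⟨n, a, _, s, t, hst⟩ := hw
  have h1 := hb n a (s ++ w) ⟨t, hst⟩ i
  have h2 := hb n a s ⟨w ++ t, by rw [← hst, List.append_assoc]⟩ i
  have h3 : disc α w i = disc α (s ++ w) i - disc α s i := by rw [disc_append]; ring
  rw [h3]
  refine le_trans (abs_sub _ _) ?_
  linarith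

end Pool.Agent.Helper40_Pisot
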