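import Pool.Agent.Helper40_Pisot.Meas

set_option autoImplicit false

/-!
Measure-disjointness of the subtiles under strong coincidence.
-/

namespace Pool.Agent.Helper40_Pisot

open Finset MeasureTheory

/-- Strong coincidence (on prefixes). -/
def StrongCoinc {d : ℕ} (σ : Fin d → List (Fin d)) : Prop :=
  ∀ i j : Fin d, ∃ (k : ℕ) (p q : List (Fin d)) (b : Fin d) (s t : List (Fin d)),
    it σ k [i] = p ++ b :: s ∧ it σ k [j] = q ++ b :: t ∧ ∀ c, p.count c = q.count c

variable {m : ℕ}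

lemma null_inter {σ : Fin (m + 1) → List (Fin (m + 1))}
    {M : Matrix (Fin (m + 1)) (Fin (m + 1)) ℤ} {r : ℝ}
    {α l : Fin (m + 1) → ℝ} (hM : Inc σ M) (hpf : PFData M r α l) (hd : 1 ≤ m)
    (hσ : ∀ a, σ a ≠ []) {C : ℝ} (hC : ∀ w, Lang σ w → ∀ i, |disc α w i| ≤ C)
    {a : Fin (m + 1)} {x0 : ℤ → Fin (m + 1)} (h : Fixed σ a x0) (hsc : StrongCoinc σ)
    {i j : Fin (m + 1)} (hij : i ≠ j) : volume (Rset σ α i ∩ Rset σ α j) = 0 := by
  have hp := prim_of_pf hM hpf
  obtain ⟨k, p, q, b, s, t, e1, e2, e3⟩ := hsc i j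
  have hlen : p.length = q.length := by
    rw [length_eq_sum_count, length_eq_sum_count]
    exact Finset.sum_congr rfl fun c _ => e3 c
  have hdisc : ∀ c, disc α p c = disc α q c := by
    intro c
    unfold disc
    rw [e3, hlen]
  set P : (_ : Fin (m + 1)) × ℕ := ⟨i, p.length⟩ with hP
  set Q : (_ : Fin (m + 1)) × ℕ := ⟨j, q.length⟩ with hQ
  have hPm : P ∈ Idx σ k b := by
    unfold Idx
    rw [Finset.mem_sigma]
    refine ⟨Finset.mem_univ _, ?_⟩
    rw [Finset.mem_filter, Finset.mem_range]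
    simp only [hP]
    rw [e1]
    simp
  have hQm : Q ∈ Idx σ k b := by
    unfold Idx
    rw [Finset.mem_sigma]
    refine ⟨Finset.mem_univ _, ?_⟩
    rw [Finset.mem_filter, Finset.mem_range]
    simp only [hQ]
    rw [e2]
    simp
  have hPQ : P ≠ Q := by
    intro h0
    have := congrArg Sigma.fst h0
    exact hij this
  have hcont : ∀ p, Continuous (piece σ M α (ph α x0) k p) := by
    intro p
    unfold piece
    exact continuous_const.add (LinearMap.continuous_of_finiteDimensional _)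
  have hnull := null_inter_of_sum_le (μ := (volume : Measure (Fin m → ℝ))) (Idx σ k b)
    (fun p => piece σ M α (ph α x0) k p '' Rset σ α p.1)
    (fun p _ => ((isCompact_Rset hσ hp hC p.1).image (hcont p)).isClosed.measurableSet)
    (fun p _ => ((isCompact_Rset hσ hp hC p.1).image (hcont p)).measure_lt_top.ne)
    (sum_pieces_le hM hpf hd hσ hC h k b) hPm hQm hPQ
  have hsame : piece σ M α (ph α x0) k P = piece σ M α (ph α x0) k Q := by
    funext w i'
    unfold piece
    simp only [Pi.add_apply, Pi.sub_apply]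
    congr 2
    simp only [hP, hQ]
    rw [e1, e2, List.take_left, List.take_left]
    exact hdisc _
  have hsub : piece σ M α (ph α x0) k P '' (Rset σ α i ∩ Rset σ α j) ⊆
      (fun p : (_ : Fin (m + 1)) × ℕ => piece σ M α (ph α x0) k p '' Rset σ α p.1) P ∩
      (fun p : (_ : Fin (m + 1)) × ℕ => piece σ M α (ph α x0) k p '' Rset σ α p.1) Q := by
    rintro _ ⟨w, ⟨hw1, hw2⟩, rfl⟩
    refine ⟨⟨w, hw1, rfl⟩, ?_⟩
    rw [hsame]
    exact ⟨w, hw2, rfl⟩
  have h0 := measure_mono_null hsub hnull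
  rw [volume_piece] at h0
  rcases mul_eq_zero.1 h0 with h1 | h1
  · exfalso
    have hdet := det_Bred hpf k
    rw [ENNReal.ofReal_eq_zero] at h1
    have h2 : |(Bred M α k).det| = 0 := le_antisymm h1 (abs_nonneg _)
    rw [h2, zero_mul] at hdet
    exact zero_ne_one hdet
  · exact h1

/-- The translated subtile `R_i + π(e_i)`. -/
def Tset (σ : Fin (m + 1) → List (Fin (m + 1))) (α : Fin (m + 1) → ℝ) (i : Fin (m + 1)) :
    Set (Fin m → ℝ) := (fun w => (fun t : Fin m => fv α i t.castSucc) + w) '' Rset σ α i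

lemma ph_shift {σ : Fin (m + 1) → List (Fin (m + 1))} {α : Fin (m + 1) → ℝ} {C : ℝ}
    (hC : ∀ w, Lang σ w → ∀ i, |disc α w i| ≤ C) {x : ℤ → Fin (m + 1)} (hx : InX σ x) :
    ph α (sh 1 x) = (fun t : Fin m => fv α (x 0) t.castSucc) + ph α x := by
  funext t
  simp only [ph, Pi.add_apply]
  rw [phi_shift hC hx]
  have := S_succ α x 0 t.castSucc
  rw [zero_add, S_zero, zero_add] at this
  rw [this]
  ring

lemma mem_Tset {σ : Fin (m + 1) → List (Fin (m + 1))} {α : Fin (m + 1) → ℝ} {C : ℝ}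
    (hC : ∀ w, Lang σ w → ∀ i, |disc α w i| ≤ C) {x : ℤ → Fin (m + 1)} (hx : InX σ x) :
    ph α x ∈ Tset σ α (x (-1)) := by
  refine ⟨ph α (sh (-1) x), ⟨sh (-1) x, ⟨hx.sh _, by simp [sh]⟩, rfl⟩, ?_⟩
  have := ph_shift hC (hx.sh (-1))
  rw [sh_sh] at this
  simp only [Int.reduceNeg, Int.reduceAdd, sh_zero] at this
  simp only
  rw [this]
  congr 1

lemma null_inter_T {σ : Fin (m + 1) → List (Fin (m + 1))}
    {M : Matrix (Fin (m + 1)) (Fin (m + 1)) ℤ} {r : ℝ}
    {α l : Fin (m + 1) → ℝ} (hM : Inc σ M) (hpf : PFData M r α l) (hd : 1 ≤ m)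
    (hσ : ∀ a, σ a ≠ []) {C : ℝ} (hC : ∀ w, Lang σ w → ∀ i, |disc α w i| ≤ C)
    {a : Fin (m + 1)} {x0 : ℤ → Fin (m + 1)} (h : Fixed σ a x0) (hsc : StrongCoinc σ)
    {i j : Fin (m + 1)} (hij : i ≠ j) : volume (Tset σ α i ∩ Tset σ α j) = 0 := by
  have hp := prim_of_pf hM hpf
  have hR : ∀ i, IsCompact (Rset σ α i) := fun i => isCompact_Rset hσ hp hC i
  have hT : ∀ i, IsCompact (Tset σ α i) := fun i => (hR i).image (by fun_prop)
  have hvol : ∀ i, volume (Tset σ α i) = volume (Rset σ α i) := by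
    intro i
    unfold Tset
    rw [Set.image_add_left, measure_preimage_add]
  refine null_inter_of_sum_le (μ := (volume : Measure (Fin m → ℝ))) Finset.univ
    (fun i => Tset σ α i) (fun i _ => (hT i).isClosed.measurableSet)
    (fun i _ => (hT i).measure_lt_top.ne) ?_ (Finset.mem_univ i) (Finset.mem_univ j) hij
  simp_rw [hvol]
  have h1 : volume (⋃ i ∈ (Finset.univ : Finset (Fin (m + 1))), Rset σ α i) =
      ∑ i, volume (Rset σ α i) := by
    apply measure_biUnion_finset₀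
    · intro i _ j _ hij
      exact null_inter hM hpf hd hσ hC h hsc hij
    · intro i _
      exact (hR i).isClosed.measurableSet.nullMeasurableSet
  rw [← h1]
  apply measure_mono
  intro w hw
  simp only [Set.mem_iUnion] at hw ⊢
  obtain ⟨i, _, ⟨x, ⟨hx, _⟩, rfl⟩⟩ := hw
  exact ⟨x (-1), Finset.mem_univ _, mem_Tset hC hx⟩

end Pool.Agent.Helper40_Pisot
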