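import Pool.Agent.Helper40_Pisot.Rounding

set_option autoImplicit false

/-!
Every large power of the matrix is the incidence matrix of a substitution with the exclusion
property and a common first letter.
-/

namespace Pool.Agent.Helper40_Pisot

open Finset

variable {d : ℕ}

/-- All images begin with the letter `a`. -/
lemma strongCoinc_of_common {σ : Fin d → List (Fin d)} {a : Fin d} (h : ∀ i, [a] <+: σ i) :
    StrongCoinc σ := by
  intro i j
  obtain ⟨s, hs⟩ := h i
  obtain ⟨t, ht⟩ := h j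
  refine ⟨1, [], [], a, s, t, ?_, ?_, fun _ => rfl⟩
  · simp [it, ← hs]
  · simp [it, ← ht]

theorem exist_power {M : Matrix (Fin d) (Fin d) ℤ} {r : ℝ} {α l : Fin d → ℝ}
    (h : PFData M r α l) (hd : 0 < d) : ∃ N0 : ℕ, ∀ N, N0 ≤ N →
      ∃ (σ : Fin d → List (Fin d)) (a : Fin d), Inc σ (M ^ N) ∧ (∀ i, [a] <+: σ i) ∧
        Excl σ α a := by
  have hdR : (1 : ℝ) ≤ d := by exact_mod_cast hd
  set ε : ℝ := 1 / (2 * d) with hε
  have hε0 : 0 < ε := by positivity
  have hdε : d * ε = 1 / 2 := by
    rw [hε]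
    field_simp
  set δ : ℝ := ε / (4 * d * d) with hδ
  have hδ0 : 0 < δ := by positivity
  have h4 : 4 * (d : ℝ) * d ≥ 4 := by nlinarith
  have hδε : δ < ε := by
    rw [hδ, div_lt_iff₀ (by positivity)]
    nlinarith
  have hdδ : 2 * (d : ℝ) * (d * δ) = ε / 2 := by
    rw [hδ]
    field_simp
    ring
  obtain ⟨N0, hN0⟩ := Bmat_small h hδ0
  obtain ⟨K, hK⟩ := h.prim
  refine ⟨max (max N0 K) 1, fun N hN => ?_⟩
  have hN1 : N0 ≤ N := le_trans (le_trans (le_max_left _ _) (le_max_left _ _)) hN
  have hN2 : K ≤ N := le_trans (le_trans (le_max_right _ _) (le_max_left _ _)) hN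
  have hN3 : 1 ≤ N := le_trans (le_max_right _ _) hN
  have hB := hN0 N hN1
  have hpos := hK N hN2
  have hpf := pf_pow h hN3
  set n : Fin d → ℕ := fun i => (∑ t, (M ^ N) t i).toNat with hn
  have hn1 : ∀ i, ((n i : ℕ) : ℤ) = ∑ t, (M ^ N) t i := by
    intro i
    rw [hn]
    exact Int.toNat_of_nonneg (Finset.sum_nonneg fun t _ => (hpos t i).le)
  have hn0 : ∀ i, 1 ≤ n i := by
    intro i
    have h1 : (M ^ N) i i ≤ ∑ t, (M ^ N) t i :=
      Finset.single_le_sum (f := fun t => (M ^ N) t i) (fun t _ => (hpos t i).le)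
        (Finset.mem_univ i)
    have h2 := hpos i i
    have h3 := hn1 i
    omega
  set σ : Fin d → List (Fin d) := fun i => wd α hd (n i) with hσ
  set a : Fin d := vv α hd 0 with ha
  have hInc : Inc σ (M ^ N) := by
    intro j i
    rw [hσ]
    simp only
    rw [count_wd h.α_pos]
    symm
    apply cc_unique h.α_pos h.α_sum (ε := ε) hdε.le (n i) (fun j => (M ^ N) j i)
    intro j
    have h1 := hB j i
    unfold Bmat at h1
    rw [pow_one] at h1
    have h2 : ((n i : ℕ) : ℝ) = ∑ t, ((M ^ N) t i : ℝ) := by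
      have := hn1 i
      have h3 : (((n i : ℕ) : ℤ) : ℝ) = ((∑ t, (M ^ N) t i : ℤ) : ℝ) := by rw [this]
      push_cast at h3
      exact h3
    rw [h2]
    exact lt_of_le_of_lt h1 hδε
  have hhead : ∀ i, [a] <+: σ i := fun i => wd_head α hd (hn0 i)
  refine ⟨σ, a, hInc, hhead, ?_⟩
  refine excl_of_blocks hInc hpf (K := d) (δ := δ) (ε := ε) (by positivity) hδ0.le hB ?_ hε0
    hdδ.le ?_ ?_ (hhead a)
  · nlinarith
  · intro i p hp j
    have := prefix_wd α hd hp
    rw [this]
    exact disc_wd_bound h.α_pos hd h.α_sum _ _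
  · intro i p hp z hz
    have hpe := prefix_wd α hd hp
    set s := p.length with hs
    have hc1 : ∀ j : Fin d, cc α (j : ℕ) s = ((p.count j : ℕ) : ℤ) - z j := by
      intro j
      apply cc_unique h.α_pos h.α_sum (ε := ε) hdε.le s (fun j => ((p.count j : ℕ) : ℤ) - z j)
      intro j
      have := hz j
      unfold disc at this
      rw [← hs] at this
      push_cast
      have e : ((p.count j : ℕ) : ℝ) - z j - s * α j = (p.count j : ℝ) - s * α j - z j := by ring
      rw [e]
      exact this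
    funext j
    have h1 := hc1 j
    have h2 := count_wd h.α_pos hd s j
    rw [← hpe] at h2
    simp only [Pi.zero_apply]
    omega

end Pool.Agent.Helper40_Pisot
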