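import Pool.Agent.Helper40_Pisot.LinAlg2

set_option autoImplicit false

namespace Pool.Agent.Helper40_Pisot

open Matrix Finset

/-- The rotation vector on the torus. -/
noncomputable def gam {m : ℕ} (α : Fin (m + 1) → ℝ) : Fin m → UnitAddCircle :=
  fun i => ((-α i.castSucc : ℝ) : UnitAddCircle)

lemma circle_norm_le (x : ℝ) (z : ℤ) : ‖(x : UnitAddCircle)‖ ≤ |x - z| := by
  rw [UnitAddCircle.norm_eq]
  exact round_le x z

theorem dense_orbit {m : ℕ} {M : Matrix (Fin (m + 1)) (Fin (m + 1)) ℤ} {r : ℝ}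
    {α l : Fin (m + 1) → ℝ} (h : PFData M r α l) (y : Fin m → UnitAddCircle) :
    Dense (Set.range (fun n : ℤ => y + n • gam α)) := by
  rw [Metric.dense_iff]
  intro z ε hε
  obtain ⟨C, ρ, hC, hρ0, hρ1, hdec⟩ := h.decay
  -- choose k
  have h1 : Filter.Tendsto (fun k : ℕ => ((m : ℝ) + 1) * (C * ρ ^ k)) Filter.atTop (nhds 0) := by
    simpa using ((tendsto_pow_atTop_nhds_zero_of_lt_one hρ0.le hρ1).const_mul C).const_mul
      ((m : ℝ) + 1)
  obtain ⟨k, hk⟩ := (h1.eventually (gt_mem_nhds hε)).exists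
  -- lift
  have hlift : ∀ i, ∃ w : ℝ, (w : UnitAddCircle) = z i - y i := fun i =>
    QuotientAddGroup.mk_surjective (z i - y i)
  choose w hw using hlift
  set t : Fin (m + 1) → ℝ := Fin.snoc w (-∑ i, w i) with ht
  have htsum : ∑ i, t i = 0 := by
    rw [Fin.sum_univ_castSucc, ht]
    simp [Fin.snoc_castSucc, Fin.snoc_last]
  have hdet : IsUnit (toR (M ^ k)).det := by
    have : (toR (M ^ k)).det = ((M ^ k).det : ℝ) := by
      unfold toR
      rw [← RingHom.mapMatrix_apply, ← RingHom.map_det]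
      rfl
    rw [this, Matrix.det_pow, isUnit_iff_ne_zero]
    intro h0
    have h9 : M.det ^ k = 0 := by exact_mod_cast h0
    have h10 : M.det = 0 := by
      by_contra hne
      exact pow_ne_zero k hne h9
    have := h.det
    rw [h10] at this
    simp at this
  set c : Fin (m + 1) → ℝ := (toR (M ^ k))⁻¹ *ᵥ t with hc
  have hct : toR (M ^ k) *ᵥ c = t := by
    rw [hc, Matrix.mulVec_mulVec, Matrix.mul_nonsing_inv _ hdet, Matrix.one_mulVec]
  have hcti : ∀ i, ∑ j, ((M ^ k) i j : ℝ) * c j = t i := by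
    intro i
    rw [← hct]
    rfl
  set s : Fin (m + 1) → ℤ := fun j => ∑ a, (M ^ k) a j with hs
  have hss : ∀ j, (s j : ℝ) = ∑ a, ((M ^ k) a j : ℝ) := by
    intro j
    rw [hs]
    push_cast
    rfl
  have hcs : ∑ j, (s j : ℝ) * c j = 0 := by
    rw [← htsum]
    have : ∀ j, (s j : ℝ) * c j = ∑ a, ((M ^ k) a j : ℝ) * c j := by
      intro j
      rw [hss, Finset.sum_mul]
    simp_rw [this]
    rw [Finset.sum_comm]
    exact Finset.sum_congr rfl fun i _ => hcti i
  set N : ℤ := ∑ j, ⌊c j⌋ * s j with hN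
  refine ⟨y + N • gam α, ?_, ⟨N, rfl⟩⟩
  rw [Metric.mem_ball, dist_pi_lt_iff hε]
  intro i
  rw [dist_comm, dist_eq_norm]
  have e1 : z i - (y + N • gam α) i = ((w i + N * α i.castSucc : ℝ) : UnitAddCircle) := by
    have : (y + N • gam α) i = y i + N • ((-α i.castSucc : ℝ) : UnitAddCircle) := rfl
    rw [this, ← sub_sub, ← hw i]
    have h3 : N • ((-α i.castSucc : ℝ) : UnitAddCircle) =
        ((N * (-α i.castSucc) : ℝ) : UnitAddCircle) := by
      rw [← AddCircle.coe_zsmul, zsmul_eq_mul]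
    rw [h3, ← AddCircle.coe_sub]
    congr 1
    ring
  rw [e1]
  refine lt_of_le_of_lt (circle_norm_le _ (∑ j, ⌊c j⌋ * (M ^ k) i.castSucc j)) ?_
  have e2 : w i + N * α i.castSucc - ((∑ j, ⌊c j⌋ * (M ^ k) i.castSucc j : ℤ) : ℝ) =
      ∑ j, Int.fract (c j) * (((M ^ k) i.castSucc j : ℝ) - (s j : ℝ) * α i.castSucc) := by
    have e3 : w i = t i.castSucc := by rw [ht, Fin.snoc_castSucc]
    rw [e3, ← hcti, hN]
    push_cast
    have e4 : ∀ j, Int.fract (c j) * (((M ^ k) i.castSucc j : ℝ) - (s j : ℝ) * α i.castSucc) =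
        ((M ^ k) i.castSucc j : ℝ) * c j - ((s j : ℝ) * c j) * α i.castSucc
          + ((⌊c j⌋ : ℝ) * (s j : ℝ)) * α i.castSucc - (⌊c j⌋ : ℝ) * ((M ^ k) i.castSucc j : ℝ) := by
      intro j
      rw [Int.fract]
      ring
    simp_rw [e4]
    rw [Finset.sum_sub_distrib, Finset.sum_add_distrib, Finset.sum_sub_distrib,
      ← Finset.sum_mul, ← Finset.sum_mul, hcs]
    ring
  rw [e2]
  refine lt_of_le_of_lt (Finset.abs_sum_le_sum_abs _ _) ?_
  refine lt_of_le_of_lt (Finset.sum_le_sum (g := fun _ => C * ρ ^ k) fun j _ => ?_) ?_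
  · rw [abs_mul, hss, abs_of_nonneg (Int.fract_nonneg _)]
    calc Int.fract (c j) * |((M ^ k) i.castSucc j : ℝ) -
          (∑ a, ((M ^ k) a j : ℝ)) * α i.castSucc| ≤ 1 * (C * ρ ^ k) :=
          mul_le_mul (Int.fract_lt_one _).le (hdec k i.castSucc j) (abs_nonneg _) zero_le_one
      _ = C * ρ ^ k := one_mul _
  · rw [Finset.sum_const, Finset.card_univ, Fintype.card_fin, nsmul_eq_mul]
    push_cast
    exact hk

end Pool.Agent.Helper40_Pisot
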