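import Pool.Agent.Helper40_Pisot.Disj
import Pool.Agent.Helper40_Pisot.Torus

set_option autoImplicit false

/-!
The factor map onto the torus.
-/

namespace Pool.Agent.Helper40_Pisot

open Finset MeasureTheory

variable {m : ℕ}

/-- The projection to the torus. -/
def qT (w : Fin m → ℝ) : Fin m → UnitAddCircle := fun i => (w i : UnitAddCircle)

lemma continuous_qT : Continuous (qT : (Fin m → ℝ) → Fin m → UnitAddCircle) :=
  continuous_pi fun i => (AddCircle.continuous_mk' 1).comp (continuous_apply i)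

lemma measurePreserving_qT : MeasurePreserving (qT : (Fin m → ℝ) → Fin m → UnitAddCircle)
    (Measure.pi fun _ : Fin m => (volume : Measure ℝ).restrict (Set.Ioc 0 (0 + 1))) volume :=
  measurePreserving_pi _ _ (fun _ => UnitAddCircle.measurePreserving_mk 0)

lemma coe_eq_coe_iff (a b : ℝ) : (a : UnitAddCircle) = (b : UnitAddCircle) ↔ ∃ k : ℤ, a - b = k := by
  rw [← sub_eq_zero, ← AddCircle.coe_sub, AddCircle.coe_eq_zero_iff]
  constructor
  · rintro ⟨n, hn⟩
    exact ⟨n, by rw [← hn]; simp⟩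
  · rintro ⟨n, hn⟩
    exact ⟨n, by rw [hn]; simp⟩

lemma null_image {Z : Set (Fin m → ℝ)} (hZ : IsCompact Z) (h0 : volume Z = 0) :
    volume (qT '' Z) = 0 := by
  have hmeas : MeasurableSet (qT '' Z) := (hZ.image continuous_qT).isClosed.measurableSet
  rw [← measurePreserving_qT.measure_preimage hmeas.nullMeasurableSet]
  have hle : (Measure.pi fun _ : Fin m => (volume : Measure ℝ).restrict (Set.Ioc 0 (0 + 1))) ≤
      (volume : Measure (Fin m → ℝ)) := by
    rw [← Measure.restrict_pi_pi]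
    exact Measure.restrict_le_self
  refine le_antisymm (le_trans (hle _) ?_) bot_le
  have hsub : qT ⁻¹' (qT '' Z) ⊆ ⋃ b : Fin m → ℤ, (fun w => (fun i => (b i : ℝ)) + w) '' Z := by
    rintro w ⟨v, hv, hvw⟩
    have h1 : ∀ i, ∃ k : ℤ, w i - v i = k := fun i =>
      (coe_eq_coe_iff _ _).1 (congrFun hvw i).symm
    choose b hb using h1
    rw [Set.mem_iUnion]
    refine ⟨b, v, hv, ?_⟩
    funext i
    simp only [Pi.add_apply]
    rw [← hb i]
    ring
  refine le_trans (measure_mono hsub) ?_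
  rw [nonpos_iff_eq_zero, measure_iUnion_null_iff]
  intro b
  rw [Set.image_add_left, measure_preimage_add]
  exact h0

/-- The torus-valued map. -/
noncomputable def piT (α : Fin (m + 1) → ℝ) (x : ℤ → Fin (m + 1)) : Fin m → UnitAddCircle :=
  qT (ph α x)

lemma S_circle (α : Fin (m + 1) → ℝ) (x : ℤ → Fin (m + 1)) (n : ℤ) (i : Fin m) :
    ((S α x n i.castSucc : ℝ) : UnitAddCircle) = n • gam α i := by
  have hfv : ∀ b, ((fv α b i.castSucc : ℝ) : UnitAddCircle) = gam α i := by
    intro b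
    unfold fv gam
    rw [coe_eq_coe_iff]
    by_cases h : b = i.castSucc
    · exact ⟨1, by simp [h]⟩
    · exact ⟨0, by simp [h]⟩
  induction n using Int.induction_on with
  | zero => simp
  | succ n ih => rw [S_succ, AddCircle.coe_add, ih, hfv, add_zsmul, one_zsmul]
  | pred n ih =>
    have h1 := S_succ α x (-(n : ℤ) - 1) i.castSucc
    have e1 : -(n : ℤ) - 1 + 1 = -(n : ℤ) := by ring
    rw [e1] at h1
    have h2 : S α x (-(n : ℤ) - 1) i.castSucc =
        S α x (-(n : ℤ)) i.castSucc - fv α (x (-(n : ℤ) - 1)) i.castSucc := by linarith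
    rw [h2, AddCircle.coe_sub, ih, hfv, sub_zsmul, one_zsmul, sub_eq_add_neg]

lemma piT_sh {σ : Fin (m + 1) → List (Fin (m + 1))} {α : Fin (m + 1) → ℝ} {C : ℝ}
    (hC : ∀ w, Lang σ w → ∀ i, |disc α w i| ≤ C) {x : ℤ → Fin (m + 1)} (hx : InX σ x) (n : ℤ) :
    piT α (sh n x) = piT α x + n • gam α := by
  funext i
  have h1 : piT α (sh n x) i = ((phi α (sh n x) i.castSucc : ℝ) : UnitAddCircle) := rfl
  have h2 : (piT α x + n • gam α) i =
      ((phi α x i.castSucc : ℝ) : UnitAddCircle) + n • gam α i := rfl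
  rw [h1, h2, phi_shift hC hx, AddCircle.coe_add, S_circle]

/-- The prefix discrepancies of the fixed point stay away from nonzero integer vectors. -/
def Excl {d : ℕ} (σ : Fin d → List (Fin d)) (α : Fin d → ℝ) (a : Fin d) : Prop :=
  ∃ ε : ℝ, 0 < ε ∧ ∀ (n : ℕ) (p : List (Fin d)), p <+: it σ n [a] → ∀ z : Fin d → ℤ,
    (∀ i, |disc α p i - z i| < ε) → z = 0

lemma excl_X {σ : Fin (m + 1) → List (Fin (m + 1))} (hd : 1 ≤ m)
    {α : Fin (m + 1) → ℝ} (hσ : ∀ a, σ a ≠ []) (hp : Prim σ)
    {C : ℝ} (hC : ∀ w, Lang σ w → ∀ i, |disc α w i| ≤ C)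
    {a : Fin (m + 1)} {x0 : ℤ → Fin (m + 1)} (h : Fixed σ a x0) {ε : ℝ} (hε : 0 < ε)
    (hex : ∀ (n : ℕ) (p : List (Fin (m + 1))), p <+: it σ n [a] → ∀ z : Fin (m + 1) → ℤ,
      (∀ i, |disc α p i - z i| < ε) → z = 0)
    {x : ℤ → Fin (m + 1)} (hx : InX σ x) (z : Fin (m + 1) → ℤ)
    (hz : ∀ i, |phi α x i - phi α x0 i - z i| < ε / 2) : z = 0 := by
  obtain ⟨N, _, hN⟩ := approx hσ hp hC h.inX hx (half_pos hε)
  obtain ⟨n, hn⟩ := length_large (show 2 ≤ m + 1 by omega) hσ hp N
  apply hex n (win x0 0 N) (h.prefix_it (hn n le_rfl a)) z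
  intro i
  have h1 : disc α (win x0 0 N) i = phi α (sh N x0) i - phi α x0 i := by
    rw [phi_shift hC h.inX, S_nat]
    ring
  have h2 := abs_le.1 (hN i)
  have h3 := abs_lt.1 (hz i)
  rw [h1, abs_lt]
  constructor <;> linarith [h2.1, h2.2, h3.1, h3.2]

/-- Near the base point the fibres of the torus map have a single value of the transfer function. -/
lemma ph_eq_near {σ : Fin (m + 1) → List (Fin (m + 1))} (hd : 1 ≤ m)
    {α : Fin (m + 1) → ℝ} (hα : ∑ i, α i = 1) (hσ : ∀ a, σ a ≠ []) (hp : Prim σ)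
    {C : ℝ} (hC : ∀ w, Lang σ w → ∀ i, |disc α w i| ≤ C)
    {a : Fin (m + 1)} {x0 : ℤ → Fin (m + 1)} (h : Fixed σ a x0) {ε : ℝ} (hε : 0 < ε)
    (hex : ∀ (n : ℕ) (p : List (Fin (m + 1))), p <+: it σ n [a] → ∀ z : Fin (m + 1) → ℤ,
      (∀ i, |disc α p i - z i| < ε) → z = 0) {η : ℝ} (hη1 : η ≤ 1 / 2)
    (hη2 : (m + 1) * η ≤ ε / 2)
    {x x' : ℤ → Fin (m + 1)} (hx : InX σ x) (hx' : InX σ x') (heq : piT α x = piT α x')
    (hnear : dist (piT α x) (piT α x0) < η) : ph α x = ph α x' := by
  have hη0 : 0 < η := lt_of_le_of_lt dist_nonneg hnear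
  -- both points are near `x0`
  have key : ∀ y, InX σ y → dist (piT α y) (piT α x0) < η → ∀ i : Fin m,
      |phi α y i.castSucc - phi α x0 i.castSucc| < η := by
    intro y hy hyn
    rw [dist_pi_lt_iff hη0] at hyn
    set u : Fin m → ℝ := fun i => phi α y i.castSucc - phi α x0 i.castSucc with hu
    have hn : ∀ i, |u i - round (u i)| < η := by
      intro i
      have h1 := hyn i
      rw [dist_eq_norm] at h1
      have h2 : piT α y i - piT α x0 i = ((u i : ℝ) : UnitAddCircle) := by
        rw [hu, AddCircle.coe_sub]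
        rfl
      rw [h2, UnitAddCircle.norm_eq] at h1
      exact h1
    set z : Fin (m + 1) → ℤ := Fin.snoc (fun i => round (u i)) (-∑ i, round (u i)) with hz
    have hsum := sum_phi hσ hp hα hC h.inX hy
    have hz0 : z = 0 := by
      apply excl_X hd hσ hp hC h hε hex hy z
      intro i
      refine Fin.lastCases ?_ (fun i => ?_) i
      · rw [Fin.sum_univ_castSucc] at hsum
        have h1 : phi α y (Fin.last m) - phi α x0 (Fin.last m) = - ∑ i, u i := by
          simp only [hu]
          linarith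
        rw [h1, hz, Fin.snoc_last]
        push_cast
        have h2 : -∑ i, u i - -∑ i, (round (u i) : ℝ) = - ∑ i, (u i - round (u i)) := by
          clear_value u
          rw [Finset.sum_sub_distrib]
          ring
        rw [h2, abs_neg]
        refine lt_of_le_of_lt (Finset.abs_sum_le_sum_abs _ _) ?_
        refine lt_of_le_of_lt (Finset.sum_le_sum fun i _ => (hn i).le) ?_
        rw [Finset.sum_const, Finset.card_univ, Fintype.card_fin, nsmul_eq_mul]
        nlinarith
      · rw [hz, Fin.snoc_castSucc]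
        refine lt_of_lt_of_le (hn i) ?_
        have : (0 : ℝ) ≤ m := Nat.cast_nonneg _
        nlinarith
    intro i
    have h3 := congrFun hz0 i.castSucc
    rw [hz, Fin.snoc_castSucc, Pi.zero_apply] at h3
    have h4 := hn i
    rw [h3] at h4
    simpa using h4
  funext i
  have h1 := key x hx hnear i
  have h2 := key x' hx' (by rw [← heq]; exact hnear) i
  obtain ⟨k, hk⟩ := (coe_eq_coe_iff _ _).1 (congrFun heq i)
  have h3 : |(k : ℝ)| < 1 := by
    rw [← hk]
    have e : ph α x i - ph α x' i = (phi α x i.castSucc - phi α x0 i.castSucc) -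
        (phi α x' i.castSucc - phi α x0 i.castSucc) := by
      simp only [ph]
      ring
    rw [e]
    refine lt_of_le_of_lt (abs_sub _ _) ?_
    linarith
  have h4 : |k| < 1 := by exact_mod_cast h3
  rw [Int.abs_lt_one_iff] at h4
  rw [h4] at hk
  simp at hk
  linarith

/-- The core theorem. -/
theorem core {σ : Fin (m + 1) → List (Fin (m + 1))}
    {M : Matrix (Fin (m + 1)) (Fin (m + 1)) ℤ} {r : ℝ}
    {α l : Fin (m + 1) → ℝ} (hM : Inc σ M) (hpf : PFData M r α l) (hd : 1 ≤ m)
    (hσ : ∀ a, σ a ≠ []) (hsc : StrongCoinc σ) {a : Fin (m + 1)} (ha : FixLetter σ a)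
    (hex : Excl σ α a) (X : Set (ℤ → Fin (m + 1))) (hX : ∀ x, x ∈ X ↔ InX σ x) :
    ∃ (m' : ℕ) (γ : Fin m' → UnitAddCircle),
      (∀ y : Fin m' → UnitAddCircle, Dense (Set.range (fun n : ℤ => y + n • γ))) ∧
      ∃ π : (ℤ → Fin (m + 1)) → (Fin m' → UnitAddCircle),
        ContinuousOn π X ∧ π '' X = Set.univ ∧
        (∀ x ∈ X, π (fun n => x (n + 1)) = π x + γ) ∧
        ∃ N : Set (Fin m' → UnitAddCircle), MeasureTheory.volume N = 0 ∧
          ∀ y ∉ N, ∃! x, x ∈ X ∧ π x = y := by
  have hp := prim_of_pf hM hpf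
  obtain ⟨C, hC0, hC⟩ := disc_lang_bound hM hpf
  obtain ⟨x0, hx0, hfix⟩ := exists_fixed (show 2 ≤ m + 1 by omega) hσ hp ha
  have hF : Fixed σ a x0 := ⟨hx0, hfix⟩
  obtain ⟨ε, hε, hex⟩ := hex
  have hXeq : X = {x | InX σ x} := by
    ext x
    exact hX x
  subst hXeq
  have hcont : ContinuousOn (piT α) {x : ℤ → Fin (m + 1) | InX σ x} := by
    have h3 := continuousOn_phi hσ hp hC
    have h4 : ContinuousOn (ph α) {x : ℤ → Fin (m + 1) | InX σ x} := by
      rw [continuousOn_pi] at h3 ⊢
      intro j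
      exact h3 j.castSucc
    exact continuous_qT.comp_continuousOn h4
  have hdense := fun y => dense_orbit hpf y
  have hsurj : piT α '' {x : ℤ → Fin (m + 1) | InX σ x} = Set.univ := by
    have hcl : IsClosed (piT α '' {x : ℤ → Fin (m + 1) | InX σ x}) :=
      ((isCompact_X σ).image_of_continuousOn hcont).isClosed
    have hd2 : Dense (piT α '' {x : ℤ → Fin (m + 1) | InX σ x}) := by
      refine (hdense (piT α x0)).mono ?_
      rintro _ ⟨n, rfl⟩
      exact ⟨sh n x0, hx0.sh n, piT_sh hC hx0 n⟩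
    rw [← hcl.closure_eq]
    exact hd2.closure_eq
  refine ⟨m, gam α, hdense, piT α, hcont, hsurj, ?_, ?_⟩
  · intro x hx
    have := piT_sh hC hx 1
    rw [one_zsmul] at this
    exact this
  -- the exceptional set
  set Zall : Set (Fin m → ℝ) := ⋃ p : Fin (m + 1) × Fin (m + 1), ⋃ _ : p.1 ≠ p.2,
    ((Rset σ α p.1 ∩ Rset σ α p.2) ∪ (Tset σ α p.1 ∩ Tset σ α p.2)) with hZall
  have hR : ∀ i, IsCompact (Rset σ α i) := fun i => isCompact_Rset hσ hp hC i
  have hT : ∀ i, IsCompact (Tset σ α i) := fun i => (hR i).image (by fun_prop)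
  have hZc : IsCompact Zall := by
    apply isCompact_iUnion
    intro p
    by_cases hpq : p.1 ≠ p.2
    · simp only [hpq, ne_eq, not_false_eq_true, Set.iUnion_true]
      exact ((hR _).inter (hR _)).union ((hT _).inter (hT _))
    · simp only [ne_eq, not_not] at hpq
      simp [hpq]
  have hZ0 : volume Zall = 0 := by
    rw [hZall, measure_iUnion_null_iff]
    intro p
    rw [measure_iUnion_null_iff]
    intro hpq
    rw [measure_union_null_iff]
    exact ⟨null_inter hM hpf hd hσ hC hF hsc hpq, null_inter_T hM hpf hd hσ hC hF hsc hpq⟩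
  have hq0 : volume (qT '' Zall) = 0 := null_image hZc hZ0
  refine ⟨⋃ n : ℤ, (fun y => n • gam α + y) ⁻¹' (qT '' Zall), ?_, ?_⟩
  · rw [measure_iUnion_null_iff]
    intro n
    rw [measure_preimage_add]
    exact hq0
  intro y hy
  have hyN : ∀ n : ℤ, y + n • gam α ∉ qT '' Zall := by
    intro n hn
    apply hy
    rw [Set.mem_iUnion]
    refine ⟨n, ?_⟩
    rw [Set.mem_preimage, add_comm]
    exact hn
  obtain ⟨x, hx, hxy⟩ : y ∈ piT α '' {x : ℤ → Fin (m + 1) | InX σ x} := by
    rw [hsurj]; trivial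
  refine ⟨x, ⟨hx, hxy⟩, ?_⟩
  rintro x' ⟨hx', hxy'⟩
  have hx1 : InX σ x := hx
  have hx1' : InX σ x' := hx'
  by_contra hne
  -- choose the time when the orbit is near the base point
  set η : ℝ := min (1 / 2) (ε / 2 / (m + 1)) with hη
  have hη0 : 0 < η := by positivity
  have hη1 : η ≤ 1 / 2 := min_le_left _ _
  have hη2 : (m + 1) * η ≤ ε / 2 := by
    have : η ≤ ε / 2 / (m + 1) := min_le_right _ _
    rw [le_div_iff₀ (by positivity)] at this
    linarith
  obtain ⟨_, hn, ⟨n, rfl⟩⟩ := Metric.dense_iff.1 (hdense y) (piT α x0) η hη0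
  have hz1 : piT α (sh n x) = y + n • gam α := by rw [piT_sh hC hx1, hxy]
  have hz2 : piT α (sh n x') = y + n • gam α := by rw [piT_sh hC hx1', hxy']
  have hph : ph α (sh n x) = ph α (sh n x') := by
    apply ph_eq_near hd hpf.α_sum hσ hp hC hF hε hex hη1 hη2 (hx1.sh n) (hx1'.sh n)
    · rw [hz1, hz2]
    · rw [hz1]
      exact hn
  set z := sh n x with hz
  set z' := sh n x' with hz'
  have hzX : InX σ z := hx1.sh n
  have hzX' : InX σ z' := hx1'.sh n
  -- transporting equality of `ph`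
  have htrans : ∀ s : ℤ, (∀ i, S α z s i = S α z' s i) → ph α (sh s z) = ph α (sh s z') := by
    intro s hs
    funext i
    have h1 : ph α (sh s z) i = phi α (sh s z) i.castSucc := rfl
    have h2 : ph α (sh s z') i = phi α (sh s z') i.castSucc := rfl
    rw [h1, h2, phi_shift hC hzX, phi_shift hC hzX', hs]
    have h3 := congrFun hph i
    have h4 : phi α z i.castSucc = phi α z' i.castSucc := h3
    rw [h4]
  have hbad : ∀ s : ℤ, ph α (sh s z) ∉ Zall := by
    intro s hs
    apply hyN (n + s)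
    have h1 : y + (n + s) • gam α = piT α (sh s z) := by
      rw [piT_sh hC hzX, hz1, add_zsmul, add_assoc]
    rw [h1]
    exact ⟨_, hs, rfl⟩
  by_cases hpos : ∃ s : ℕ, z s ≠ z' s
  · have hs := Nat.find_spec hpos
    set s := Nat.find hpos with hsdef
    have hlt : ∀ t : ℕ, t < s → z t = z' t := by
      intro t ht
      by_contra h0
      exact Nat.find_min hpos ht h0
    have hS : ∀ i, S α z s i = S α z' s i := by
      intro i
      unfold S
      congr 1
      · refine Finset.sum_congr rfl fun k hk => ?_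
        rw [Finset.mem_Ico] at hk
        obtain ⟨t, rfl⟩ := Int.eq_ofNat_of_zero_le hk.1
        rw [hlt t (by omega)]
      · rw [Finset.Ico_eq_empty (by omega)]
        simp
    have he := htrans s hS
    apply hbad s
    rw [hZall]
    simp only [Set.mem_iUnion]
    refine ⟨(z s, z' s), hs, Or.inl ⟨?_, ?_⟩⟩
    · exact ⟨sh s z, ⟨hzX.sh _, by simp [sh]⟩, rfl⟩
    · rw [he]
      exact ⟨sh s z', ⟨hzX'.sh _, by simp [sh]⟩, rfl⟩
  · push Not at hpos
    have hneg : ∃ s : ℕ, z (-(s : ℤ)) ≠ z' (-(s : ℤ)) := by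
      by_contra h0
      push Not at h0
      apply hne
      have hzz : z = z' := by
        funext t
        obtain ⟨s, rfl | rfl⟩ := t.eq_nat_or_neg
        · exact hpos s
        · exact h0 s
      have h1 : sh (-n) z = sh (-n) z' := by rw [hzz]
      rw [hz, hz', sh_sh, sh_sh] at h1
      simpa using h1.symm
    have hs := Nat.find_spec hneg
    set s := Nat.find hneg with hsdef
    have hlt : ∀ t : ℕ, t < s → z (-(t : ℤ)) = z' (-(t : ℤ)) := by
      intro t ht
      by_contra h0
      exact Nat.find_min hneg ht h0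
    have hs0 : s ≠ 0 := by
      intro h0
      rw [h0] at hs
      exact hs (hpos 0)
    have hS : ∀ i, S α z (-(s : ℤ) + 1) i = S α z' (-(s : ℤ) + 1) i := by
      intro i
      unfold S
      congr 1
      · rw [Finset.Ico_eq_empty (by omega)]
        simp
      · refine Finset.sum_congr rfl fun k hk => ?_
        rw [Finset.mem_Ico] at hk
        have h1 := hlt (-k).toNat (by omega)
        have h2 : -(((-k).toNat : ℕ) : ℤ) = k := by omega
        rw [h2] at h1
        rw [h1]
    have he := htrans _ hS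
    apply hbad (-(s : ℤ) + 1)
    rw [hZall]
    simp only [Set.mem_iUnion]
    refine ⟨(z (-(s : ℤ)), z' (-(s : ℤ))), hs, Or.inr ⟨?_, ?_⟩⟩
    · have := mem_Tset hC (hzX.sh (-(s : ℤ) + 1))
      have e : sh (-(s : ℤ) + 1) z (-1) = z (-(s : ℤ)) := by
        simp only [sh]
        congr 1
        ring
      rw [e] at this
      exact this
    · rw [he]
      have := mem_Tset hC (hzX'.sh (-(s : ℤ) + 1))
      have e : sh (-(s : ℤ) + 1) z' (-1) = z' (-(s : ℤ)) := by
        simp only [sh]
        congr 1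
        ring
      rw [e] at this
      exact this

end Pool.Agent.Helper40_Pisot
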