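import Mathlib

set_option autoImplicit false

/-!
Linear algebra of a nonnegative integer matrix whose characteristic polynomial is irreducible over
`ℚ`, of Pisot type.
-/

namespace Pool.Agent.Helper40_Pisot

open Matrix Polynomial Finset

variable {n : Type*} [Fintype n] [DecidableEq n]

/-- The hypotheses on the incidence matrix. -/
structure PisotMat (M : Matrix n n ℤ) (r : ℝ) : Prop where
  one_lt : 1 < r
  root : Polynomial.aeval (r : ℂ) M.charpoly = 0
  others : ∀ μ : ℂ, Polynomial.aeval μ M.charpoly = 0 → μ ≠ (r : ℂ) → 0 < ‖μ‖ ∧ ‖μ‖ < 1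
  irr : Irreducible (M.charpoly.map (Int.castRingHom ℚ))
  det : M.det = 1 ∨ M.det = -1

/-- The complexification. -/
noncomputable def toC (M : Matrix n n ℤ) : Matrix n n ℂ := M.map (Int.castRingHom ℂ)

/-- The real version. -/
noncomputable def toR (M : Matrix n n ℤ) : Matrix n n ℝ := M.map (Int.castRingHom ℝ)

lemma toC_charpoly (M : Matrix n n ℤ) : (toC M).charpoly = M.charpoly.map (Int.castRingHom ℂ) := by
  unfold toC
  rw [Matrix.charpoly_map]

lemma charpoly_nodal (M : Matrix n n ℤ) (irr : Irreducible (M.charpoly.map (Int.castRingHom ℚ))) :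
    (toC M).charpoly = Lagrange.nodal (toC M).charpoly.roots.toFinset id := by
  have hsep : (M.charpoly.map (Int.castRingHom ℚ)).Separable := irr.separable
  have hsep2 : (toC M).charpoly.Separable := by
    have : (toC M).charpoly = (M.charpoly.map (Int.castRingHom ℚ)).map (algebraMap ℚ ℂ) := by
      rw [toC_charpoly, Polynomial.map_map]
      congr 1
    rw [this]
    exact hsep.map
  have hnod := Polynomial.nodup_roots hsep2
  have hsp : (toC M).charpoly.Splits := IsAlgClosed.splits _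
  have h1 := hsp.eq_prod_roots_of_monic (Matrix.charpoly_monic _)
  rw [Lagrange.nodal_eq]
  conv_lhs => rw [h1]
  rw [Finset.prod, Multiset.toFinset_val, hnod.dedup]
  rfl

/-- Spectral projections. -/
lemma spectral (M : Matrix n n ℤ) [Nonempty n]
    (irr : Irreducible (M.charpoly.map (Int.castRingHom ℚ))) :
    ∃ (s : Finset ℂ) (G : ℂ → Matrix n n ℂ),
      (∀ μ, μ ∈ s ↔ Polynomial.aeval μ M.charpoly = 0) ∧
      (∀ μ ∈ s, toC M * G μ = μ • G μ) ∧ (∀ μ ∈ s, G μ * toC M = μ • G μ) ∧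
      ∑ μ ∈ s, G μ = 1 := by
  set p := (toC M).charpoly with hp
  have hnod : p = Lagrange.nodal p.roots.toFinset id := charpoly_nodal M irr
  have hp0 : p ≠ 0 := (Matrix.charpoly_monic _).ne_zero
  have hmem : ∀ μ, μ ∈ p.roots.toFinset ↔ Polynomial.aeval μ M.charpoly = 0 := by
    intro μ
    rw [Multiset.mem_toFinset, Polynomial.mem_roots hp0, Polynomial.IsRoot.def, hp, toC_charpoly,
      Polynomial.eval_map, Polynomial.aeval_def]
    rfl
  have hkey : ∀ μ ∈ p.roots.toFinset,
      aeval (toC M) ((X - C μ) * Lagrange.basis p.roots.toFinset id μ) = 0 := by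
    intro μ hμ
    rw [Lagrange.basis_eq_prod_sub_inv_mul_nodal_div hμ]
    have hd : (X - C (id μ)) ∣ Lagrange.nodal p.roots.toFinset id :=
      Lagrange.X_sub_C_dvd_nodal id hμ
    have : (X - C μ) * (C (Lagrange.nodalWeight p.roots.toFinset id μ) *
        (Lagrange.nodal p.roots.toFinset id / (X - C (id μ)))) =
        C (Lagrange.nodalWeight p.roots.toFinset id μ) * p := by
      have h2 : (X - C μ) * (Lagrange.nodal p.roots.toFinset id / (X - C (id μ))) =
          Lagrange.nodal p.roots.toFinset id := by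
        exact EuclideanDomain.mul_div_cancel' (Polynomial.X_sub_C_ne_zero μ) hd
      rw [mul_left_comm, h2, ← hnod]
    rw [this, map_mul, hp, Matrix.aeval_self_charpoly, mul_zero]
  refine ⟨p.roots.toFinset, fun μ => aeval (toC M) (Lagrange.basis p.roots.toFinset id μ), hmem,
    ?_, ?_, ?_⟩
  · intro μ hμ
    have := hkey μ hμ
    rw [map_mul, map_sub, aeval_X, aeval_C, sub_mul, sub_eq_zero] at this
    rw [this, Algebra.algebraMap_eq_smul_one, smul_mul_assoc, one_mul]
  · intro μ hμ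
    have := hkey μ hμ
    rw [mul_comm, map_mul, map_sub, aeval_X, aeval_C, mul_sub, sub_eq_zero] at this
    rw [this, Algebra.algebraMap_eq_smul_one, mul_smul_comm, mul_one]
  · rw [← map_sum]
    have hne : p.roots.toFinset.Nonempty := by
      by_contra h
      rw [Finset.not_nonempty_iff_eq_empty] at h
      rw [h, Lagrange.nodal_empty] at hnod
      have h3 : p.natDegree = Fintype.card n := Matrix.charpoly_natDegree_eq_dim _
      rw [hnod, natDegree_one] at h3
      exact absurd h3.symm Fintype.card_ne_zero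
    rw [Lagrange.sum_basis (Function.injective_id.injOn) hne, map_one]

lemma spectral_pow {M : Matrix n n ℤ} {s : Finset ℂ} {G : ℂ → Matrix n n ℂ}
    (h1 : ∀ μ ∈ s, toC M * G μ = μ • G μ) (h3 : ∑ μ ∈ s, G μ = 1) (k : ℕ) :
    toC M ^ k = ∑ μ ∈ s, μ ^ k • G μ := by
  induction k with
  | zero => simp [h3]
  | succ k ih =>
    rw [pow_succ', ih, Finset.mul_sum]
    refine Finset.sum_congr rfl ?_
    intro μ hμ
    rw [mul_smul_comm, h1 μ hμ, smul_smul, pow_succ]

lemma toC_pow (M : Matrix n n ℤ) (k : ℕ) : toC (M ^ k) = toC M ^ k := by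
  unfold toC
  rw [← RingHom.mapMatrix_apply, map_pow, RingHom.mapMatrix_apply]

lemma toR_pow (M : Matrix n n ℤ) (k : ℕ) : toR (M ^ k) = toR M ^ k := by
  unfold toR
  rw [← RingHom.mapMatrix_apply, map_pow, RingHom.mapMatrix_apply]

omit [Fintype n] [DecidableEq n] in
lemma toR_apply (M : Matrix n n ℤ) (i j : n) : toR M i j = (M i j : ℝ) := rfl

omit [Fintype n] [DecidableEq n] in
lemma toC_apply (M : Matrix n n ℤ) (i j : n) : toC M i j = (M i j : ℂ) := rfl

/-- The real limit matrix: `M ^ k = r ^ k G + O(ρ ^ k)`. -/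
lemma exists_limit (M : Matrix n n ℤ) (r : ℝ) [Nonempty n] (h : PisotMat M r) :
    ∃ (G : Matrix n n ℝ) (C ρ : ℝ), 0 ≤ C ∧ 0 < ρ ∧ ρ < 1 ∧
      (∀ k i j, |((M ^ k) i j : ℝ) - r ^ k * G i j| ≤ C * ρ ^ k) ∧
      toR M * G = r • G ∧ G * toR M = r • G := by
  obtain ⟨s, G, hs, h1, h2, h3⟩ := spectral M h.irr
  have hr : (r : ℂ) ∈ s := (hs _).2 h.root
  have hothers : ∀ μ ∈ s.erase (r : ℂ), ‖μ‖ < 1 := by
    intro μ hμ
    rw [Finset.mem_erase] at hμ
    exact (h.others μ ((hs _).1 hμ.2) hμ.1).2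
  -- a uniform bound
  obtain ⟨ρ, hρ0, hρ1, hρ⟩ : ∃ ρ : ℝ, 0 < ρ ∧ ρ < 1 ∧ ∀ μ ∈ s.erase (r : ℂ), ‖μ‖ ≤ ρ := by
    by_cases hne : (s.erase (r : ℂ)).Nonempty
    · obtain ⟨m, hm, hmax⟩ := Finset.exists_max_image (s.erase (r : ℂ)) (fun μ => ‖μ‖) hne
      refine ⟨max ‖m‖ (1 / 2), by positivity, max_lt (hothers m hm) (by norm_num), ?_⟩
      intro μ hμ
      exact le_trans (hmax μ hμ) (le_max_left _ _)
    · rw [Finset.not_nonempty_iff_eq_empty] at hne
      refine ⟨1 / 2, by norm_num, by norm_num, ?_⟩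
      intro μ hμ
      rw [hne] at hμ
      simp at hμ
  refine ⟨(G r).map Complex.re, ∑ μ ∈ s.erase (r : ℂ), ∑ i, ∑ j, ‖G μ i j‖, ρ, ?_, hρ0, hρ1, ?_,
    ?_, ?_⟩
  · positivity
  · intro k i j
    rw [Matrix.map_apply]
    have hk := spectral_pow h1 h3 k
    have hkij : ((M ^ k) i j : ℂ) = ∑ μ ∈ s, μ ^ k * G μ i j := by
      have : ((M ^ k) i j : ℂ) = (toC M ^ k) i j := by
        rw [← toC_pow]; rfl
      rw [this, hk, Matrix.sum_apply]
      rfl
    have hsplit : ((M ^ k) i j : ℂ) - (r : ℂ) ^ k * G r i j =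
        ∑ μ ∈ s.erase (r : ℂ), μ ^ k * G μ i j := by
      rw [hkij, ← Finset.add_sum_erase s _ hr]
      ring
    have hre : ((M ^ k) i j : ℝ) - r ^ k * (G r i j).re =
        (((M ^ k) i j : ℂ) - (r : ℂ) ^ k * G r i j).re := by
      rw [Complex.sub_re, Complex.intCast_re, ← Complex.ofReal_pow, Complex.re_ofReal_mul]
    rw [hre]
    refine le_trans (Complex.abs_re_le_norm _) ?_
    rw [hsplit, Finset.sum_mul]
    refine le_trans (norm_sum_le _ _) (Finset.sum_le_sum ?_)
    intro μ hμ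
    rw [norm_mul, norm_pow, mul_comm]
    have ha : ‖G μ i j‖ ≤ ∑ i, ∑ j, ‖G μ i j‖ := by
      refine le_trans (Finset.single_le_sum (f := fun j => ‖G μ i j‖) (fun _ _ => norm_nonneg _)
        (Finset.mem_univ j)) ?_
      exact Finset.single_le_sum (f := fun i => ∑ j, ‖G μ i j‖)
        (fun _ _ => Finset.sum_nonneg fun _ _ => norm_nonneg _) (Finset.mem_univ i)
    have hb : ‖μ‖ ^ k ≤ ρ ^ k := pow_le_pow_left₀ (norm_nonneg _) (hρ μ hμ) k
    exact mul_le_mul ha hb (by positivity) (by positivity)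
  · ext i j
    have := congrFun (congrFun (h1 r hr) i) j
    rw [Matrix.mul_apply] at this
    have h5 := congrArg Complex.re this
    rw [Complex.re_sum] at h5
    rw [Matrix.mul_apply, Matrix.smul_apply, smul_eq_mul, Matrix.map_apply]
    rw [Matrix.smul_apply, smul_eq_mul, Complex.re_ofReal_mul] at h5
    rw [← h5]
    refine Finset.sum_congr rfl ?_
    intro x _
    rw [toR_apply, toC_apply, Matrix.map_apply]
    have : ((M i x : ℤ) : ℂ) = (((M i x : ℤ) : ℝ) : ℂ) := by push_cast; rfl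
    rw [this, Complex.re_ofReal_mul]
  · ext i j
    have := congrFun (congrFun (h2 r hr) i) j
    rw [Matrix.mul_apply] at this
    have h5 := congrArg Complex.re this
    rw [Complex.re_sum] at h5
    rw [Matrix.mul_apply, Matrix.smul_apply, smul_eq_mul, Matrix.map_apply]
    rw [Matrix.smul_apply, smul_eq_mul, Complex.re_ofReal_mul] at h5
    rw [← h5]
    refine Finset.sum_congr rfl ?_
    intro x _
    rw [toR_apply, toC_apply, Matrix.map_apply]
    have : ((M x j : ℤ) : ℂ) = (((M x j : ℤ) : ℝ) : ℂ) := by push_cast; rfl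
    rw [this, Complex.re_mul_ofReal]

end Pool.Agent.Helper40_Pisot
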