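import Pool.Agent.Helper40_Pisot.LinAlg

set_option autoImplicit false

namespace Pool.Agent.Helper40_Pisot

open Matrix Polynomial Finset

variable {n : Type*} [Fintype n] [DecidableEq n]

/-- If the characteristic polynomial is irreducible then each nonzero vector is cyclic. -/
lemma cyclic (A : Matrix n n ℚ) (irr : Irreducible A.charpoly) (e : n → ℚ) (he : e ≠ 0)
    (v : n → ℚ) : ∃ f : ℚ[X], v = (aeval A f) *ᵥ e := by
  classical
  let T : (degreeLT ℚ (Fintype.card n)) →ₗ[ℚ] (n → ℚ) :=
    { toFun := fun f => (aeval A (f : ℚ[X])) *ᵥ e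
      map_add' := by
        intro f g
        simp [Matrix.add_mulVec]
      map_smul' := by
        intro c f
        simp [Matrix.smul_mulVec] }
  have hinj : Function.Injective T := by
    rw [← LinearMap.ker_eq_bot, LinearMap.ker_eq_bot']
    intro f hf
    by_contra hne
    have hf0 : (f : ℚ[X]) ≠ 0 := fun h => hne (Subtype.ext h)
    have hdeg : (f : ℚ[X]).natDegree < Fintype.card n := by
      have := Polynomial.mem_degreeLT.1 f.2
      exact (Polynomial.natDegree_lt_iff_degree_lt hf0).2 this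
    have hcop : IsCoprime A.charpoly (f : ℚ[X]) := by
      rw [Irreducible.coprime_iff_not_dvd irr]
      intro hdvd
      have := Polynomial.natDegree_le_of_dvd hdvd hf0
      rw [Matrix.charpoly_natDegree_eq_dim] at this
      omega
    obtain ⟨a, b, hab⟩ := hcop
    apply he
    have h1 : (aeval A (a * A.charpoly + b * (f : ℚ[X]))) *ᵥ e = e := by
      rw [hab, map_one, Matrix.one_mulVec]
    rw [map_add, map_mul, map_mul, Matrix.aeval_self_charpoly, mul_zero, zero_add,
      ← Matrix.mulVec_mulVec] at h1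
    have h2 : (aeval A (f : ℚ[X])) *ᵥ e = 0 := hf
    rw [h2, Matrix.mulVec_zero] at h1
    exact h1.symm
  have hfr : Module.finrank ℚ (degreeLT ℚ (Fintype.card n)) = Module.finrank ℚ (n → ℚ) := by
    rw [Module.finrank_fintype_fun_eq_card]
    rw [LinearEquiv.finrank_eq (degreeLTEquiv ℚ (Fintype.card n))]
    simp
  have : FiniteDimensional ℚ (degreeLT ℚ (Fintype.card n)) :=
    LinearEquiv.finiteDimensional (degreeLTEquiv ℚ (Fintype.card n)).symm
  have hsurj : Function.Surjective T :=
    (LinearMap.injective_iff_surjective_of_finrank_eq_finrank hfr).1 hinj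
  obtain ⟨f, hf⟩ := hsurj v
  exact ⟨f, hf.symm⟩

lemma func_zero (A : Matrix n n ℤ) (irr : Irreducible (A.charpoly.map (Int.castRingHom ℚ)))
    (g : n → ℝ) (i : n) (h : ∀ k : ℕ, ∑ j, ((A ^ k) i j : ℝ) * g j = 0) : g = 0 := by
  classical
  set B : Matrix n n ℚ := (A.transpose).map (Int.castRingHom ℚ) with hB
  have hBc : B.charpoly = A.charpoly.map (Int.castRingHom ℚ) := by
    rw [hB, Matrix.charpoly_map, Matrix.charpoly_transpose]
  have irrB : Irreducible B.charpoly := by rw [hBc]; exact irr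
  let L : (n → ℚ) →ₗ[ℚ] ℝ :=
    { toFun := fun v => ∑ j, (v j : ℝ) * g j
      map_add' := by
        intro v w
        simp [add_mul, Finset.sum_add_distrib]
      map_smul' := by
        intro c v
        simp only [Pi.smul_apply, smul_eq_mul, Rat.cast_mul, RingHom.id_apply, Finset.smul_sum]
        refine Finset.sum_congr rfl fun j _ => ?_
        rw [mul_assoc, Rat.smul_def] }
  have hL : ∀ v, L v = ∑ j, (v j : ℝ) * g j := fun v => rfl
  have hpow : ∀ k : ℕ, L (B ^ k *ᵥ Pi.single i 1) = 0 := by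
    intro k
    rw [hL, ← h k]
    refine Finset.sum_congr rfl fun j _ => ?_
    congr 1
    rw [Matrix.mulVec_single_one]
    have : B ^ k = ((A ^ k).transpose).map (Int.castRingHom ℚ) := by
      rw [hB, Matrix.transpose_pow, ← RingHom.mapMatrix_apply, ← RingHom.mapMatrix_apply, map_pow]
    rw [this]
    change ((((A ^ k) i j : ℤ) : ℚ) : ℝ) = _
    simp
  funext j
  obtain ⟨f, hf⟩ := cyclic B irrB (Pi.single i 1) (by
    intro h0
    have := congrFun h0 i
    simp at this) (Pi.single j 1)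
  have h1 : L (Pi.single j 1) = g j := by
    rw [hL, Finset.sum_eq_single j]
    · simp
    · intro b _ hb
      simp [hb]
    · intro hj
      exact absurd (Finset.mem_univ j) hj
  rw [Pi.zero_apply, ← h1, hf, aeval_eq_sum_range, Matrix.sum_mulVec, map_sum]
  refine Finset.sum_eq_zero fun k _ => ?_
  rw [Matrix.smul_mulVec, map_smul, hpow, smul_zero]

/-- Frequencies and the geometric decay. -/
structure PFData (M : Matrix n n ℤ) (r : ℝ) (α l : n → ℝ) : Prop where
  one_lt : 1 < r
  α_pos : ∀ i, 0 < α i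
  α_sum : ∑ i, α i = 1
  α_eig : ∀ i, ∑ j, (M i j : ℝ) * α j = r * α i
  l_pos : ∀ i, 0 < l i
  l_eig : ∀ j, ∑ i, l i * (M i j : ℝ) = r * l j
  det : |(M.det : ℝ)| = 1
  prim : ∃ K : ℕ, ∀ k, K ≤ k → ∀ i j, 0 < (M ^ k) i j
  decay : ∃ C ρ : ℝ, 0 ≤ C ∧ 0 < ρ ∧ ρ < 1 ∧ ∀ (k : ℕ) (i j : n),
    |((M ^ k) i j : ℝ) - (∑ t, ((M ^ k) t j : ℝ)) * α i| ≤ C * ρ ^ k

lemma pow_eig {M : Matrix n n ℤ} {G : Matrix n n ℝ} {r : ℝ} (h : toR M * G = r • G) (k : ℕ) :
    toR M ^ k * G = r ^ k • G := by
  induction k with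
  | zero => simp
  | succ k ih =>
    rw [pow_succ, Matrix.mul_assoc, h, mul_smul_comm, ih, smul_smul, pow_succ, mul_comm]

lemma pow_eig' {M : Matrix n n ℤ} {G : Matrix n n ℝ} {r : ℝ} (h : G * toR M = r • G) (k : ℕ) :
    G * toR M ^ k = r ^ k • G := by
  induction k with
  | zero => simp
  | succ k ih =>
    rw [pow_succ', ← Matrix.mul_assoc, h, smul_mul_assoc, ih, smul_smul, pow_succ, mul_comm]

/-- An eigenvector matrix has no zero entry. -/
lemma entry_ne_zero {M : Matrix n n ℤ} (irr : Irreducible (M.charpoly.map (Int.castRingHom ℚ)))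
    {G : Matrix n n ℝ} {r : ℝ} (h : toR M * G = r • G) (h' : G * toR M = r • G)
    (hne : G ≠ 0) (i j : n) : G i j ≠ 0 := by
  intro h0
  -- column j vanishes
  have hcol : (fun t => G t j) = 0 := by
    apply func_zero M irr _ i
    intro k
    have h1 := congrFun (congrFun (pow_eig h k) i) j
    rw [Matrix.mul_apply, Matrix.smul_apply, h0, smul_zero] at h1
    rw [← h1]
    refine Finset.sum_congr rfl fun t _ => ?_
    rw [← toR_pow, toR_apply]
  -- then each row vanishes
  apply hne
  ext a b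
  have irr' : Irreducible (M.transpose.charpoly.map (Int.castRingHom ℚ)) := by
    rw [Matrix.charpoly_transpose]; exact irr
  have hrow : (fun t => G a t) = 0 := by
    apply func_zero M.transpose irr' _ j
    intro k
    have h1 := congrFun (congrFun (pow_eig' h' k) a) j
    have h2 : G a j = 0 := congrFun hcol a
    rw [Matrix.mul_apply, Matrix.smul_apply, h2, smul_zero] at h1
    rw [← h1]
    refine Finset.sum_congr rfl fun t _ => ?_
    rw [← toR_pow, toR_apply, ← Matrix.transpose_pow, Matrix.transpose_apply, mul_comm]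
  exact congrFun hrow b

lemma tendsto_ratio {C ρ r : ℝ} (hρ0 : 0 < ρ) (hρ1 : ρ < 1) (hr : 1 < r) :
    Filter.Tendsto (fun k : ℕ => C * (ρ / r) ^ k) Filter.atTop (nhds 0) := by
  have h1 : Filter.Tendsto (fun k : ℕ => (ρ / r) ^ k) Filter.atTop (nhds 0) := by
    apply tendsto_pow_atTop_nhds_zero_of_lt_one (by positivity)
    rw [div_lt_one (by linarith)]
    linarith
  simpa using h1.const_mul C

/-- The limit matrix is not zero. -/
lemma limit_ne_zero {M : Matrix n n ℤ} {r : ℝ} [Nonempty n] (h : PisotMat M r)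
    {G : Matrix n n ℝ} {C ρ : ℝ} (hρ0 : 0 < ρ) (hρ1 : ρ < 1)
    (hdec : ∀ k i j, |((M ^ k) i j : ℝ) - r ^ k * G i j| ≤ C * ρ ^ k) : G ≠ 0 := by
  intro hG00
  have h1 : Filter.Tendsto (fun k : ℕ => C * ρ ^ k) Filter.atTop (nhds 0) := by
    simpa using (tendsto_pow_atTop_nhds_zero_of_lt_one hρ0.le hρ1).const_mul C
  obtain ⟨k, hk⟩ := (h1.eventually (gt_mem_nhds (show (0 : ℝ) < 1 by norm_num))).exists
  have hz : M ^ k = 0 := by
    ext i j
    have h2 := hdec k i j
    rw [hG00, Matrix.zero_apply, mul_zero, sub_zero] at h2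
    have h3 : |((M ^ k) i j : ℝ)| < 1 := lt_of_le_of_lt h2 hk
    have h4 : |(M ^ k) i j| < 1 := by exact_mod_cast h3
    rw [Int.abs_lt_one_iff] at h4
    rw [h4, Matrix.zero_apply]
  have hd : (M ^ k).det = 0 := by
    rw [hz, Matrix.det_zero]
  rw [Matrix.det_pow] at hd
  rcases h.det with h5 | h5 <;> rw [h5] at hd
  · simp at hd
  · have h6 : ((-1 : ℤ)) ^ k ≠ 0 := pow_ne_zero k (by norm_num)
    exact h6 hd

/-- The limit matrix has rank one. -/
lemma limit_prop {M : Matrix n n ℤ} {r : ℝ}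
    (irr : Irreducible (M.charpoly.map (Int.castRingHom ℚ)))
    {G : Matrix n n ℝ} (hG : toR M * G = r • G) (i j j0 t : n) :
    G i j0 * G t j = G i j * G t j0 := by
  have hz : (fun t => G i j0 * G t j - G i j * G t j0) = 0 := by
    apply func_zero M irr _ i
    intro k
    have e1 := congrFun (congrFun (pow_eig hG k) i) j
    have e2 := congrFun (congrFun (pow_eig hG k) i) j0
    rw [Matrix.mul_apply, Matrix.smul_apply, smul_eq_mul] at e1 e2
    have e1' : ∑ t, ((M ^ k) i t : ℝ) * G t j = r ^ k * G i j := by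
      rw [← e1]
      refine Finset.sum_congr rfl fun t _ => ?_
      rw [← toR_pow, toR_apply]
    have e2' : ∑ t, ((M ^ k) i t : ℝ) * G t j0 = r ^ k * G i j0 := by
      rw [← e2]
      refine Finset.sum_congr rfl fun t _ => ?_
      rw [← toR_pow, toR_apply]
    have : ∑ t, ((M ^ k) i t : ℝ) * (G i j0 * G t j - G i j * G t j0) =
        G i j0 * (∑ t, ((M ^ k) i t : ℝ) * G t j) -
          G i j * (∑ t, ((M ^ k) i t : ℝ) * G t j0) := by
      rw [Finset.mul_sum, Finset.mul_sum, ← Finset.sum_sub_distrib]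
      refine Finset.sum_congr rfl fun t _ => ?_
      ring
    rw [this, e1', e2']
    ring
  exact sub_eq_zero.1 (congrFun hz t)

/-- The data, when the limit matrix is positive. -/
theorem pfData_of_pos (M : Matrix n n ℤ) (r : ℝ) [Nonempty n] (h : PisotMat M r)
    {G : Matrix n n ℝ} {C ρ : ℝ} (hC : 0 ≤ C) (hρ0 : 0 < ρ) (hρ1 : ρ < 1)
    (hdec : ∀ k i j, |((M ^ k) i j : ℝ) - r ^ k * G i j| ≤ C * ρ ^ k)
    (hG : toR M * G = r • G) (hG' : G * toR M = r • G) (hGpos : ∀ i j, 0 < G i j) :
    ∃ α l : n → ℝ, PFData M r α l := by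
  have hr := h.one_lt
  have hr0 : 0 < r := by linarith
  obtain ⟨j0⟩ := (inferInstance : Nonempty n)
  set s : ℝ := ∑ t, G t j0 with hs
  have hspos : 0 < s := Finset.sum_pos (fun t _ => hGpos t j0) Finset.univ_nonempty
  -- proportional columns
  have hprop : ∀ i j, G i j = (G i j0 / s) * ∑ t, G t j := by
    intro i j
    have hsum : ∑ t, (G i j0 * G t j - G i j * G t j0) = 0 := by
      refine Finset.sum_eq_zero fun t _ => ?_
      rw [limit_prop h.irr hG, sub_self]
    rw [Finset.sum_sub_distrib, ← Finset.mul_sum, ← Finset.mul_sum, ← hs] at hsum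
    field_simp
    linarith
  refine ⟨fun i => G i j0 / s, fun i => G j0 i, ?_⟩
  refine ⟨hr, fun i => div_pos (hGpos i j0) hspos, ?_, ?_, fun i => hGpos j0 i, ?_, ?_, ?_, ?_⟩
  · rw [← Finset.sum_div, ← hs, div_self hspos.ne']
  · intro i
    have e1 := congrFun (congrFun hG i) j0
    rw [Matrix.mul_apply, Matrix.smul_apply, smul_eq_mul] at e1
    have e2 : ∑ j, (M i j : ℝ) * G j j0 = r * G i j0 := by
      rw [← e1]
      rfl
    have : ∑ j, (M i j : ℝ) * (G j j0 / s) = (∑ j, (M i j : ℝ) * G j j0) / s := by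
      rw [Finset.sum_div]
      refine Finset.sum_congr rfl fun t _ => ?_
      ring
    rw [this, e2]
    ring
  · intro j
    have e1 := congrFun (congrFun hG' j0) j
    rw [Matrix.mul_apply, Matrix.smul_apply, smul_eq_mul] at e1
    rw [← e1]
    rfl
  · rcases h.det with h5 | h5 <;> rw [h5] <;> simp
  · have hev : ∀ i j, ∀ᶠ k : ℕ in Filter.atTop, 0 < (M ^ k) i j := by
      intro i j
      have hlim := tendsto_ratio (C := C) hρ0 hρ1 hr
      filter_upwards [hlim.eventually (gt_mem_nhds (hGpos i j))] with k hk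
      have h1 := (abs_le.1 (hdec k i j)).1
      have hrk : (0 : ℝ) < r ^ k := by positivity
      rw [div_pow] at hk
      have h2 : C * ρ ^ k < r ^ k * G i j := by
        have : C * (ρ ^ k / r ^ k) = C * ρ ^ k / r ^ k := by ring
        rw [this, div_lt_iff₀ hrk] at hk
        linarith
      have h3 : (0 : ℝ) < ((M ^ k) i j : ℝ) := by linarith
      exact_mod_cast h3
    have hall : ∀ᶠ k : ℕ in Filter.atTop, ∀ i j, 0 < (M ^ k) i j :=
      Filter.eventually_all.2 fun i => Filter.eventually_all.2 fun j => hev i j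
    exact Filter.eventually_atTop.1 hall
  · refine ⟨C * (1 + Fintype.card n), ρ, by positivity, hρ0, hρ1, ?_⟩
    intro k i j
    set e : n → ℝ := fun t => ((M ^ k) t j : ℝ) - r ^ k * G t j with he
    have he' : ∀ t, |e t| ≤ C * ρ ^ k := fun t => hdec k t j
    have hα0 : 0 ≤ G i j0 / s := (div_pos (hGpos i j0) hspos).le
    have hα1 : G i j0 / s ≤ 1 := by
      rw [div_le_one hspos, hs]
      exact Finset.single_le_sum (f := fun t => G t j0) (fun t _ => (hGpos t j0).le)
        (Finset.mem_univ i)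
    have hkey : ((M ^ k) i j : ℝ) - (∑ t, ((M ^ k) t j : ℝ)) * (G i j0 / s) =
        e i - (∑ t, e t) * (G i j0 / s) := by
      have h1 : ∑ t, e t = ∑ t, ((M ^ k) t j : ℝ) - r ^ k * ∑ t, G t j := by
        rw [he, Finset.sum_sub_distrib, Finset.mul_sum]
      have h2 := hprop i j
      rw [h1]
      simp only [he]
      have h3 : r ^ k * G i j = r ^ k * ((G i j0 / s) * ∑ t, G t j) := by rw [← h2]
      rw [h3]
      ring
    rw [hkey]
    have hsum : |∑ t, e t| ≤ Fintype.card n * (C * ρ ^ k) := by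
      refine le_trans (Finset.abs_sum_le_sum_abs _ _) ?_
      refine le_trans (Finset.sum_le_sum fun t _ => he' t) ?_
      rw [Finset.sum_const, Finset.card_univ, nsmul_eq_mul]
    calc |e i - (∑ t, e t) * (G i j0 / s)| ≤ |e i| + |(∑ t, e t) * (G i j0 / s)| := abs_sub _ _
      _ ≤ C * ρ ^ k + Fintype.card n * (C * ρ ^ k) := by
          refine add_le_add (he' i) ?_
          rw [abs_mul, abs_of_nonneg hα0]
          calc |∑ t, e t| * (G i j0 / s) ≤ |∑ t, e t| * 1 :=
                mul_le_mul_of_nonneg_left hα1 (abs_nonneg _)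
            _ ≤ _ := by rw [mul_one]; exact hsum
      _ = C * (1 + Fintype.card n) * ρ ^ k := by ring

theorem pfData (M : Matrix n n ℤ) (r : ℝ) [Nonempty n] (h : PisotMat M r)
    (hM : ∀ i j, 0 ≤ M i j) : ∃ α l : n → ℝ, PFData M r α l := by
  obtain ⟨G, C, ρ, hC, hρ0, hρ1, hdec, hG, hG'⟩ := exists_limit M r h
  have hr := h.one_lt
  have hr0 : 0 < r := by linarith
  -- nonnegativity
  have hnn : ∀ k i j, (0 : ℝ) ≤ ((M ^ k) i j : ℝ) := by
    intro k
    induction k with
    | zero =>
      intro i j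
      by_cases hij : i = j
      · simp [hij]
      · simp [hij]
    | succ k ih =>
      intro i j
      rw [pow_succ, Matrix.mul_apply]
      push_cast
      exact Finset.sum_nonneg fun t _ => mul_nonneg (ih i t) (by exact_mod_cast hM t j)
  have hG0 : ∀ i j, 0 ≤ G i j := by
    intro i j
    have hlim := tendsto_ratio (C := C) hρ0 hρ1 hr
    have hle : ∀ k : ℕ, -(C * (ρ / r) ^ k) ≤ G i j := by
      intro k
      have h1 := (abs_le.1 (hdec k i j)).2
      have h2 := hnn k i j
      have h3 : -(C * ρ ^ k) ≤ r ^ k * G i j := by linarith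
      have hrk : (0 : ℝ) < r ^ k := by positivity
      rw [div_pow]
      have h4 : -(C * (ρ ^ k / r ^ k)) = -(C * ρ ^ k) / r ^ k := by ring
      rw [h4, div_le_iff₀ hrk]
      linarith
    have h5 : Filter.Tendsto (fun k : ℕ => -(C * (ρ / r) ^ k)) Filter.atTop (nhds 0) := by
      simpa using hlim.neg
    exact le_of_tendsto' h5 hle
  have hGne : G ≠ 0 := limit_ne_zero h hρ0 hρ1 hdec
  have hGpos : ∀ i j, 0 < G i j := fun i j =>
    lt_of_le_of_ne (hG0 i j) (Ne.symm (entry_ne_zero h.irr hG hG' hGne i j))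
  exact pfData_of_pos M r h hC hρ0 hρ1 hdec hG hG' hGpos

end Pool.Agent.Helper40_Pisot
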