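import Pool.Agent.Helper40_Pisot.Disc

set_option autoImplicit false

/-!
The reduced matrix of `π₀ Mᵏ` in the first `m` coordinates and its determinant.
-/

namespace Pool.Agent.Helper40_Pisot

open Finset Matrix

variable {m : ℕ}

/-- Reduced matrix. -/
noncomputable def Bred (M : Matrix (Fin (m + 1)) (Fin (m + 1)) ℤ) (α : Fin (m + 1) → ℝ) (k : ℕ) :
    Matrix (Fin m) (Fin m) ℝ :=
  Matrix.of fun i j => Bmat M α k i.castSucc j.castSucc - Bmat M α k i.castSucc (Fin.last m)

/-- The change of basis. -/
noncomputable def Qm (α : Fin (m + 1) → ℝ) : Matrix (Fin m ⊕ Unit) (Fin (m + 1)) ℝ :=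
  Matrix.of fun s a => Sum.elim
    (fun i : Fin m => (if a = i.castSucc then (1 : ℝ) else 0) - α i.castSucc) (fun _ => 1) s

/-- The inverse change of basis. -/
noncomputable def Pm (α : Fin (m + 1) → ℝ) : Matrix (Fin (m + 1)) (Fin m ⊕ Unit) ℝ :=
  Matrix.of fun b s => Sum.elim
    (fun j : Fin m => (if b = j.castSucc then (1 : ℝ) else 0) - (if b = Fin.last m then 1 else 0))
    (fun _ => α b) s

lemma QP (α : Fin (m + 1) → ℝ) (h : ∑ i, α i = 1) : Qm α * Pm α = 1 := by
  ext s t
  rw [Matrix.mul_apply]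
  rcases s with i | u <;> rcases t with j | v
  · simp only [Qm, Pm, Matrix.of_apply, Sum.elim_inl]
    have : ∀ a : Fin (m + 1), ((if a = i.castSucc then (1 : ℝ) else 0) - α i.castSucc) *
        ((if a = j.castSucc then (1 : ℝ) else 0) - (if a = Fin.last m then 1 else 0)) =
        (if a = i.castSucc then (if a = j.castSucc then (1 : ℝ) else 0) else 0)
          - (if a = i.castSucc then (if a = Fin.last m then (1 : ℝ) else 0) else 0)
          - α i.castSucc * (if a = j.castSucc then (1 : ℝ) else 0)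
          + α i.castSucc * (if a = Fin.last m then (1 : ℝ) else 0) := by
      intro a
      split_ifs <;> ring
    simp_rw [this]
    rw [Finset.sum_add_distrib, Finset.sum_sub_distrib, Finset.sum_sub_distrib, ← Finset.mul_sum,
      ← Finset.mul_sum]
    simp only [Finset.sum_ite_eq', Finset.mem_univ, if_true]
    have hne : i.castSucc ≠ Fin.last m := (Fin.castSucc_lt_last i).ne
    rw [if_neg hne]
    by_cases hij : i = j
    · subst hij
      simp
    · rw [Matrix.one_apply_ne (by simpa using hij), if_neg (by simpa using hij)]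
      ring
  · simp only [Qm, Pm, Matrix.of_apply, Sum.elim_inl, Sum.elim_inr]
    simp_rw [sub_mul]
    rw [Finset.sum_sub_distrib, ← Finset.mul_sum, h]
    simp
  · simp only [Qm, Pm, Matrix.of_apply, Sum.elim_inl, Sum.elim_inr, one_mul]
    rw [Finset.sum_sub_distrib]
    simp
  · simp only [Qm, Pm, Matrix.of_apply, Sum.elim_inr, one_mul, h]
    simp

lemma PQ (α : Fin (m + 1) → ℝ) (h : ∑ i, α i = 1) : Pm α * Qm α = 1 := by
  have hc : Fintype.card (Fin m ⊕ Unit) = Fintype.card (Fin (m + 1)) := by simp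
  exact (Matrix.mul_eq_one_comm_of_card_eq (R := ℝ) _ _ hc).1 (QP α h)

lemma det_Bred {M : Matrix (Fin (m + 1)) (Fin (m + 1)) ℤ} {r : ℝ} {α l : Fin (m + 1) → ℝ}
    (h : PFData M r α l) (k : ℕ) : |(Bred M α k).det| * r ^ k = 1 := by
  have hconj : (Qm α * toR (M ^ k) * Pm α).det = (toR (M ^ k)).det :=
    Matrix.det_conj_of_mul_eq_one (QP α h.α_sum) (PQ α h.α_sum)
  have hblock : Qm α * toR (M ^ k) * Pm α =
      Matrix.fromBlocks (Bred M α k) 0
        (Matrix.of fun _ j => (Qm α * toR (M ^ k) * Pm α) (Sum.inr ()) (Sum.inl j))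
        (Matrix.of fun _ _ => r ^ k) := by
    have hQM : ∀ (s : Fin m ⊕ Unit) (b : Fin (m + 1)), (Qm α * toR (M ^ k)) s b =
        Sum.elim (fun i : Fin m => Bmat M α k i.castSucc b)
          (fun _ => ∑ t, ((M ^ k) t b : ℝ)) s := by
      intro s b
      rw [Matrix.mul_apply]
      rcases s with i | u
      · simp only [Qm, Matrix.of_apply, Sum.elim_inl, toR_apply]
        unfold Bmat
        simp_rw [sub_mul]
        rw [Finset.sum_sub_distrib, Finset.sum_mul]
        simp only [ite_mul, one_mul, zero_mul, Finset.sum_ite_eq', Finset.mem_univ, if_true]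
        congr 1
        exact Finset.sum_congr rfl fun t _ => by ring
      · simp only [Qm, Matrix.of_apply, Sum.elim_inr, toR_apply, one_mul]
    ext s t
    rcases s with i | u <;> rcases t with j | v
    · rw [Matrix.fromBlocks_apply₁₁, Matrix.mul_apply]
      simp_rw [hQM]
      simp only [Sum.elim_inl, Pm, Matrix.of_apply, Bred]
      simp_rw [mul_sub]
      rw [Finset.sum_sub_distrib]
      simp
    · rw [Matrix.fromBlocks_apply₁₂, Matrix.mul_apply]
      simp_rw [hQM]
      simp only [Sum.elim_inl, Pm, Matrix.of_apply, Sum.elim_inr, Matrix.zero_apply]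
      unfold Bmat
      simp_rw [sub_mul]
      rw [Finset.sum_sub_distrib, pow_α h]
      have e1 : ∀ x, (∑ t, ((M ^ k) t x : ℝ)) * α i.castSucc * α x =
          α i.castSucc * ∑ t, ((M ^ k) t x : ℝ) * α x := by
        intro x
        rw [Finset.mul_sum, Finset.sum_mul, Finset.sum_mul]
        exact Finset.sum_congr rfl fun t _ => by ring
      simp_rw [e1]
      rw [← Finset.mul_sum, Finset.sum_comm]
      simp_rw [pow_α h]
      rw [← Finset.mul_sum, h.α_sum]
      ring
    · rw [Matrix.fromBlocks_apply₂₁]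
      rfl
    · rw [Matrix.fromBlocks_apply₂₂, Matrix.mul_apply]
      simp_rw [hQM]
      simp only [Pm, Matrix.of_apply, Sum.elim_inr]
      simp_rw [Finset.sum_mul]
      rw [Finset.sum_comm]
      simp_rw [pow_α h]
      rw [← Finset.mul_sum, h.α_sum, mul_one]
  rw [hblock, Matrix.det_fromBlocks_zero₁₂, Matrix.det_unique (Matrix.of fun _ _ => r ^ k)] at hconj
  have hdet : (toR (M ^ k)).det = (M.det : ℝ) ^ k := by
    have : (toR (M ^ k)).det = ((M ^ k).det : ℝ) := by
      unfold toR
      rw [← RingHom.mapMatrix_apply, ← RingHom.map_det]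
      rfl
    rw [this, Matrix.det_pow]
    push_cast
    rfl
  rw [hdet] at hconj
  have h2 := congrArg abs hconj
  rw [Matrix.of_apply, abs_mul, abs_pow, abs_pow, h.det, one_pow] at h2
  have h3 : |r| = r := abs_of_pos (by linarith [h.one_lt])
  rw [h3] at h2
  exact h2

end Pool.Agent.Helper40_Pisot
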