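import Pool.Agent.Helper40_Pisot.SetEq
import Pool.Agent.Helper40_Pisot.Red

set_option autoImplicit false

/-!
Measure of the pieces of the Rauzy fractal.
-/

namespace Pool.Agent.Helper40_Pisot

open Finset MeasureTheory

/-- A finite family of sets whose union has the sum of the measures is measure-disjoint. -/
lemma null_inter_of_sum_le {Ω ι : Type*} [MeasurableSpace Ω] {μ : Measure Ω} [DecidableEq ι]
    (s : Finset ι) (A : ι → Set Ω) (hA : ∀ p ∈ s, MeasurableSet (A p))
    (hfin : ∀ p ∈ s, μ (A p) ≠ ⊤) (h : ∑ p ∈ s, μ (A p) ≤ μ (⋃ p ∈ s, A p)) {p q : ι}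
    (hp : p ∈ s) (hq : q ∈ s) (hpq : p ≠ q) : μ (A p ∩ A q) = 0 := by
  set s' := (s.erase p).erase q with hs'
  have hq' : q ∈ s.erase p := Finset.mem_erase.2 ⟨hpq.symm, hq⟩
  have hsum : ∑ x ∈ s, μ (A x) = μ (A p) + (μ (A q) + ∑ x ∈ s', μ (A x)) := by
    rw [← Finset.add_sum_erase s _ hp, ← Finset.add_sum_erase (s.erase p) _ hq']
  have hsub : (⋃ x ∈ s, A x) ⊆ (A p ∪ A q) ∪ ⋃ x ∈ s', A x := by
    intro w hw
    simp only [Set.mem_iUnion] at hw
    obtain ⟨x, hx, hwx⟩ := hw
    by_cases h1 : x = p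
    · left; left; rw [← h1]; exact hwx
    · by_cases h2 : x = q
      · left; right; rw [← h2]; exact hwx
      · right
        simp only [Set.mem_iUnion]
        exact ⟨x, Finset.mem_erase.2 ⟨h2, Finset.mem_erase.2 ⟨h1, hx⟩⟩, hwx⟩
  have h1 : μ (⋃ x ∈ s, A x) ≤ μ (A p ∪ A q) + ∑ x ∈ s', μ (A x) := by
    refine le_trans (measure_mono hsub) (le_trans (measure_union_le _ _) ?_)
    gcongr
    exact measure_biUnion_finset_le _ _
  have h2 := measure_union_add_inter (μ := μ) (A p) (hA q hq)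
  have hfin' : μ (A p ∪ A q) + ∑ x ∈ s', μ (A x) ≠ ⊤ := by
    apply ENNReal.add_ne_top.2
    constructor
    · exact ne_top_of_le_ne_top (ENNReal.add_ne_top.2 ⟨hfin p hp, hfin q hq⟩)
        (measure_union_le _ _)
    · apply ENNReal.sum_ne_top.2
      intro x hx
      exact hfin x (Finset.mem_of_mem_erase (Finset.mem_of_mem_erase hx))
  have h3 : (μ (A p ∪ A q) + ∑ x ∈ s', μ (A x)) + μ (A p ∩ A q) ≤
      μ (A p ∪ A q) + ∑ x ∈ s', μ (A x) := by
    calc (μ (A p ∪ A q) + ∑ x ∈ s', μ (A x)) + μ (A p ∩ A q)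
        = (μ (A p ∪ A q) + μ (A p ∩ A q)) + ∑ x ∈ s', μ (A x) := by ring
      _ = (μ (A p) + μ (A q)) + ∑ x ∈ s', μ (A x) := by rw [h2]
      _ = ∑ x ∈ s, μ (A x) := by rw [hsum, add_assoc]
      _ ≤ μ (⋃ x ∈ s, A x) := h
      _ ≤ _ := h1
  have h4 : (μ (A p ∪ A q) + ∑ x ∈ s', μ (A x)) + μ (A p ∩ A q) ≤
      (μ (A p ∪ A q) + ∑ x ∈ s', μ (A x)) + 0 := by rw [add_zero]; exact h3
  exact le_antisymm ((ENNReal.add_le_add_iff_left hfin').1 h4) bot_le

variable {m : ℕ}

/-- The first `m` coordinates of the transfer function. -/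
noncomputable def ph (α : Fin (m + 1) → ℝ) (x : ℤ → Fin (m + 1)) : Fin m → ℝ :=
  fun i => phi α x i.castSucc

/-- The subtiles. -/
def Rset (σ : Fin (m + 1) → List (Fin (m + 1))) (α : Fin (m + 1) → ℝ) (i : Fin (m + 1)) :
    Set (Fin m → ℝ) := ph α '' {x | InX σ x ∧ x 0 = i}

lemma isCompact_Rset {σ : Fin (m + 1) → List (Fin (m + 1))} (hσ : ∀ a, σ a ≠ []) (hp : Prim σ)
    {α : Fin (m + 1) → ℝ} {C : ℝ} (hC : ∀ w, Lang σ w → ∀ i, |disc α w i| ≤ C)
    (i : Fin (m + 1)) : IsCompact (Rset σ α i) := by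
  have h1 : IsCompact {x : ℤ → Fin (m + 1) | InX σ x ∧ x 0 = i} := by
    have : {x : ℤ → Fin (m + 1) | InX σ x ∧ x 0 = i} =
        {x | InX σ x} ∩ ((fun x : ℤ → Fin (m + 1) => x 0) ⁻¹' {i}) := by
      ext x; simp
    rw [this]
    exact (isCompact_X σ).inter_right ((isClosed_discrete _).preimage (continuous_apply 0))
  have h2 : ContinuousOn (ph α) {x : ℤ → Fin (m + 1) | InX σ x ∧ x 0 = i} := by
    have h3 := continuousOn_phi hσ hp hC
    have h4 : ContinuousOn (ph α) {x : ℤ → Fin (m + 1) | InX σ x} := by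
      rw [continuousOn_pi] at h3 ⊢
      intro j
      exact h3 j.castSucc
    exact h4.mono fun x hx => hx.1
  exact h1.image_of_continuousOn h2

/-- The piece map. -/
noncomputable def piece (σ : Fin (m + 1) → List (Fin (m + 1)))
    (M : Matrix (Fin (m + 1)) (Fin (m + 1)) ℤ) (α : Fin (m + 1) → ℝ) (c : Fin m → ℝ)
    (k : ℕ) (p : (_ : Fin (m + 1)) × ℕ) (w : Fin m → ℝ) : Fin m → ℝ :=
  (c - (Bred M α k).mulVec c + fun i => disc α ((it σ k [p.1]).take p.2) i.castSucc) +
    Matrix.toLin' (Bred M α k) w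

/-- Index set of the pieces of the tile `i`. -/
def Idx (σ : Fin (m + 1) → List (Fin (m + 1))) (k : ℕ) (i : Fin (m + 1)) :
    Finset ((_ : Fin (m + 1)) × ℕ) :=
  (Finset.univ : Finset (Fin (m + 1))).sigma
    (fun j => (Finset.range (it σ k [j]).length).filter (fun t => (it σ k [j])[t]? = some i))

lemma card_filter_count {d : ℕ} (w : List (Fin d)) (i : Fin d) :
    ((Finset.range w.length).filter (fun t => w[t]? = some i)).card = w.count i := by
  induction w using List.reverseRecOn with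
  | nil => simp
  | append_singleton w b ih =>
    rw [List.length_append, List.count_append, ← ih]
    simp only [List.length_singleton]
    rw [Finset.range_add_one, Finset.filter_insert]
    have h1 : (Finset.range w.length).filter (fun t => (w ++ [b])[t]? = some i) =
        (Finset.range w.length).filter (fun t => w[t]? = some i) := by
      apply Finset.filter_congr
      intro t ht
      rw [Finset.mem_range] at ht
      rw [List.getElem?_append_left ht]
    have h2 : (w ++ [b])[w.length]? = some b := by simp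
    rw [h1, h2]
    by_cases hb : b = i
    · subst hb
      rw [if_pos rfl, Finset.card_insert_of_notMem (by simp)]
      simp
    · rw [if_neg (by simpa using hb)]
      have : List.count i [b] = 0 := by
        rw [List.count_eq_zero]
        simp
        exact fun h => hb h.symm
      rw [this, add_zero]

/-- The reduced form of the action of `π₀ Mᵏ`. -/
lemma Bred_mulVec (M : Matrix (Fin (m + 1)) (Fin (m + 1)) ℤ) (α : Fin (m + 1) → ℝ) (k : ℕ)
    (v : Fin (m + 1) → ℝ) (hv : ∑ i, v i = 0) (i : Fin m) :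
    ∑ j, Bmat M α k i.castSucc j * v j =
      (Bred M α k).mulVec (fun j : Fin m => v j.castSucc) i := by
  rw [Fin.sum_univ_castSucc]
  rw [Fin.sum_univ_castSucc] at hv
  have hl : v (Fin.last m) = - ∑ j : Fin m, v j.castSucc := by linarith
  rw [hl]
  unfold Bred Matrix.mulVec dotProduct
  simp only [Matrix.of_apply, sub_mul]
  rw [Finset.sum_sub_distrib, ← Finset.mul_sum]
  ring

lemma setEq {σ : Fin (m + 1) → List (Fin (m + 1))}
    {M : Matrix (Fin (m + 1)) (Fin (m + 1)) ℤ} {r : ℝ}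
    {α l : Fin (m + 1) → ℝ} (hM : Inc σ M) (hpf : PFData M r α l) (hd : 1 ≤ m)
    (hσ : ∀ a, σ a ≠ []) {C : ℝ} (hC : ∀ w, Lang σ w → ∀ i, |disc α w i| ≤ C)
    {a : Fin (m + 1)} {x0 : ℤ → Fin (m + 1)} (h : Fixed σ a x0) (k : ℕ) (i : Fin (m + 1)) :
    Rset σ α i ⊆ ⋃ p ∈ Idx σ k i, piece σ M α (ph α x0) k p '' Rset σ α p.1 := by
  have hp := prim_of_pf hM hpf
  set Z : Set (Fin m → ℝ) := ⋃ p ∈ Idx σ k i, piece σ M α (ph α x0) k p '' Rset σ α p.1 with hZ
  have hcont : ∀ p, Continuous (piece σ M α (ph α x0) k p) := by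
    intro p
    unfold piece
    exact continuous_const.add (LinearMap.continuous_of_finiteDimensional _)
  have hZc : IsClosed Z := by
    apply IsCompact.isClosed
    apply Finset.isCompact_biUnion
    intro p _
    exact (isCompact_Rset hσ hp hC p.1).image (hcont p)
  have hpos : ∀ N : ℕ, x0 N = i → ph α (sh N x0) ∈ Z := by
    intro N hN
    obtain ⟨n', t, h1, h2, h3⟩ := phi_position hM hpf (by omega) hσ hC h k N
    rw [hZ]
    simp only [Set.mem_iUnion]
    refine ⟨⟨x0 n', t⟩, ?_, ?_⟩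
    · unfold Idx
      rw [Finset.mem_sigma]
      refine ⟨Finset.mem_univ _, ?_⟩
      rw [Finset.mem_filter, Finset.mem_range]
      exact ⟨h1, by rw [h2, hN]⟩
    · refine ⟨ph α (sh n' x0), ⟨sh n' x0, ⟨h.inX.sh _, ?_⟩, rfl⟩, ?_⟩
      · simp [sh]
      · have hsum := sum_phi hσ hp hpf.α_sum hC h.inX (h.inX.sh n')
        funext i'
        unfold piece
        simp only [Pi.add_apply, Pi.sub_apply, Matrix.toLin'_apply]
        have h4 : ph α (sh N x0) i' = phi α (sh N x0) i'.castSucc := rfl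
        rw [h4, h3, Bred_mulVec M α k _ hsum]
        have h5 : (fun j : Fin m => phi α (sh n' x0) j.castSucc - phi α x0 j.castSucc) =
            ph α (sh n' x0) - ph α x0 := rfl
        rw [h5, Matrix.mulVec_sub, Pi.sub_apply]
        have h6 : ph α x0 i' = phi α x0 i'.castSucc := rfl
        rw [h6]
        ring
  rintro _ ⟨x, ⟨hx, hx0⟩, rfl⟩
  rw [← hZc.closure_eq, Metric.mem_closure_iff]
  intro ε hε
  obtain ⟨N, hN1, hN2⟩ := approx hσ hp hC h.inX hx (half_pos hε)
  refine ⟨ph α (sh N x0), hpos N (by rw [hN1, hx0]), ?_⟩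
  rw [dist_comm]
  refine lt_of_le_of_lt ((dist_pi_le_iff (by positivity)).2 fun j => ?_) (half_lt_self hε)
  rw [Real.dist_eq]
  exact hN2 j.castSucc

lemma volume_piece (σ : Fin (m + 1) → List (Fin (m + 1)))
    (M : Matrix (Fin (m + 1)) (Fin (m + 1)) ℤ) (α : Fin (m + 1) → ℝ) (c : Fin m → ℝ)
    (k : ℕ) (p : (_ : Fin (m + 1)) × ℕ) (s : Set (Fin m → ℝ)) :
    volume (piece σ M α c k p '' s) = ENNReal.ofReal |(Bred M α k).det| * volume s := by
  have : piece σ M α c k p '' s =
      (fun v => (c - (Bred M α k).mulVec c +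
        fun i => disc α ((it σ k [p.1]).take p.2) i.castSucc) + v) ''
        (Matrix.toLin' (Bred M α k) '' s) := by
    rw [Set.image_image]
    rfl
  rw [this, Set.image_add_left, measure_preimage_add, Measure.addHaar_image_linearMap,
    LinearMap.det_toLin']

/-- The volumes of the subtiles and of their pieces. -/
lemma sum_pieces_le {σ : Fin (m + 1) → List (Fin (m + 1))}
    {M : Matrix (Fin (m + 1)) (Fin (m + 1)) ℤ} {r : ℝ}
    {α l : Fin (m + 1) → ℝ} (hM : Inc σ M) (hpf : PFData M r α l) (hd : 1 ≤ m)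
    (hσ : ∀ a, σ a ≠ []) {C : ℝ} (hC : ∀ w, Lang σ w → ∀ i, |disc α w i| ≤ C)
    {a : Fin (m + 1)} {x0 : ℤ → Fin (m + 1)} (h : Fixed σ a x0) (k : ℕ) (i : Fin (m + 1)) :
    ∑ p ∈ Idx σ k i, volume (piece σ M α (ph α x0) k p '' Rset σ α p.1) ≤
      volume (⋃ p ∈ Idx σ k i, piece σ M α (ph α x0) k p '' Rset σ α p.1) := by
  have hp := prim_of_pf hM hpf
  set V : Fin (m + 1) → ENNReal := fun i => volume (Rset σ α i) with hV
  have hVfin : ∀ i, V i ≠ ⊤ := fun i => (isCompact_Rset hσ hp hC i).measure_lt_top.ne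
  set T : Fin (m + 1) → ENNReal :=
    fun i => ∑ p ∈ Idx σ k i, volume (piece σ M α (ph α x0) k p '' Rset σ α p.1) with hT
  have hdet := det_Bred hpf k
  have hTfin : ∀ i, T i ≠ ⊤ := by
    intro i
    apply ENNReal.sum_ne_top.2
    intro p _
    rw [volume_piece]
    exact ENNReal.mul_ne_top ENNReal.ofReal_ne_top (hVfin p.1)
  have hVT : ∀ i, V i ≤ T i := by
    intro i
    refine le_trans (measure_mono (setEq hM hpf hd hσ hC h k i)) ?_
    exact measure_biUnion_finset_le _ _
  have hTval : ∀ i, (T i).toReal = |(Bred M α k).det| * ∑ j, ((M ^ k) i j : ℝ) * (V j).toReal := by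
    intro i
    simp only [hT]
    rw [ENNReal.toReal_sum]
    · have h1 : ∀ p ∈ Idx σ k i, (volume (piece σ M α (ph α x0) k p '' Rset σ α p.1)).toReal =
          |(Bred M α k).det| * (V p.1).toReal := by
        intro p _
        rw [volume_piece, ENNReal.toReal_mul, ENNReal.toReal_ofReal (abs_nonneg _)]
      rw [Finset.sum_congr rfl h1, ← Finset.mul_sum]
      congr 1
      unfold Idx
      rw [Finset.sum_sigma]
      refine Finset.sum_congr rfl fun j _ => ?_
      change ∑ s ∈ (Finset.range (it σ k [j]).length).filter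
        (fun t => (it σ k [j])[t]? = some i), (V j).toReal = _
      rw [Finset.sum_const, card_filter_count, nsmul_eq_mul]
      congr 1
      have := count_it_single hM k j i
      exact_mod_cast this
    · intro p _
      rw [volume_piece]
      exact ENNReal.mul_ne_top ENNReal.ofReal_ne_top (hVfin p.1)
  have hsum : ∑ i, l i * (T i).toReal = ∑ i, l i * (V i).toReal := by
    simp_rw [hTval]
    have h1 : ∀ i, l i * (|(Bred M α k).det| * ∑ j, ((M ^ k) i j : ℝ) * (V j).toReal) =
        |(Bred M α k).det| * ∑ j, l i * ((M ^ k) i j : ℝ) * (V j).toReal := by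
      intro i
      rw [Finset.mul_sum, Finset.mul_sum, Finset.mul_sum]
      exact Finset.sum_congr rfl fun j _ => by ring
    simp_rw [h1]
    rw [← Finset.mul_sum, Finset.sum_comm]
    simp_rw [← Finset.sum_mul, pow_l hpf]
    rw [Finset.mul_sum]
    refine Finset.sum_congr rfl fun j _ => ?_
    calc |(Bred M α k).det| * (r ^ k * l j * (V j).toReal)
        = (|(Bred M α k).det| * r ^ k) * (l j * (V j).toReal) := by ring
      _ = _ := by rw [hdet, one_mul]
  have heq : ∀ i, (T i).toReal = (V i).toReal := by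
    have hle : ∀ i, l i * (V i).toReal ≤ l i * (T i).toReal := fun i =>
      mul_le_mul_of_nonneg_left (ENNReal.toReal_mono (hTfin i) (hVT i)) (hpf.l_pos i).le
    intro i
    have := (Finset.sum_eq_sum_iff_of_le (fun i _ => hle i)).1 hsum.symm i (Finset.mem_univ i)
    have h2 := mul_left_cancel₀ (hpf.l_pos i).ne' this
    exact h2.symm
  have h3 : T i = V i := (ENNReal.toReal_eq_toReal_iff' (hTfin i) (hVfin i)).1 (heq i)
  change T i ≤ _
  rw [h3]
  exact measure_mono (setEq hM hpf hd hσ hC h k i)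

end Pool.Agent.Helper40_Pisot
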