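import Pool.Agent.Helper40_Pisot.LinAlg

set_option autoImplicit false

/-!
The characteristic polynomial of a power of a unimodular irreducible matrix of Pisot type is again
irreducible and of Pisot type.
-/

namespace Pool.Agent.Helper40_Pisot

open Matrix Polynomial Finset

variable {n : Type*} [Fintype n] [DecidableEq n]

lemma charpoly_pow (M : Matrix n n ℤ) [Nonempty n]
    (irr : Irreducible (M.charpoly.map (Int.castRingHom ℚ))) (N : ℕ) :
    (toC M ^ N).charpoly = ∏ μ ∈ (toC M).charpoly.roots.toFinset, (X - C (μ ^ N)) := by
  set s := (toC M).charpoly.roots.toFinset with hs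
  set f : Module.End ℂ (n → ℂ) := Matrix.toLin' (toC M) with hf
  have hcard : s.card = Fintype.card n := by
    have h1 := charpoly_nodal M irr
    have h2 := congrArg Polynomial.natDegree h1
    rw [Matrix.charpoly_natDegree_eq_dim, Lagrange.natDegree_nodal] at h2
    exact h2.symm
  have hev : ∀ μ : s, f.HasEigenvalue (μ : ℂ) := by
    intro μ
    rw [Module.End.hasEigenvalue_iff_isRoot_charpoly, hf, Matrix.charpoly_toLin']
    exact (Polynomial.mem_roots (Matrix.charpoly_monic _).ne_zero).1
      (Multiset.mem_toFinset.1 μ.2)
  choose v hv using fun μ : s => (hev μ).exists_hasEigenvector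
  have hli : LinearIndependent ℂ v :=
    Module.End.eigenvectors_linearIndependent' f (fun μ : s => (μ : ℂ))
      Subtype.coe_injective v hv
  have hfr : Fintype.card s = Module.finrank ℂ (n → ℂ) := by
    rw [Module.finrank_fintype_fun_eq_card, Fintype.card_coe, hcard]
  have hne : Nonempty s := by
    rw [← Fintype.card_pos_iff, Fintype.card_coe, hcard]
    exact Fintype.card_pos
  let b := basisOfLinearIndependentOfCardEqFinrank hli hfr
  have hb : ∀ μ, b μ = v μ := fun μ => by simp [b]
  have hfb : ∀ (k : ℕ) (μ : s), (f ^ k) (b μ) = ((μ : ℂ) ^ k) • b μ := by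
    intro k μ
    induction k with
    | zero => simp
    | succ k ih =>
      rw [pow_succ', Module.End.mul_apply, ih, map_smul, hb, (hv μ).apply_eq_smul, smul_smul,
        pow_succ]
  have hmat : LinearMap.toMatrix b b (f ^ N) = Matrix.diagonal fun μ : s => (μ : ℂ) ^ N := by
    ext i j
    rw [LinearMap.toMatrix_apply, hfb, map_smul, Finsupp.smul_apply, Module.Basis.repr_self,
      Matrix.diagonal_apply, Finsupp.single_apply]
    by_cases h : i = j
    · subst h
      simp
    · rw [if_neg h, if_neg (Ne.symm h)]
      simp
  have h1 : (toC M ^ N).charpoly = (f ^ N).charpoly := by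
    rw [hf, ← Matrix.toLin'_pow, Matrix.charpoly_toLin']
  rw [h1, ← LinearMap.charpoly_toMatrix (f ^ N) b, hmat, Matrix.charpoly_diagonal,
    ← Finset.prod_coe_sort s (fun μ : ℂ => (X - C (μ ^ N)))]

lemma aeval_iff (M : Matrix n n ℤ) (μ : ℂ) :
    Polynomial.aeval μ M.charpoly = 0 ↔ (toC M).charpoly.eval μ = 0 := by
  rw [toC_charpoly, Polynomial.eval_map, Polynomial.aeval_def]
  rfl

theorem pisot_pow {M : Matrix n n ℤ} {r : ℝ} [Nonempty n] (h : PisotMat M r) {N : ℕ}
    (hN : 1 ≤ N) : PisotMat (M ^ N) (r ^ N) := by
  set s := (toC M).charpoly.roots.toFinset with hs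
  have hprod := charpoly_pow M h.irr N
  rw [← hs] at hprod
  have hmem : ∀ μ, μ ∈ s ↔ Polynomial.aeval μ M.charpoly = 0 := by
    intro μ
    rw [hs, Multiset.mem_toFinset, Polynomial.mem_roots (Matrix.charpoly_monic _).ne_zero,
      Polynomial.IsRoot, aeval_iff]
  have hr : (r : ℂ) ∈ s := (hmem _).2 h.root
  have hroot : ∀ μ : ℂ, Polynomial.aeval μ (M ^ N).charpoly = 0 ↔ ∃ ν ∈ s, μ = ν ^ N := by
    intro μ
    rw [aeval_iff, toC_pow, hprod, Polynomial.eval_prod, Finset.prod_eq_zero_iff]
    constructor
    · rintro ⟨ν, hν, h2⟩
      refine ⟨ν, hν, ?_⟩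
      rw [Polynomial.eval_sub, Polynomial.eval_X, Polynomial.eval_C, sub_eq_zero] at h2
      exact h2
    · rintro ⟨ν, hν, rfl⟩
      exact ⟨ν, hν, by simp⟩
  have hsmall : ∀ ν ∈ s, ν ≠ (r : ℂ) → 0 < ‖ν ^ N‖ ∧ ‖ν ^ N‖ < 1 := by
    intro ν hν hne
    obtain ⟨h1, h2⟩ := h.others ν ((hmem ν).1 hν) hne
    rw [norm_pow]
    exact ⟨pow_pos h1 N, pow_lt_one₀ h1.le h2 (by omega)⟩
  have hr1 : 1 < ‖(r : ℂ) ^ N‖ := by
    rw [norm_pow, Complex.norm_real, Real.norm_of_nonneg (by linarith [h.one_lt])]
    exact one_lt_pow₀ h.one_lt (by omega)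
  refine ⟨one_lt_pow₀ h.one_lt (by omega), ?_, ?_, ?_, ?_⟩
  · rw [hroot]
    exact ⟨r, hr, by push_cast; rfl⟩
  · intro μ hμ hne
    obtain ⟨ν, hν, rfl⟩ := (hroot μ).1 hμ
    apply hsmall ν hν
    rintro rfl
    apply hne
    push_cast
    rfl
  · -- irreducibility
    have hmon := Matrix.charpoly_monic (M ^ N)
    have hdeg : 0 < (M ^ N).charpoly.natDegree := by
      rw [Matrix.charpoly_natDegree_eq_dim]
      exact Fintype.card_pos
    have hone : (M ^ N).charpoly ≠ 1 := by
      intro h1
      rw [h1] at hdeg
      simp at hdeg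
    have hcz : |(M ^ N).charpoly.coeff 0| = 1 := by
      have h1 := Matrix.det_eq_sign_charpoly_coeff (M ^ N)
      have h2 : |(M ^ N).det| = 1 := by
        rw [Matrix.det_pow, abs_pow]
        rcases h.det with h3 | h3 <;> rw [h3] <;> simp
      rw [h1, abs_mul, abs_pow] at h2
      simpa using h2
    have key : Irreducible (M ^ N).charpoly := by
      rw [Polynomial.irreducible_of_monic hmon hone]
      intro f g hf hg hfg
      by_contra hcon
      push Not at hcon
      obtain ⟨hf1, hg1⟩ := hcon
      set F := f.map (Int.castRingHom ℂ) with hF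
      set G := g.map (Int.castRingHom ℂ) with hG
      have hFm : F.Monic := hf.map _
      have hGm : G.Monic := hg.map _
      have hFG : F * G = ∏ μ ∈ s, (X - C (μ ^ N)) := by
        rw [hF, hG, ← Polynomial.map_mul, hfg, ← toC_charpoly, toC_pow, hprod]
      have hroots : F.roots + G.roots = s.val.map fun μ => μ ^ N := by
        rw [← Polynomial.roots_mul (mul_ne_zero hFm.ne_zero hGm.ne_zero), hFG]
        have : ∏ μ ∈ s, (X - C (μ ^ N)) =
            ((s.val.map fun μ => μ ^ N).map fun a => (X - C a : ℂ[X])).prod := by
          rw [Multiset.map_map]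
          rfl
        rw [this, Polynomial.roots_multiset_prod_X_sub_C]
      have hcount : (s.val.map fun μ => μ ^ N).count ((r : ℂ) ^ N) = 1 := by
        rw [Multiset.count_map]
        have : s.val.filter (fun a => (r : ℂ) ^ N = a ^ N) = {(r : ℂ)} := by
          have h2 : (s.filter fun a => (r : ℂ) ^ N = a ^ N) = {(r : ℂ)} := by
            ext a
            rw [Finset.mem_filter, Finset.mem_singleton]
            constructor
            · rintro ⟨ha, hra⟩
              by_contra hne
              have := (hsmall a ha hne).2
              rw [← hra] at this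
              linarith
            · rintro rfl
              exact ⟨hr, rfl⟩
          have h3 := congrArg Finset.val h2
          rw [Finset.filter_val, Finset.singleton_val] at h3
          exact h3
        rw [this]
        simp
      -- a monic integer factor without the dominant root
      have final : ∀ (p q : ℤ[X]), p.Monic → p ≠ 1 → p * q = (M ^ N).charpoly →
          (∀ z ∈ (p.map (Int.castRingHom ℂ)).roots, z ∈ (s.val.map fun μ => μ ^ N)) →
          (r : ℂ) ^ N ∉ (p.map (Int.castRingHom ℂ)).roots → False := by
        intro p q hp hp1 hpq hsub hno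
        set P := p.map (Int.castRingHom ℂ) with hP
        have hPm : P.Monic := hp.map _
        have hsp : P.Splits := IsAlgClosed.splits P
        have h1 := hsp.coeff_zero_eq_prod_roots_of_monic hPm
        have hcardpos : 0 < P.roots.card := by
          rw [← hsp.natDegree_eq_card_roots, hP, hp.natDegree_map]
          rw [Nat.pos_iff_ne_zero]
          intro h0
          exact hp1 (hp.natDegree_eq_zero.1 h0)
        have hlt : ∀ z ∈ P.roots, ‖z‖ < 1 := by
          intro z hz
          obtain ⟨ν, hν, hzν⟩ := Multiset.mem_map.1 (hsub z hz)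
          rw [← hzν]
          refine (hsmall ν hν ?_).2
          rintro rfl
          exact hno (hzν ▸ hz)
        have hprodlt : ∀ S : Multiset ℂ, (∀ z ∈ S, ‖z‖ < 1) → 0 < S.card → ‖S.prod‖ < 1 := by
          intro S
          induction S using Multiset.induction_on with
          | empty => intro _ h0; simp at h0
          | cons a S ih =>
            intro hS _
            rw [Multiset.prod_cons, norm_mul]
            have ha := hS a (Multiset.mem_cons_self a S)
            by_cases hS0 : 0 < S.card
            · have h2 := ih (fun z hz => hS z (Multiset.mem_cons_of_mem hz)) hS0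
              nlinarith [norm_nonneg a, norm_nonneg S.prod]
            · have : S = 0 := by
                rw [← Multiset.card_eq_zero]
                omega
              subst this
              simpa using ha
        have h2 : ‖P.coeff 0‖ < 1 := by
          rw [h1, norm_mul, norm_pow, norm_neg, norm_one, one_pow, one_mul]
          exact hprodlt _ hlt hcardpos
        have h3 : P.coeff 0 = ((p.coeff 0 : ℤ) : ℂ) := by
          rw [hP, Polynomial.coeff_map]
          rfl
        rw [h3, Complex.norm_intCast] at h2
        have h4 : |p.coeff 0| < 1 := by exact_mod_cast h2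
        rw [Int.abs_lt_one_iff] at h4
        have h5 : (M ^ N).charpoly.coeff 0 = p.coeff 0 * q.coeff 0 := by
          rw [← hpq, Polynomial.mul_coeff_zero]
        rw [h5, h4, zero_mul] at hcz
        simp at hcz
      by_cases hrF : (r : ℂ) ^ N ∈ F.roots
      · apply final g f hg hg1 (by rw [mul_comm]; exact hfg)
        · intro z hz
          rw [← hroots]
          exact Multiset.mem_add.2 (Or.inr hz)
        · intro hrG
          have h1 : 1 ≤ F.roots.count ((r : ℂ) ^ N) := Multiset.one_le_count_iff_mem.2 hrF
          have h2 : 1 ≤ G.roots.count ((r : ℂ) ^ N) := Multiset.one_le_count_iff_mem.2 hrG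
          have h3 := congrArg (Multiset.count ((r : ℂ) ^ N)) hroots
          rw [Multiset.count_add, hcount] at h3
          omega
      · apply final f g hf hf1 hfg
        · intro z hz
          rw [← hroots]
          exact Multiset.mem_add.2 (Or.inl hz)
        · exact hrF
    have h3 := (hmon.irreducible_iff_irreducible_map_fraction_map (K := ℚ)).1 key
    exact h3
  · rw [Matrix.det_pow]
    rcases h.det with h1 | h1
    · left
      rw [h1, one_pow]
    · rw [h1]
      exact neg_one_pow_eq_or ℤ N

end Pool.Agent.Helper40_Pisot
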