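import Pool.Agent.Helper40_Pisot.Power

set_option autoImplicit false

/-!
The nested rounding word with given frequencies.
-/

namespace Pool.Agent.Helper40_Pisot

open Finset

variable {d : ℕ}

lemma round_step {β x : ℝ} (h0 : 0 ≤ β) (h1 : β ≤ 1) :
    round (x + β) = round x ∨ round (x + β) = round x + 1 := by
  rw [round_eq, round_eq]
  have h2 : ⌊x + 1 / 2⌋ ≤ ⌊x + β + 1 / 2⌋ := Int.floor_le_floor (by linarith)
  have h3 : ⌊x + β + 1 / 2⌋ ≤ ⌊x + 1 / 2 + 1⌋ := Int.floor_le_floor (by linarith)
  rw [Int.floor_add_one] at h3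
  omega

lemma round_of_near {x : ℝ} {n : ℤ} (h : |x - n| < 1 / 2) : round x = n := by
  rw [round_eq, Int.floor_eq_iff]
  have := abs_lt.1 h
  constructor <;> linarith [this.1, this.2]

/-- The frequencies, indexed by the naturals. -/
noncomputable def aa (α : Fin d → ℝ) (j : ℕ) : ℝ := if h : j < d then α ⟨j, h⟩ else 0

/-- The tails. -/
noncomputable def TT (α : Fin d → ℝ) (j : ℕ) : ℝ := ∑ i ∈ Finset.Ico j d, aa α i

/-- The relative frequencies. -/
noncomputable def bb (α : Fin d → ℝ) (j : ℕ) : ℝ := aa α j / TT α j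

/-- What remains of the length `s` after `j` letters have been dealt with. -/
noncomputable def rm (α : Fin d → ℝ) : ℕ → ℕ → ℤ
  | 0, s => s
  | j + 1, s => rm α j s - round (bb α j * rm α j s)

/-- The number of letters `j` among the first `s`. -/
noncomputable def cc (α : Fin d → ℝ) (j s : ℕ) : ℤ := round (bb α j * rm α j s)

lemma rm_succ (α : Fin d → ℝ) (j s : ℕ) : rm α (j + 1) s = rm α j s - cc α j s := rfl

lemma rm_zero (α : Fin d → ℝ) (s : ℕ) : rm α 0 s = s := rfl

section

variable {α : Fin d → ℝ} (hpos : ∀ i, 0 < α i) (hsum : ∑ i, α i = 1)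

include hpos

lemma aa_nonneg (j : ℕ) : 0 ≤ aa α j := by
  unfold aa
  split_ifs with h
  · exact (hpos _).le
  · exact le_rfl

lemma TT_pos {j : ℕ} (hj : j < d) : 0 < TT α j := by
  unfold TT
  have h1 : aa α j ≤ ∑ i ∈ Finset.Ico j d, aa α i :=
    Finset.single_le_sum (f := aa α) (fun i _ => aa_nonneg hpos i) (by simp [hj])
  have h2 : 0 < aa α j := by
    unfold aa
    rw [dif_pos hj]
    exact hpos _
  linarith

omit hpos in
lemma TT_succ {j : ℕ} (hj : j < d) : TT α j = aa α j + TT α (j + 1) := by
  unfold TT
  rw [Finset.sum_eq_sum_Ico_succ_bot hj]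

omit hpos in
include hsum in
lemma TT_zero : TT α 0 = 1 := by
  unfold TT
  rw [← hsum, Nat.Ico_zero_eq_range, Finset.sum_range]
  refine Finset.sum_congr rfl fun i _ => ?_
  unfold aa
  rw [dif_pos i.2]

lemma TT_nonneg (j : ℕ) : 0 ≤ TT α j := Finset.sum_nonneg fun i _ => aa_nonneg hpos i

lemma bb_nonneg (j : ℕ) : 0 ≤ bb α j := div_nonneg (aa_nonneg hpos j) (TT_nonneg hpos j)

lemma bb_le_one (j : ℕ) : bb α j ≤ 1 := by
  unfold bb
  by_cases hj : j < d
  · rw [div_le_one (TT_pos hpos hj), TT_succ hj]
    linarith [TT_nonneg hpos (j + 1)]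
  · unfold aa
    rw [dif_neg hj]
    simp

lemma bb_mul {j : ℕ} (hj : j < d) : bb α j * TT α j = aa α j := by
  unfold bb
  exact div_mul_cancel₀ _ (TT_pos hpos hj).ne'

lemma rm_step (j s : ℕ) : rm α j (s + 1) = rm α j s ∨ rm α j (s + 1) = rm α j s + 1 := by
  induction j with
  | zero =>
    right
    simp [rm_zero]
  | succ j ih =>
    rw [rm_succ, rm_succ]
    rcases ih with h | h
    · left
      unfold cc
      rw [h]
    · have hx : cc α j (s + 1) = round (bb α j * rm α j s + bb α j) := by
        unfold cc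
        rw [h]
        congr 1
        push_cast
        ring
      rcases round_step (x := bb α j * rm α j s) (bb_nonneg hpos j) (bb_le_one hpos j) with h2 | h2
      · right
        rw [hx, h2, h]
        unfold cc
        ring
      · left
        rw [hx, h2, h]
        unfold cc
        ring

lemma cc_step (j s : ℕ) : cc α j (s + 1) = cc α j s ∨ cc α j (s + 1) = cc α j s + 1 := by
  have h1 := rm_step hpos j s
  have h2 := rm_step hpos (j + 1) s
  rw [rm_succ, rm_succ] at h2
  rcases rm_step hpos j s with h | h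
  · left
    unfold cc
    rw [h]
  · have hx : cc α j (s + 1) = round (bb α j * rm α j s + bb α j) := by
      unfold cc
      rw [h]
      congr 1
      push_cast
      ring
    rcases round_step (x := bb α j * rm α j s) (bb_nonneg hpos j) (bb_le_one hpos j) with h2 | h2
    · left
      rw [hx, h2]
      rfl
    · right
      rw [hx, h2]
      rfl

lemma rm_last (s : ℕ) (hd : 0 < d) : rm α d s = 0 := by
  obtain ⟨m, rfl⟩ : ∃ m, d = m + 1 := ⟨d - 1, by omega⟩
  rw [rm_succ]
  have h1 : bb α m = 1 := by
    have h2 := bb_mul hpos (j := m) (Nat.lt_succ_self m)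
    have h3 : TT α m = aa α m := by
      rw [TT_succ (Nat.lt_succ_self m)]
      unfold TT
      simp
    rw [h3] at h2
    have h4 : 0 < aa α m := by
      rw [← h3]
      exact TT_pos hpos (Nat.lt_succ_self m)
    have h5 : (bb α m - 1) * aa α m = 0 := by rw [sub_mul, h2]; ring
    rcases mul_eq_zero.1 h5 with h | h
    · linarith
    · linarith
  unfold cc
  rw [h1, one_mul, round_intCast, sub_self]

omit hpos in
lemma sum_cc (k s : ℕ) : ∑ j ∈ Finset.range k, cc α j s = s - rm α k s := by
  induction k with
  | zero => simp [rm_zero]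
  | succ k ih =>
    rw [Finset.sum_range_succ, ih, rm_succ]
    ring

/-- Exactly one letter is added at each step. -/
lemma exists_letter (s : ℕ) (hd : 0 < d) : ∃ v : Fin d, ∀ j : Fin d,
    cc α j (s + 1) = cc α j s + if v = j then 1 else 0 := by
  have h1 : ∑ j ∈ Finset.range d, (cc α j (s + 1) - cc α j s) = 1 := by
    rw [Finset.sum_sub_distrib, sum_cc, sum_cc, rm_last hpos _ hd, rm_last hpos _ hd]
    push_cast
    ring
  rw [Finset.sum_range] at h1
  have hex : ∃ v : Fin d, cc α v (s + 1) - cc α v s = 1 := by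
    by_contra hno
    push Not at hno
    have : ∑ j : Fin d, (cc α j (s + 1) - cc α j s) = 0 := by
      refine Finset.sum_eq_zero fun j _ => ?_
      rcases cc_step hpos (j : ℕ) s with h | h
      · rw [h]; ring
      · exact absurd (by rw [h]; ring) (hno j)
    omega
  obtain ⟨v, hv⟩ := hex
  refine ⟨v, fun j => ?_⟩
  by_cases hvj : v = j
  · subst hvj
    simp only [if_true]
    omega
  · rw [if_neg hvj]
    have h2 : ∑ k ∈ Finset.univ.erase v, (cc α (k : Fin d) (s + 1) - cc α k s) = 0 := by
      have := Finset.add_sum_erase Finset.univ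
        (fun k : Fin d => cc α (k : ℕ) (s + 1) - cc α (k : ℕ) s) (Finset.mem_univ v)
      omega
    have h3 : ∀ k ∈ Finset.univ.erase v, 0 ≤ cc α (k : Fin d) (s + 1) - cc α k s := by
      intro k _
      rcases cc_step hpos (k : ℕ) s with h | h <;> rw [h] <;> omega
    have h4 := (Finset.sum_eq_zero_iff_of_nonneg h3).1 h2 j
      (Finset.mem_erase.2 ⟨fun h => hvj h.symm, Finset.mem_univ j⟩)
    omega

end

/-- The letters of the nested rounding word. -/
noncomputable def vv (α : Fin d → ℝ) (hd : 0 < d) (s : ℕ) : Fin d :=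
  open Classical in
  if h : ∃ v : Fin d, ∀ j : Fin d, cc α j (s + 1) = cc α j s + (if v = j then 1 else 0)
  then h.choose else ⟨0, hd⟩

/-- The beginning of length `s` of the nested rounding word. -/
noncomputable def wd (α : Fin d → ℝ) (hd : 0 < d) : ℕ → List (Fin d)
  | 0 => []
  | s + 1 => wd α hd s ++ [vv α hd s]

@[simp] lemma length_wd (α : Fin d → ℝ) (hd : 0 < d) (s : ℕ) : (wd α hd s).length = s := by
  induction s with
  | zero => rfl
  | succ s ih =>
    rw [wd, List.length_append, ih]
    rfl

lemma prefix_wd (α : Fin d → ℝ) (hd : 0 < d) {s : ℕ} {p : List (Fin d)} (h : p <+: wd α hd s) :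
    p = wd α hd p.length := by
  induction s with
  | zero =>
    have : p = [] := by simpa [wd] using h
    subst this
    rfl
  | succ s ih =>
    rw [wd, List.prefix_concat_iff] at h
    rcases h with h | h
    · have h2 : p.length = s + 1 := by rw [h]; simp
      rw [h2, wd]
      exact h
    · exact ih h

lemma wd_head (α : Fin d → ℝ) (hd : 0 < d) {s : ℕ} (hs : 1 ≤ s) : [vv α hd 0] <+: wd α hd s := by
  induction s, hs using Nat.le_induction with
  | base => simp [wd]
  | succ s _ ih =>
    rw [wd]
    exact ih.trans (List.prefix_append _ _)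

section

variable {α : Fin d → ℝ} (hpos : ∀ i, 0 < α i) (hsum : ∑ i, α i = 1)

include hpos

lemma vv_spec (hd : 0 < d) (s : ℕ) (j : Fin d) :
    cc α j (s + 1) = cc α j s + if vv α hd s = j then 1 else 0 := by
  have h := exists_letter hpos s hd
  unfold vv
  rw [dif_pos h]
  exact h.choose_spec j

lemma count_wd (hd : 0 < d) (s : ℕ) (j : Fin d) : ((wd α hd s).count j : ℤ) = cc α j s := by
  induction s with
  | zero =>
    have h1 : ∀ k, rm α k 0 = 0 := by
      intro k
      induction k with
      | zero => simp [rm_zero]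
      | succ k ih =>
        rw [rm_succ, ih]
        unfold cc
        rw [ih]
        simp
    unfold cc
    rw [h1]
    simp [wd]
  | succ s ih =>
    rw [wd, List.count_append, vv_spec hpos hd]
    push_cast
    rw [ih]
    congr 1
    rw [List.count_singleton]
    by_cases h : vv α hd s = j
    · simp [h]
    · simp [h]

lemma rm_bound (j s : ℕ) (hj : j ≤ d) (hsum : ∑ i, α i = 1) :
    |(rm α j s : ℝ) - s * TT α j| ≤ j / 2 := by
  induction j with
  | zero =>
    rw [rm_zero, TT_zero hsum]
    simp
  | succ j ih =>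
    have h1 := ih (by omega)
    have hb := bb_mul hpos (j := j) (by omega)
    have hT := TT_succ (α := α) (j := j) (by omega)
    have e : ((rm α (j + 1) s : ℤ) : ℝ) - s * TT α (j + 1) =
        (1 - bb α j) * ((rm α j s : ℝ) - s * TT α j) +
          (bb α j * rm α j s - round (bb α j * rm α j s)) := by
      rw [rm_succ]
      unfold cc
      push_cast
      have h2 : TT α (j + 1) = TT α j - bb α j * TT α j := by linarith
      rw [h2]
      ring
    rw [e]
    have h3 : |bb α j * rm α j s - round (bb α j * rm α j s)| ≤ 1 / 2 := abs_sub_round _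
    have h4 : |(1 - bb α j) * ((rm α j s : ℝ) - s * TT α j)| ≤ j / 2 := by
      rw [abs_mul]
      have h5 : |1 - bb α j| ≤ 1 := by
        rw [abs_le]
        constructor <;> linarith [bb_nonneg hpos j, bb_le_one hpos j]
      calc |1 - bb α j| * |(rm α j s : ℝ) - s * TT α j| ≤ 1 * (j / 2) :=
            mul_le_mul h5 h1 (abs_nonneg _) zero_le_one
        _ = j / 2 := one_mul _
    refine le_trans (abs_add_le _ _) ?_
    push_cast
    linarith

/-- The discrepancies of the beginnings are bounded. -/
lemma disc_wd_bound (hd : 0 < d) (hsum : ∑ i, α i = 1) (s : ℕ) (j : Fin d) :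
    |disc α (wd α hd s) j| ≤ d := by
  have h1 := count_wd hpos hd s j
  have h2 := rm_bound hpos (j : ℕ) s j.2.le hsum
  have hb := bb_mul hpos j.2
  have ha : aa α (j : ℕ) = α j := by
    unfold aa
    rw [dif_pos j.2]
  have e : disc α (wd α hd s) j = (round (bb α j * rm α j s) - bb α j * rm α j s) +
      bb α j * ((rm α j s : ℝ) - s * TT α j) := by
    unfold disc
    rw [length_wd]
    have h3 : (((wd α hd s).count j : ℕ) : ℝ) = ((cc α j s : ℤ) : ℝ) := by exact_mod_cast h1
    rw [h3, ← ha, ← hb]
    unfold cc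
    ring
  rw [e]
  have h3 : |(round (bb α j * rm α j s) : ℝ) - bb α j * rm α j s| ≤ 1 / 2 := by
    rw [abs_sub_comm]
    exact abs_sub_round _
  have h4 : |bb α j * ((rm α j s : ℝ) - s * TT α j)| ≤ j / 2 := by
    rw [abs_mul, abs_of_nonneg (bb_nonneg hpos _)]
    calc bb α j * |(rm α j s : ℝ) - s * TT α j| ≤ 1 * (j / 2) :=
          mul_le_mul (bb_le_one hpos _) h2 (abs_nonneg _) zero_le_one
      _ = j / 2 := one_mul _
  refine le_trans (abs_add_le _ _) ?_
  have h5 : ((j : ℕ) : ℝ) + 1 ≤ d := by exact_mod_cast j.2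
  linarith

/-- The counts are determined by being close to the expected values. -/
lemma cc_unique (hsum : ∑ i, α i = 1) {ε : ℝ} (hε : d * ε ≤ 1 / 2) (s : ℕ)
    (c : Fin d → ℤ) (hc : ∀ j, |(c j : ℝ) - s * α j| < ε) (j : Fin d) : cc α j s = c j := by
  have hd : (0 : ℝ) < d := by
    have : 0 < d := Nat.pos_of_ne_zero (fun h => by subst h; exact j.elim0)
    exact_mod_cast this
  have hε0 : 0 < ε := lt_of_le_of_lt (abs_nonneg _) (hc j)
  have key : ∀ k, k ≤ d → |(rm α k s : ℝ) - s * TT α k| ≤ k * ε ∧
      ∀ i : Fin d, (i : ℕ) < k → cc α i s = c i := by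
    intro k
    induction k with
    | zero =>
      intro _
      refine ⟨?_, fun i hi => absurd hi (Nat.not_lt_zero _)⟩
      rw [rm_zero, TT_zero hsum]
      simp
    | succ k ih =>
      intro hk
      obtain ⟨h1, h2⟩ := ih (by omega)
      have hkd : k < d := by omega
      set i : Fin d := ⟨k, hkd⟩ with hi
      have hb := bb_mul hpos hkd
      have ha : aa α k = α i := by
        unfold aa
        rw [dif_pos hkd]
      have hcc : cc α k s = c i := by
        unfold cc
        apply round_of_near
        have e : bb α k * (rm α k s : ℝ) - c i =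
            bb α k * ((rm α k s : ℝ) - s * TT α k) - ((c i : ℝ) - s * α i) := by
          rw [← ha, ← hb]
          ring
        rw [e]
        have h4 : |bb α k * ((rm α k s : ℝ) - s * TT α k)| ≤ k * ε := by
          rw [abs_mul, abs_of_nonneg (bb_nonneg hpos _)]
          calc bb α k * |(rm α k s : ℝ) - s * TT α k| ≤ 1 * (k * ε) :=
                mul_le_mul (bb_le_one hpos _) h1 (abs_nonneg _) zero_le_one
            _ = k * ε := one_mul _
        have h5 := hc i
        have h6 := abs_sub (bb α k * ((rm α k s : ℝ) - s * TT α k)) ((c i : ℝ) - s * α i)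
        have h7 : ((k : ℝ) + 1) * ε ≤ d * ε := by
          have : (k : ℝ) + 1 ≤ d := by exact_mod_cast hkd
          exact mul_le_mul_of_nonneg_right this hε0.le
        linarith
      refine ⟨?_, ?_⟩
      · have e : ((rm α (k + 1) s : ℤ) : ℝ) - s * TT α (k + 1) =
            ((rm α k s : ℝ) - s * TT α k) - ((c i : ℝ) - s * α i) := by
          rw [rm_succ, hcc]
          push_cast
          have := TT_succ (α := α) hkd
          rw [ha] at this
          have h2 : TT α (k + 1) = TT α k - α i := by linarith
          rw [h2]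
          ring
        rw [e]
        have h6 := abs_sub ((rm α k s : ℝ) - s * TT α k) ((c i : ℝ) - s * α i)
        have h5 := hc i
        push_cast
        linarith
      · intro i' hi'
        rcases Nat.lt_succ_iff_lt_or_eq.1 hi' with h | h
        · exact h2 i' h
        · have : i' = i := Fin.ext h
          rw [this]
          exact hcc
  exact (key d le_rfl).2 j j.2

end

end Pool.Agent.Helper40_Pisot
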