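import Pool.Agent.Helper40_Pisot.Space

set_option autoImplicit false

/-!
The fixed point and the desubstitution of its positions.
-/

namespace Pool.Agent.Helper40_Pisot

open Finset

variable {d : ℕ}

/-- `x0` is a point of the subshift whose right half is the fixed point starting with `a`. -/
structure Fixed (σ : Fin d → List (Fin d)) (a : Fin d) (x0 : ℤ → Fin d) : Prop where
  inX : InX σ x0
  fix : ∀ n, win x0 0 (it σ n [a]).length = it σ n [a]

lemma win_prefix_win (x : ℤ → Fin d) (i : ℤ) {k L : ℕ} (h : k ≤ L) : win x i k <+: win x i L := by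
  obtain ⟨t, rfl⟩ := Nat.exists_eq_add_of_le h
  rw [win_add]
  exact List.prefix_append _ _

lemma eq_win_of_prefix {x : ℤ → Fin d} {i : ℤ} {L : ℕ} {p : List (Fin d)} (h : p <+: win x i L) :
    p = win x i p.length := by
  have h1 : p.length ≤ L := by simpa using h.length_le
  exact (List.prefix_of_prefix_length_le h (win_prefix_win x i h1) (by simp)).eq_of_length (by simp)

lemma Fixed.prefix_it {σ : Fin d → List (Fin d)} {a : Fin d} {x0 : ℤ → Fin d} (h : Fixed σ a x0)
    {n N : ℕ} (hN : N ≤ (it σ n [a]).length) : win x0 0 N <+: it σ n [a] := by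
  rw [← h.fix n]
  exact win_prefix_win _ _ hN

lemma Fixed.it_win {σ : Fin d → List (Fin d)} (hd : 2 ≤ d) (hσ : ∀ a, σ a ≠ []) (hp : Prim σ)
    {a : Fin d} {x0 : ℤ → Fin d} (h : Fixed σ a x0) (k N : ℕ) :
    it σ k (win x0 0 N) = win x0 0 (it σ k (win x0 0 N)).length := by
  obtain ⟨n, hn⟩ := length_large hd hσ hp N
  have h1 : win x0 0 N <+: it σ n [a] := h.prefix_it (hn n le_rfl a)
  have h2 := it_prefix (σ := σ) k h1
  rw [← it_add, ← h.fix (k + n)] at h2
  exact eq_win_of_prefix h2

lemma Fixed.position {σ : Fin d → List (Fin d)} (hd : 2 ≤ d) (hσ : ∀ a, σ a ≠ []) (hp : Prim σ)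
    {a : Fin d} {x0 : ℤ → Fin d} (h : Fixed σ a x0) (k N : ℕ) :
    ∃ n' t : ℕ, t < (it σ k [x0 n']).length ∧
      win x0 0 N = it σ k (win x0 0 n') ++ (it σ k [x0 n']).take t ∧
      (it σ k [x0 n'])[t]? = some (x0 N) := by
  -- a long prefix
  set u := win x0 0 (N + 1) with hu
  have hlen : N < (it σ k u).length := by
    have h1 : u.length ≤ (it σ k u).length := by
      have := length_it_mono hσ u (Nat.zero_le k)
      simpa using this
    rw [hu, length_win] at h1
    exact h1
  have hitu : it σ k u = win x0 0 (it σ k u).length := h.it_win hd hσ hp k (N + 1)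
  have hpre : win x0 0 N <+: u.flatMap (fun b => it σ k [b]) := by
    rw [← it_flatMap, hitu]
    exact win_prefix_win _ _ hlen.le
  have hlt : (win x0 0 N).length < (u.flatMap (fun b => it σ k [b])).length := by
    rw [← it_flatMap, length_win]
    exact hlen
  obtain ⟨q, b, s, p', e1, e2, e3, e4⟩ := prefix_flatMap _ _ _ hpre hlt
  have hq : q = win x0 0 q.length := by
    apply eq_win_of_prefix (L := N + 1)
    rw [← hu, e1]
    exact List.prefix_append _ _
  have hqb : q ++ [b] = win x0 0 (q.length + 1) := by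
    have : q ++ [b] <+: win x0 0 (N + 1) := by
      rw [← hu, e1]
      exact ⟨s, by simp⟩
    have h3 := eq_win_of_prefix this
    simpa using h3
  have hb : b = x0 q.length := by
    rw [win_succ, ← hq] at hqb
    have := List.append_cancel_left hqb
    simpa using this
  have hp' : p' = (it σ k [b]).take p'.length := by
    exact (List.prefix_iff_eq_take.1 e3)
  refine ⟨q.length, p'.length, by rw [← hb]; exact e4, ?_, ?_⟩
  · rw [← hq, ← hb, ← hp', it_flatMap]
    exact e2
  · rw [← hb]
    -- compare with the window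
    have h5 : (q ++ [b]).flatMap (fun b => it σ k [b]) <+: win x0 0 (it σ k u).length := by
      rw [← hitu, it_flatMap, e1]
      have : q ++ b :: s = (q ++ [b]) ++ s := by simp
      rw [this, List.flatMap_append (xs := q ++ [b])]
      exact List.prefix_append _ _
    have h6 := eq_win_of_prefix h5
    rw [List.flatMap_append] at h6
    have hN : N = (q.flatMap (fun b => it σ k [b])).length + p'.length := by
      have := congrArg List.length e2
      rw [length_win, List.length_append] at this
      exact this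
    have h7 := congrArg (fun w : List (Fin d) => w[N]?) h6
    simp only [List.flatMap_cons, List.flatMap_nil, List.append_nil] at h7
    rw [List.getElem?_append_right (by omega)] at h7
    have h8 : N - (q.flatMap (fun b => it σ k [b])).length = p'.length := by omega
    rw [h8] at h7
    rw [h7]
    have h9 : N < ((q.flatMap fun b => it σ k [b]) ++ it σ k [b]).length := by
      rw [List.length_append]
      omega
    rw [List.getElem?_eq_getElem (by rw [length_win]; exact h9)]
    simp [win]

/-- The transfer function at the positions of the fixed point. -/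
lemma phi_position {σ : Fin d → List (Fin d)} {M : Matrix (Fin d) (Fin d) ℤ} {r : ℝ}
    {α l : Fin d → ℝ} (hM : Inc σ M) (hpf : PFData M r α l) (hd : 2 ≤ d) (hσ : ∀ a, σ a ≠ [])
    {C : ℝ} (hC : ∀ w, Lang σ w → ∀ i, |disc α w i| ≤ C)
    {a : Fin d} {x0 : ℤ → Fin d} (h : Fixed σ a x0) (k N : ℕ) :
    ∃ n' t : ℕ, t < (it σ k [x0 n']).length ∧ (it σ k [x0 n'])[t]? = some (x0 N) ∧
      ∀ i, phi α (sh N x0) i = phi α x0 i +
        ∑ j, Bmat M α k i j * (phi α (sh n' x0) j - phi α x0 j) +
        disc α ((it σ k [x0 n']).take t) i := by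
  obtain ⟨n', t, h1, h2, h3⟩ := h.position hd hσ (prim_of_pf hM hpf) k N
  refine ⟨n', t, h1, h3, ?_⟩
  intro i
  rw [phi_shift hC h.inX, S_nat, h2, disc_append, disc_it hM hpf]
  have : ∀ j, phi α (sh n' x0) j - phi α x0 j = disc α (win x0 0 n') j := by
    intro j
    rw [phi_shift hC h.inX, S_nat]
    ring
  simp_rw [this]
  ring

/-- Approximation of points of the subshift by positions of the fixed point. -/
lemma approx {σ : Fin d → List (Fin d)} (hσ : ∀ a, σ a ≠ []) (hp : Prim σ)
    {α : Fin d → ℝ} {C : ℝ} (hC : ∀ w, Lang σ w → ∀ i, |disc α w i| ≤ C)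
    {x0 x : ℤ → Fin d} (hx0 : InX σ x0) (hx : InX σ x) {ε : ℝ} (hε : 0 < ε) :
    ∃ N : ℕ, x0 N = x 0 ∧ ∀ i, |phi α (sh N x0) i - phi α x i| ≤ ε := by
  obtain ⟨W, hW⟩ := phi_cont hσ hp hC hx hε
  obtain ⟨n, hn0, hn⟩ := exists_match hσ hp hx0 hx W 0
  obtain ⟨N, rfl⟩ := Int.eq_ofNat_of_zero_le hn0
  refine ⟨N, ?_, ?_⟩
  · have := hn 0 (by omega) (by omega)
    simpa using this
  · apply hW
    · exact hx0.sh _
    · intro k h1 h2
      rw [← hn k h1 h2]
      simp only [sh]
      congr 1
      ring

lemma sum_fv {α : Fin d → ℝ} (h : ∑ i, α i = 1) (b : Fin d) : ∑ i, fv α b i = 0 := by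
  unfold fv
  rw [Finset.sum_sub_distrib, h]
  simp

lemma sum_S {α : Fin d → ℝ} (h : ∑ i, α i = 1) (x : ℤ → Fin d) (n : ℤ) : ∑ i, S α x n i = 0 := by
  unfold S
  rw [Finset.sum_sub_distrib, Finset.sum_comm, Finset.sum_comm (s := Finset.univ)]
  simp_rw [sum_fv h]
  simp

/-- The sum of the coordinates of the transfer function is constant. -/
lemma sum_phi {σ : Fin d → List (Fin d)} (hσ : ∀ a, σ a ≠ []) (hp : Prim σ)
    {α : Fin d → ℝ} (hα : ∑ i, α i = 1) {C : ℝ} (hC : ∀ w, Lang σ w → ∀ i, |disc α w i| ≤ C)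
    {x0 x : ℤ → Fin d} (hx0 : InX σ x0) (hx : InX σ x) :
    ∑ i, (phi α x i - phi α x0 i) = 0 := by
  have key : ∀ ε : ℝ, 0 < ε → |∑ i, (phi α x i - phi α x0 i)| ≤ d * ε := by
    intro ε hε
    obtain ⟨N, _, hN⟩ := approx hσ hp hC hx0 hx hε
    have h1 : ∑ i, (phi α x i - phi α x0 i) = ∑ i, (phi α x i - phi α (sh N x0) i) := by
      have : ∀ i, phi α x i - phi α x0 i = (phi α x i - phi α (sh N x0) i) + S α x0 N i := by
        intro i
        rw [phi_shift hC hx0]
        ring
      simp_rw [this]
      rw [Finset.sum_add_distrib, sum_S hα, add_zero]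
    rw [h1]
    refine le_trans (Finset.abs_sum_le_sum_abs _ _) ?_
    refine le_trans (Finset.sum_le_sum (g := fun _ => ε) fun i _ => ?_) ?_
    · rw [abs_sub_comm]
      exact hN i
    · rw [Finset.sum_const, Finset.card_univ, Fintype.card_fin, nsmul_eq_mul]
  have h2 : |∑ i, (phi α x i - phi α x0 i)| ≤ 0 := by
    apply le_of_forall_pos_le_add
    intro ε hε
    have := key (ε / (d + 1)) (by positivity)
    have h3 : (d : ℝ) * (ε / (d + 1)) ≤ ε := by
      rw [mul_div_assoc', div_le_iff₀ (by positivity)]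
      nlinarith
    linarith
  exact abs_eq_zero.1 (le_antisymm h2 (abs_nonneg _))

end Pool.Agent.Helper40_Pisot
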