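import Pool.Agent.Helper40_Pisot.Cocycle

set_option autoImplicit false

/-!
Topology of the subshift, the bi-infinite fixed point.
-/

namespace Pool.Agent.Helper40_Pisot

open Finset

variable {d : ℕ}

/-- Cylinder neighbourhoods. -/
lemma cyl_mem_nhds (x : ℤ → Fin d) (N : ℕ) :
    {y : ℤ → Fin d | ∀ k : ℤ, -N ≤ k → k ≤ N → x k = y k} ∈ nhds x := by
  have h1 : (Set.pi (Set.Icc (-N : ℤ) N) (fun k => {x k})) ∈ nhds x := by
    apply set_pi_mem_nhds (Set.finite_Icc _ _)
    intro k _
    exact (isOpen_discrete _).mem_nhds rfl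
  filter_upwards [h1] with y hy k hk1 hk2
  exact (hy k ⟨hk1, hk2⟩).symm

lemma isClosed_X (σ : Fin d → List (Fin d)) : IsClosed {x : ℤ → Fin d | InX σ x} := by
  have : {x : ℤ → Fin d | InX σ x} = ⋂ (i : ℤ), ⋂ (k : ℕ), {x | Lang σ (win x i k)} := by
    ext x
    simp [InX]
  rw [this]
  refine isClosed_iInter fun i => isClosed_iInter fun k => ?_
  have hc : Continuous (fun x : ℤ → Fin d => (fun j : Fin k => x (i + ((j : ℕ) : ℤ)))) :=
    continuous_pi fun j => continuous_apply _
  have : {x : ℤ → Fin d | Lang σ (win x i k)} =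
      (fun x : ℤ → Fin d => (fun j : Fin k => x (i + ((j : ℕ) : ℤ)))) ⁻¹'
        {g | Lang σ (List.ofFn g)} := rfl
  rw [this]
  exact (isClosed_discrete _).preimage hc

lemma isCompact_X (σ : Fin d → List (Fin d)) : IsCompact {x : ℤ → Fin d | InX σ x} :=
  (isClosed_X σ).isCompact

lemma continuousOn_phi {σ : Fin d → List (Fin d)} (hσ : ∀ a, σ a ≠ []) (hp : Prim σ)
    {α : Fin d → ℝ} {C : ℝ} (hC : ∀ w, Lang σ w → ∀ i, |disc α w i| ≤ C) :
    ContinuousOn (fun x i => phi α x i) {x : ℤ → Fin d | InX σ x} := by
  rw [continuousOn_pi]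
  intro i x hx
  rw [ContinuousWithinAt, Metric.tendsto_nhds]
  intro ε hε
  obtain ⟨N, hN⟩ := phi_cont hσ hp hC hx (half_pos hε)
  have h1 : {y : ℤ → Fin d | ∀ k : ℤ, -N ≤ k → k ≤ N → x k = y k} ∈
      nhdsWithin x {x : ℤ → Fin d | InX σ x} := mem_nhdsWithin_of_mem_nhds (cyl_mem_nhds x N)
  filter_upwards [h1, self_mem_nhdsWithin] with y hy hyX
  rw [Real.dist_eq]
  have := hN y hyX hy i
  linarith

/-- Compactness: if arbitrarily large windows can be prescribed then a bi-infinite sequence exists.
-/
lemma exists_limit_point (P : ℕ → (ℤ → Fin d) → Prop) (y : ℕ → ℤ → Fin d)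
    (hP : ∀ N, ∀ n, N ≤ n → P N (y n))
    (hloc : ∀ N, ∃ W : ℕ, ∀ x x' : ℤ → Fin d, (∀ k : ℤ, -W ≤ k → k ≤ W → x k = x' k) → P N x →
      P N x') : ∃ x, ∀ N, P N x := by
  have hcomp : IsCompact (Set.univ : Set (ℤ → Fin d)) := isCompact_univ
  obtain ⟨x, _, hx⟩ := hcomp (f := Filter.map y Filter.atTop) (by simp)
  refine ⟨x, ?_⟩
  intro N
  obtain ⟨W, hW⟩ := hloc N
  have hfreq := hx.frequently (cyl_mem_nhds x W)
  rw [Filter.frequently_map] at hfreq
  obtain ⟨n, hn1, hn2⟩ := (hfreq.and_eventually (Filter.eventually_ge_atTop N)).exists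
  refine hW (y n) x ?_ (hP N n hn2)
  intro k h1 h2
  exact (hn1 k h1 h2).symm

/-- The fixed letter: `σ a` begins with `a`. -/
def FixLetter (σ : Fin d → List (Fin d)) (a : Fin d) : Prop := [a] <+: σ a

lemma FixLetter.pre {σ : Fin d → List (Fin d)} {a : Fin d} (h : FixLetter σ a) {n k : ℕ}
    (hnk : n ≤ k) : it σ n [a] <+: it σ k [a] := by
  induction k, hnk using Nat.le_induction with
  | base => exact List.prefix_rfl
  | succ k _ ih =>
    refine ih.trans ?_
    rw [it_succ]
    apply it_prefix
    have h2 : [a] <+: σ a := h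
    simpa using h2

lemma win_infix (x : ℤ → Fin d) {i j : ℤ} {k L : ℕ} (h1 : j ≤ i) (h2 : i + k ≤ j + L) :
    win x i k <:+: win x j L := by
  have e : L = (i - j).toNat + (k + (L - (i - j).toNat - k)) := by omega
  have e2 : j + ((i - j).toNat : ℤ) = i := by omega
  rw [e, win_add, win_add, e2]
  exact ⟨_, _, List.append_assoc _ _ _⟩

/-- A word placed in a bi-infinite sequence with its letter number `s` at position `0`. -/
def place (a : Fin d) (w : List (Fin d)) (s : ℕ) : ℤ → Fin d :=
  fun n => (w[(n + s).toNat]?).getD a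

lemma place_get (a : Fin d) (w : List (Fin d)) (s : ℕ) (n : ℤ) (h1 : 0 ≤ n + s)
    (h2 : n + s < w.length) : place a w s n = w[(n + s).toNat]'(by omega) := by
  unfold place
  rw [List.getElem?_eq_getElem (by omega)]
  rfl

lemma win_place_infix (a : Fin d) (w : List (Fin d)) (s : ℕ) (i : ℤ) (k : ℕ) (h1 : 0 ≤ i + s)
    (h2 : i + k + s ≤ w.length) : win (place a w s) i k <:+: w := by
  have : win (place a w s) i k = (w.drop (i + s).toNat).take k := by
    apply List.ext_getElem
    · simp
      omega
    · intro j hj1 hj2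
      have hj3 : j < k := by simpa using hj1
      have e1 : (win (place a w s) i k)[j] = place a w s (i + j) := by
        simp [win]
      rw [e1, place_get a w s _ (by omega) (by omega)]
      rw [List.getElem_take, List.getElem_drop]
      congr 1
      omega
  rw [this]
  exact (List.take_prefix _ _).isInfix.trans (List.drop_suffix _ _).isInfix

lemma exists_fixed {σ : Fin d → List (Fin d)} (hd : 2 ≤ d) (hσ : ∀ a, σ a ≠ []) (hp : Prim σ)
    {a : Fin d} (ha : FixLetter σ a) :
    ∃ x : ℤ → Fin d, InX σ x ∧ ∀ n, win x 0 (it σ n [a]).length = it σ n [a] := by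
  obtain ⟨K, hK1, hK⟩ := hp
  -- a word with an occurrence of `a` not at the start
  have h2 := length_two hd hK
  obtain ⟨v1, v2, hv, hv1⟩ : ∃ v1 v2, it σ (K + K) [a] = v1 ++ a :: v2 ∧ v1 ≠ [] := by
    rw [it_add, it_flatMap]
    have hl := h2 a
    rcases hw : it σ K [a] with _ | ⟨c, _ | ⟨e, t⟩⟩
    · rw [hw] at hl; simp at hl
    · rw [hw] at hl; simp at hl
    · rw [List.flatMap_cons, List.flatMap_cons]
      obtain ⟨s, u, hsu⟩ := List.append_of_mem (hK K le_rfl a e)
      refine ⟨it σ K [c] ++ s, u ++ t.flatMap (fun a => it σ K [a]), ?_, ?_⟩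
      · rw [hsu]
        simp
      · have := h2 c
        intro h0
        rw [List.append_eq_nil_iff] at h0
        rw [h0.1] at this
        simp at this
  have hlarge := length_large hd hσ ⟨K, hK1, hK⟩
  -- the words σⁿ(v1 a v2)
  set wd : ℕ → List (Fin d) := fun n => it σ n (it σ (K + K) [a]) with hwd
  have hwd' : ∀ n, wd n = it σ n v1 ++ (it σ n [a] ++ it σ n v2) := by
    intro n
    rw [hwd]
    simp only
    rw [hv, ← it_append, ← it_append]
    rfl
  have hlang : ∀ n, Lang σ (wd n) := by
    intro n
    refine ⟨n + (K + K), a, by omega, ?_⟩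
    rw [hwd, it_add σ n (K + K)]
  have hv1len : ∀ L : ℕ, ∃ n0, ∀ n, n0 ≤ n → L ≤ (it σ n v1).length := by
    intro L
    obtain ⟨n0, hn0⟩ := hlarge L
    refine ⟨n0, ?_⟩
    intro n hn
    rcases v1 with _ | ⟨c, v1⟩
    · exact absurd rfl hv1
    · have : it σ n (c :: v1) = it σ n [c] ++ it σ n v1 := by
        rw [← it_append]; rfl
      rw [this, List.length_append]
      have := hn0 n hn c
      omega
  -- choose a fast sequence
  have hex : ∀ N : ℕ, ∃ q : ℕ, N ≤ q ∧ N ≤ (it σ q v1).length ∧ N ≤ (it σ q [a]).length := by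
    intro N
    obtain ⟨n0, hn0⟩ := hv1len N
    obtain ⟨n1, hn1⟩ := hlarge N
    exact ⟨max N (max n0 n1), le_max_left _ _,
      hn0 _ (le_trans (le_max_left _ _) (le_max_right _ _)),
      hn1 _ (le_trans (le_max_right _ _) (le_max_right _ _)) a⟩
  choose q hq1 hq2 hq3 using hex
  set P : ℕ → (ℤ → Fin d) → Prop := fun N x =>
    Lang σ (win x (-N) (2 * N)) ∧ ∃ k, (win x 0 N) <+: it σ k [a] with hP
  have hxe : ∃ x, ∀ N, P N x := by
    apply exists_limit_point P (fun n => place a (wd (q n)) (it σ (q n) v1).length)
    · intro N n hn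
      constructor
      · refine (hlang (q n)).sub ?_
        apply win_place_infix
        · have := hq2 n; omega
        · rw [hwd', List.length_append, List.length_append]
          have := hq3 n
          push_cast
          omega
      · refine ⟨q n, ?_⟩
        have e1 : win (place a (wd (q n)) (it σ (q n) v1).length) 0 N =
            ((wd (q n)).drop (it σ (q n) v1).length).take N := by
          have hl3 := hq3 n
          have hl4 : (wd (q n)).length = (it σ (q n) v1).length + ((it σ (q n) [a]).length +
              (it σ (q n) v2).length) := by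
            rw [hwd', List.length_append, List.length_append]
          apply List.ext_getElem
          · simp
            omega
          · intro j hj1 hj2
            have hj3 : j < N := by simpa using hj1
            have e1 : (win (place a (wd (q n)) (it σ (q n) v1).length) 0 N)[j] =
                place a (wd (q n)) (it σ (q n) v1).length (0 + j) := by
              simp [win]
            rw [e1, place_get _ _ _ _ (by omega) (by omega)]
            rw [List.getElem_take, List.getElem_drop]
            congr 1
            omega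
        rw [e1, hwd', List.drop_left]
        have h5 : List.take N (it σ (q n) [a] ++ it σ (q n) v2) = List.take N (it σ (q n) [a]) := by
          apply List.take_append_of_le_length
          have := hq3 n
          omega
        rw [h5]
        exact List.take_prefix _ _
    · intro N
      refine ⟨N, ?_⟩
      rintro x x' hxx ⟨h1, h2⟩
      constructor
      · have : win x' (-N) (2 * N) = win x (-N) (2 * N) := by
          rw [win_eq_iff]
          intro t ht
          exact (hxx _ (by omega) (by omega)).symm
        rw [this]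
        exact h1
      · have : win x' 0 N = win x 0 N := by
          rw [win_eq_iff]
          intro t ht
          exact (hxx _ (by omega) (by omega)).symm
        rw [this]
        exact h2
  obtain ⟨x, hx⟩ := hxe
  · refine ⟨x, ?_, ?_⟩
    · intro i k
      have h1 := (hx (i.natAbs + k)).1
      refine h1.sub ?_
      apply win_infix <;> omega
    · intro n
      set Ln := (it σ n [a]).length with hLn
      obtain ⟨k, h1⟩ := (hx Ln).2
      have h3 : it σ n [a] <+: it σ (max n k) [a] := ha.pre (le_max_left _ _)
      have h4 : win x 0 Ln <+: it σ (max n k) [a] := h1.trans (ha.pre (le_max_right _ _))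
      exact (List.prefix_of_prefix_length_le h4 h3 (by simp [hLn])).eq_of_length (by simp [hLn])

end Pool.Agent.Helper40_Pisot
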