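import Pool.Agent.Helper40_Pisot.Exist
import Pool.Agent.Helper40_Pisot.Conj

set_option autoImplicit false

/-!
Rearranging a word on small windows so that it has prescribed letter counts at prescribed times.
-/

namespace Pool.Agent.Helper40_Pisot

open Finset

variable {d : ℕ}

/-- A word with given letter counts. -/
def mk (v : Fin d → ℕ) : List (Fin d) := (List.finRange d).flatMap fun j => List.replicate (v j) j

lemma count_mk (v : Fin d → ℕ) (i : Fin d) : (mk v).count i = v i := by
  unfold mk
  rw [List.count_flatMap]
  have h1 : (List.count i ∘ fun j => List.replicate (v j) j) = fun j => if j = i then v i else 0 := by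
    funext j
    simp only [Function.comp, List.count_replicate]
    by_cases h : j = i
    · subst h
      simp
    · simp [h]
  rw [h1, ← Fin.sum_univ_def]
  simp

lemma length_mk (v : Fin d → ℕ) : (mk v).length = ∑ i, v i := by
  rw [length_eq_sum_count]
  exact Finset.sum_congr rfl fun i _ => count_mk v i

/-- The number of positions where two words differ. -/
def ham (u v : List (Fin d)) : ℕ := ((Finset.range v.length).filter fun s => u[s]? ≠ v[s]?).card

/-- Counts of beginnings are monotone and 1-Lipschitz. -/
lemma count_take_mono (w : List (Fin d)) {s t : ℕ} (h : s ≤ t) (j : Fin d) :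
    (w.take s).count j ≤ (w.take t).count j := by
  have : (w.take t) = w.take s ++ (w.drop s).take (t - s) := by
    have := (List.take_add (l := w) (i := s) (j := t - s))
    rwa [Nat.add_sub_cancel' h] at this
  rw [this, List.count_append]
  omega

lemma count_take_lip (w : List (Fin d)) {s t : ℕ} (h : s ≤ t) (j : Fin d) :
    (w.take t).count j ≤ (w.take s).count j + (t - s) := by
  have : (w.take t) = w.take s ++ (w.drop s).take (t - s) := by
    have := (List.take_add (l := w) (i := s) (j := t - s))
    rwa [Nat.add_sub_cancel' h] at this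
  rw [this, List.count_append]
  have h2 : ((w.drop s).take (t - s)).count j ≤ t - s :=
    le_trans List.count_le_length (List.length_take_le _ _)
  omega

/-- One rearrangement. -/
lemma surgery_step (w : List (Fin d)) {a t b : ℕ} (hat : a ≤ t) (htb : t ≤ b) (hb : b ≤ w.length)
    (v : Fin d → ℕ) (hv1 : ∀ j, (w.take a).count j ≤ v j) (hv2 : ∀ j, v j ≤ (w.take b).count j)
    (hv3 : ∑ j, v j = t) :
    ∃ w' : List (Fin d), w'.length = w.length ∧
      (∀ s, s ≤ a ∨ b ≤ s → ∀ j, (w'.take s).count j = (w.take s).count j) ∧
      (∀ j, (w'.take t).count j = v j) ∧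
      (∀ s, s < a ∨ b ≤ s → w'[s]? = w[s]?) := by
  set A := mk fun j => v j - (w.take a).count j with hA
  set B' := mk fun j => (w.take b).count j - v j with hB'
  have hsa : ∑ j, (w.take a).count j = a := by
    rw [← length_eq_sum_count, List.length_take]
    omega
  have hsb : ∑ j, (w.take b).count j = b := by
    rw [← length_eq_sum_count, List.length_take]
    omega
  have hAl : A.length = t - a := by
    rw [hA, length_mk, Finset.sum_tsub_distrib _ fun j _ => hv1 j, hv3, hsa]
  have hBl : B'.length = b - t := by
    rw [hB', length_mk, Finset.sum_tsub_distrib _ fun j _ => hv2 j, hv3, hsb]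
  have hal : (w.take a).length = a := by
    rw [List.length_take]
    omega
  set w' := w.take a ++ (A ++ (B' ++ w.drop b)) with hw'
  have hcA : ∀ j, A.count j = v j - (w.take a).count j := fun j => count_mk _ j
  have hcB : ∀ j, B'.count j = (w.take b).count j - v j := fun j => count_mk _ j
  have htakea : w'.take a = w.take a := by
    rw [hw', List.take_left' hal]
  have htaket : w'.take t = w.take a ++ A := by
    rw [hw', ← List.append_assoc]
    apply List.take_left'
    rw [List.length_append, hal, hAl]
    omega
  have htakeb : w'.take b = w.take a ++ (A ++ B') := by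
    have e3 : w' = (w.take a ++ (A ++ B')) ++ w.drop b := by
      rw [hw']
      simp only [List.append_assoc]
    rw [e3]
    apply List.take_left'
    rw [List.length_append, List.length_append, hal, hAl, hBl]
    omega
  have hdropb : w'.drop b = w.drop b := by
    have e3 : w' = (w.take a ++ (A ++ B')) ++ w.drop b := by
      rw [hw']
      simp only [List.append_assoc]
    rw [e3]
    apply List.drop_left'
    rw [List.length_append, List.length_append, hal, hAl, hBl]
    omega
  have hbc : ∀ j, (w'.take b).count j = (w.take b).count j := by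
    intro j
    rw [htakeb, List.count_append, List.count_append, hcA, hcB]
    have := hv1 j
    have := hv2 j
    omega
  refine ⟨w', ?_, ?_, ?_, ?_⟩
  · rw [hw', List.length_append, List.length_append, List.length_append, hal, hAl, hBl,
      List.length_drop]
    omega
  · rintro s (hs | hs) j
    · have e1 : w'.take s = (w'.take a).take s := by rw [List.take_take, Nat.min_eq_left hs]
      have e2 : w.take s = (w.take a).take s := by rw [List.take_take, Nat.min_eq_left hs]
      rw [e1, e2, htakea]
    · have e1 : ∀ u : List (Fin d), u.take s = u.take b ++ (u.drop b).take (s - b) := by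
        intro u
        have := (List.take_add (l := u) (i := b) (j := s - b))
        rwa [Nat.add_sub_cancel' hs] at this
      rw [e1 w', e1 w, List.count_append, List.count_append, hbc, hdropb]
  · intro j
    rw [htaket, List.count_append, hcA]
    have := hv1 j
    omega
  · rintro s (hs | hs)
    · have e1 : ∀ u : List (Fin d), u[s]? = (u.take a)[s]? := by
        intro u
        rw [List.getElem?_take_of_lt hs]
      rw [e1 w', e1 w, htakea]
    · have e1 : ∀ u : List (Fin d), u[s]? = (u.drop b)[s - b]? := by
        intro u
        rw [List.getElem?_drop, Nat.add_sub_cancel' hs]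
      rw [e1 w', e1 w, hdropb]

/-- Simultaneous rearrangements on disjoint windows. -/
lemma surgery (w : List (Fin d)) (W : ℕ) (lo hi : ℕ → ℕ) (v : ℕ → Fin d → ℕ) (T : Finset ℕ)
    (h1 : ∀ t ∈ T, lo t ≤ t) (h2 : ∀ t ∈ T, t ≤ hi t) (h3 : ∀ t ∈ T, hi t ≤ w.length)
    (hW : ∀ t ∈ T, hi t - lo t ≤ W)
    (h4 : ∀ t ∈ T, ∀ j, (w.take (lo t)).count j ≤ v t j)
    (h5 : ∀ t ∈ T, ∀ j, v t j ≤ (w.take (hi t)).count j)
    (h6 : ∀ t ∈ T, ∑ j, v t j = t)
    (h7 : ∀ t ∈ T, ∀ t' ∈ T, t < t' → hi t ≤ lo t') :
    ∃ w' : List (Fin d), w'.length = w.length ∧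
      (∀ s, (∀ t ∈ T, s ≤ lo t ∨ hi t ≤ s) → ∀ j, (w'.take s).count j = (w.take s).count j) ∧
      (∀ s j, (w'.take s).count j ≤ (w.take s).count j + W ∧
        (w.take s).count j ≤ (w'.take s).count j + W) ∧
      (∀ t ∈ T, ∀ j, (w'.take t).count j = v t j) ∧
      ham w' w ≤ W * T.card := by
  classical
  induction T using Finset.induction_on with
  | empty =>
    refine ⟨w, rfl, fun s _ j => rfl, fun s j => ⟨by omega, by omega⟩, ?_, ?_⟩
    · intro t ht
      exact absurd ht (Finset.notMem_empty _)
    · simp [ham]
  | insert t T ht ih =>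
    obtain ⟨w1, e1, e2, e3, e4, e5⟩ := ih
      (fun s hs => h1 s (Finset.mem_insert_of_mem hs))
      (fun s hs => h2 s (Finset.mem_insert_of_mem hs))
      (fun s hs => h3 s (Finset.mem_insert_of_mem hs))
      (fun s hs => hW s (Finset.mem_insert_of_mem hs))
      (fun s hs => h4 s (Finset.mem_insert_of_mem hs))
      (fun s hs => h5 s (Finset.mem_insert_of_mem hs))
      (fun s hs => h6 s (Finset.mem_insert_of_mem hs))
      (fun s hs s' hs' => h7 s (Finset.mem_insert_of_mem hs) s' (Finset.mem_insert_of_mem hs'))
    have ht0 := Finset.mem_insert_self t T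
    -- the new window avoids the old ones
    have hsep : ∀ t' ∈ T, hi t ≤ lo t' ∨ hi t' ≤ lo t := by
      intro t' ht'
      have hne : t ≠ t' := by
        rintro rfl
        exact ht ht'
      rcases Nat.lt_or_gt_of_ne hne with h | h
      · exact Or.inl (h7 t ht0 t' (Finset.mem_insert_of_mem ht') h)
      · exact Or.inr (h7 t' (Finset.mem_insert_of_mem ht') t ht0 h)
    have hin : ∀ s, lo t ≤ s → s ≤ hi t → ∀ j, (w1.take s).count j = (w.take s).count j := by
      intro s hs1 hs2 j
      apply e2
      intro t' ht'
      rcases hsep t' ht' with h | h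
      · left
        omega
      · right
        omega
    have hlt : lo t ≤ t := h1 t ht0
    have hth : t ≤ hi t := h2 t ht0
    obtain ⟨w', f1, f2, f3, f4⟩ := surgery_step w1 (a := lo t) (t := t) (b := hi t) hlt hth
      (by rw [e1]; exact h3 t ht0) (v t)
      (fun j => by rw [hin _ le_rfl (by omega)]; exact h4 t ht0 j)
      (fun j => by rw [hin _ (by omega) le_rfl]; exact h5 t ht0 j) (h6 t ht0)
    refine ⟨w', by rw [f1, e1], ?_, ?_, ?_, ?_⟩
    · intro s hs j
      rw [f2 s (hs t ht0), e2 s fun t' ht' => hs t' (Finset.mem_insert_of_mem ht')]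
    · intro s j
      by_cases hs : s ≤ lo t ∨ hi t ≤ s
      · rw [f2 s hs]
        exact e3 s j
      · push Not at hs
        have g1 := f2 (lo t) (Or.inl le_rfl) j
        have g2 := hin (lo t) le_rfl (by omega) j
        have g3 := count_take_mono w' hs.1.le j
        have g4 := count_take_lip w' hs.1.le j
        have g5 := count_take_mono w hs.1.le j
        have g6 := count_take_lip w hs.1.le j
        have g7 := hW t ht0
        omega
    · intro t' ht' j
      rcases Finset.mem_insert.1 ht' with rfl | ht''
      · exact f3 j
      · have hl' := h1 t' ht'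
        have hh' := h2 t' ht'
        rw [f2 t' (by rcases hsep t' ht'' with h | h <;> omega), e4 t' ht'']
    · rw [Finset.card_insert_of_notMem ht, mul_add, mul_one]
      have hsub : ((Finset.range w.length).filter fun s => w'[s]? ≠ w[s]?) ⊆
          ((Finset.range w.length).filter fun s => w1[s]? ≠ w[s]?) ∪ Finset.Ico (lo t) (hi t) := by
        intro s hs
        rw [Finset.mem_filter] at hs
        rw [Finset.mem_union, Finset.mem_filter, Finset.mem_Ico]
        by_cases hs2 : s < lo t ∨ hi t ≤ s
        · left
          rw [← f4 s hs2]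
          exact hs
        · right
          push Not at hs2
          exact hs2
      have h8 := le_trans (Finset.card_le_card hsub) (Finset.card_union_le _ _)
      rw [Nat.card_Ico] at h8
      have := hW t ht0
      unfold ham at e5 ⊢
      omega

end Pool.Agent.Helper40_Pisot
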