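import Pool.Agent.Helper40_Pisot.LinAlg2

set_option autoImplicit false

/-!
Words, iterates of a substitution, language, repetitivity, bounded discrepancy.
-/

namespace Pool.Agent.Helper40_Pisot

open Finset

variable {d : ℕ}

/-- The `n`-th iterate of the substitution `σ` on words. -/
def it (σ : Fin d → List (Fin d)) (n : ℕ) (w : List (Fin d)) : List (Fin d) :=
  (fun w : List (Fin d) => w.flatMap σ)^[n] w

/-- The language of the substitution. -/
def Lang (σ : Fin d → List (Fin d)) (w : List (Fin d)) : Prop :=
  ∃ (n : ℕ) (a : Fin d), 1 ≤ n ∧ w <:+: it σ n [a]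

@[simp] lemma it_zero (σ : Fin d → List (Fin d)) (w : List (Fin d)) : it σ 0 w = w := rfl

lemma it_succ (σ : Fin d → List (Fin d)) (n : ℕ) (w : List (Fin d)) :
    it σ (n + 1) w = it σ n (w.flatMap σ) := rfl

lemma it_succ' (σ : Fin d → List (Fin d)) (n : ℕ) (w : List (Fin d)) :
    it σ (n + 1) w = (it σ n w).flatMap σ := by
  unfold it
  rw [Function.iterate_succ_apply']

lemma it_add (σ : Fin d → List (Fin d)) (n k : ℕ) (w : List (Fin d)) :
    it σ (n + k) w = it σ n (it σ k w) := by
  unfold it
  rw [Function.iterate_add_apply]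

lemma it_append (σ : Fin d → List (Fin d)) (n : ℕ) (u v : List (Fin d)) :
    it σ n (u ++ v) = it σ n u ++ it σ n v := by
  induction n with
  | zero => rfl
  | succ n ih => rw [it_succ', it_succ', it_succ', ih, List.flatMap_append]

@[simp] lemma it_nil (σ : Fin d → List (Fin d)) (n : ℕ) : it σ n [] = [] := by
  induction n with
  | zero => rfl
  | succ n ih => rw [it_succ', ih, List.flatMap_nil]

lemma it_flatMap (σ : Fin d → List (Fin d)) (n : ℕ) (w : List (Fin d)) :
    it σ n w = w.flatMap (fun a => it σ n [a]) := by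
  induction w with
  | nil => simp
  | cons a w ih =>
    rw [List.flatMap_cons, ← ih, ← it_append]
    rfl

lemma it_infix {σ : Fin d → List (Fin d)} (n : ℕ) {u v : List (Fin d)} (h : u <:+: v) :
    it σ n u <:+: it σ n v := by
  obtain ⟨s, t, rfl⟩ := h
  exact ⟨it σ n s, it σ n t, by rw [it_append, it_append]⟩

lemma it_prefix {σ : Fin d → List (Fin d)} (n : ℕ) {u v : List (Fin d)} (h : u <+: v) :
    it σ n u <+: it σ n v := by
  obtain ⟨t, rfl⟩ := h
  exact ⟨it σ n t, by rw [it_append]⟩

lemma Lang.sub {σ : Fin d → List (Fin d)} {u v : List (Fin d)} (hv : Lang σ v)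
    (h : u <:+: v) : Lang σ u := by
  obtain ⟨n, a, hn, hv⟩ := hv
  exact ⟨n, a, hn, h.trans hv⟩

lemma Lang.it {σ : Fin d → List (Fin d)} {u : List (Fin d)} (hu : Lang σ u) (k : ℕ) :
    Lang σ (it σ k u) := by
  obtain ⟨n, a, hn, hu⟩ := hu
  refine ⟨k + n, a, by omega, ?_⟩
  rw [it_add]
  exact it_infix k hu

/-- The incidence relation. -/
def Inc (σ : Fin d → List (Fin d)) (M : Matrix (Fin d) (Fin d) ℤ) : Prop :=
  ∀ i j, M i j = ((σ j).count i : ℤ)

lemma count_flatMap (τ : Fin d → List (Fin d)) (w : List (Fin d)) (i : Fin d) :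
    ((w.flatMap τ).count i : ℤ) = ∑ j, ((τ j).count i : ℤ) * (w.count j : ℤ) := by
  induction w with
  | nil => simp
  | cons a w ih =>
    rw [List.flatMap_cons, List.count_append]
    push_cast
    rw [ih]
    have : ∀ j, (((a :: w).count j : ℕ) : ℤ) = (w.count j : ℤ) + if j = a then 1 else 0 := by
      intro j
      rw [List.count_cons]
      by_cases h : j = a
      · subst h
        simp
      · have h' : ¬ (a == j) = true := by
          simp only [beq_iff_eq]
          exact fun h2 => h h2.symm
        simp [h, h']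
    simp_rw [this, mul_add, Finset.sum_add_distrib]
    simp
    ring

lemma count_it {σ : Fin d → List (Fin d)} {M : Matrix (Fin d) (Fin d) ℤ} (hM : Inc σ M)
    (n : ℕ) (w : List (Fin d)) (i : Fin d) :
    ((it σ n w).count i : ℤ) = ∑ j, (M ^ n) i j * (w.count j : ℤ) := by
  induction n generalizing w with
  | zero =>
    simp only [it_zero, pow_zero]
    rw [Finset.sum_eq_single i]
    · simp
    · intro j _ hj
      rw [Matrix.one_apply_ne hj.symm, zero_mul]
    · intro h
      exact absurd (Finset.mem_univ i) h
  | succ n ih =>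
    rw [it_succ, ih]
    simp_rw [count_flatMap, ← hM _ _, pow_succ, Matrix.mul_apply, Finset.mul_sum, Finset.sum_mul]
    rw [Finset.sum_comm]
    refine Finset.sum_congr rfl fun a _ => Finset.sum_congr rfl fun b _ => ?_
    ring

lemma count_it_single {σ : Fin d → List (Fin d)} {M : Matrix (Fin d) (Fin d) ℤ} (hM : Inc σ M)
    (n : ℕ) (a i : Fin d) : ((it σ n [a]).count i : ℤ) = (M ^ n) i a := by
  rw [count_it hM, Finset.sum_eq_single a]
  · simp
  · intro j _ hj
    have : List.count j [a] = 0 := by
      rw [List.count_eq_zero]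
      simp [hj]
    rw [this]
    simp
  · intro h
    exact absurd (Finset.mem_univ a) h

lemma length_eq_sum_count (w : List (Fin d)) : w.length = ∑ i, w.count i := by
  induction w with
  | nil => simp
  | cons a w ih =>
    rw [List.length_cons, ih]
    have : ∀ i, (a :: w).count i = w.count i + if i = a then 1 else 0 := by
      intro j
      rw [List.count_cons]
      by_cases h : j = a
      · subst h
        simp
      · have h' : ¬ (a == j) = true := by
          simp only [beq_iff_eq]
          exact fun h2 => h h2.symm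
        simp [h, h']
    simp_rw [this, Finset.sum_add_distrib]
    simp

lemma length_flatMap_ge {σ : Fin d → List (Fin d)} (hσ : ∀ a, σ a ≠ []) (w : List (Fin d)) :
    w.length ≤ (w.flatMap σ).length := by
  induction w with
  | nil => simp
  | cons a w ih =>
    rw [List.flatMap_cons, List.length_append, List.length_cons]
    have : 0 < (σ a).length := List.length_pos_of_ne_nil (hσ a)
    omega

lemma length_it_mono {σ : Fin d → List (Fin d)} (hσ : ∀ a, σ a ≠ []) (w : List (Fin d))
    {n k : ℕ} (h : n ≤ k) : (it σ n w).length ≤ (it σ k w).length := by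
  induction k, h using Nat.le_induction with
  | base => exact le_rfl
  | succ k _ ih =>
    rw [it_succ']
    exact le_trans ih (length_flatMap_ge hσ _)

/-- Primitivity of the substitution, in terms of words. -/
def Prim (σ : Fin d → List (Fin d)) : Prop := ∃ K : ℕ, 1 ≤ K ∧ ∀ k, K ≤ k → ∀ a b, a ∈ it σ k [b]

lemma prim_of_pf {σ : Fin d → List (Fin d)} {M : Matrix (Fin d) (Fin d) ℤ} {r : ℝ}
    {α l : Fin d → ℝ} (hM : Inc σ M) (h : PFData M r α l) : Prim σ := by
  obtain ⟨K, hK⟩ := h.prim
  refine ⟨K + 1, by omega, ?_⟩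
  intro k hk a b
  have h1 := hK k (by omega) a b
  rw [← count_it_single hM] at h1
  have : 0 < (it σ k [b]).count a := by exact_mod_cast h1
  exact List.count_pos_iff.1 this

lemma length_two {σ : Fin d → List (Fin d)} (hd : 2 ≤ d) {K : ℕ}
    (hK : ∀ k, K ≤ k → ∀ a b, a ∈ it σ k [b]) (b : Fin d) : 2 ≤ (it σ K [b]).length := by
  have h0 := hK K le_rfl ⟨0, by omega⟩ b
  have h1 := hK K le_rfl ⟨1, by omega⟩ b
  by_contra hlt
  have hl : (it σ K [b]).length ≤ 1 := by omega
  rcases hw : it σ K [b] with _ | ⟨c, _ | ⟨e, t⟩⟩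
  · rw [hw] at h0
    simp at h0
  · rw [hw] at h0 h1
    simp only [List.mem_singleton] at h0 h1
    rw [← h0] at h1
    simp at h1
  · rw [hw] at hl
    simp at hl

lemma length_it_two {σ : Fin d → List (Fin d)} {K : ℕ}
    (hK : ∀ b, 2 ≤ (it σ K [b]).length) (w : List (Fin d)) :
    2 * w.length ≤ (it σ K w).length := by
  induction w with
  | nil => simp
  | cons a w ih =>
    have : it σ K (a :: w) = it σ K [a] ++ it σ K w := by
      rw [← it_append]; rfl
    rw [this, List.length_append, List.length_cons]
    have := hK a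
    omega

/-- Lengths grow to infinity. -/
lemma length_large {σ : Fin d → List (Fin d)} (hd : 2 ≤ d) (hσ : ∀ a, σ a ≠ []) (hp : Prim σ)
    (L : ℕ) : ∃ n0 : ℕ, ∀ n, n0 ≤ n → ∀ a, L ≤ (it σ n [a]).length := by
  obtain ⟨K, _, hK⟩ := hp
  have h2 := length_two hd hK
  have h3 : ∀ j : ℕ, ∀ a, 2 ^ j ≤ (it σ (K * j) [a]).length := by
    intro j
    induction j with
    | zero => intro a; simp
    | succ j ih =>
      intro a
      have : K * (j + 1) = K + K * j := by ring
      rw [this, it_add, pow_succ]
      have := length_it_two h2 (it σ (K * j) [a])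
      have := ih a
      omega
  refine ⟨K * L, ?_⟩
  intro n hn a
  refine le_trans ?_ (length_it_mono hσ [a] hn)
  exact le_trans (Nat.lt_two_pow_self).le (h3 L a)

/-- A long factor of `u.flatMap τ` contains some `τ b`. -/
lemma infix_flatMap (τ : Fin d → List (Fin d)) (B : ℕ) (hB : 1 ≤ B) (hτ : ∀ b, (τ b).length ≤ B)
    (u v : List (Fin d)) (h : v <:+: u.flatMap τ) (hv : 2 * B ≤ v.length) :
    ∃ b, τ b <:+: v := by
  induction u with
  | nil =>
    have := h.length_le
    simp at this
    rw [this] at hv
    simp at hv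
    omega
  | cons b u ih =>
    obtain ⟨s, t, hst⟩ := h
    rw [List.flatMap_cons, List.append_assoc] at hst
    rw [List.append_eq_append_iff] at hst
    rcases hst with ⟨as, h1, h2⟩ | ⟨bs, h1, h2⟩
    · -- τ b = s ++ as, v ++ t = as ++ rest
      rw [List.append_eq_append_iff] at h2
      rcases h2 with ⟨cs, h3, h4⟩ | ⟨cs, h3, h4⟩
      · -- as = v ++ cs : too short
        exfalso
        have hl := hτ b
        rw [h1, h3] at hl
        simp only [List.length_append] at hl
        omega
      · -- v = as ++ cs, rest = cs ++ t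
        have hl := hτ b
        rw [h1, List.length_append] at hl
        have hcs : B ≤ cs.length := by
          rw [h3, List.length_append] at hv
          omega
        rcases u with _ | ⟨c, u⟩
        · simp at h4
          rw [h4.1] at hcs
          simp at hcs
          omega
        · rw [List.flatMap_cons] at h4
          have hpre : τ c <+: cs := by
            have h5 : τ c <+: cs ++ t := by rw [← h4]; exact List.prefix_append _ _
            exact List.prefix_of_prefix_length_le h5 (List.prefix_append _ _)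
              (le_trans (hτ c) hcs)
          refine ⟨c, ?_⟩
          rw [h3]
          exact hpre.isInfix.trans (List.suffix_append _ _).isInfix
    · -- s = τ b ++ bs
      exact ih ⟨bs, t, by rw [h2, List.append_assoc]⟩

/-- Repetitivity. -/
lemma repetitive {σ : Fin d → List (Fin d)} (hσ : ∀ a, σ a ≠ []) (hp : Prim σ)
    (w : List (Fin d)) (hw : Lang σ w) :
    ∃ R : ℕ, ∀ v, Lang σ v → R ≤ v.length → w <:+: v := by
  obtain ⟨K, _, hK⟩ := hp
  obtain ⟨n, a, hn, hwa⟩ := hw
  set τ : Fin d → List (Fin d) := fun b => it σ (n + K) [b] with hτ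
  have hwτ : ∀ b, w <:+: τ b := by
    intro b
    refine hwa.trans ?_
    rw [hτ]
    simp only
    rw [it_add]
    apply it_infix
    obtain ⟨s, t, hst⟩ := List.append_of_mem (hK K le_rfl a b)
    exact ⟨s, t, by rw [hst]; simp⟩
  obtain ⟨B, hB⟩ : ∃ B, ∀ b, (τ b).length ≤ B :=
    ⟨∑ b, (τ b).length, fun b => Finset.single_le_sum (f := fun b => (τ b).length)
      (fun _ _ => Nat.zero_le _) (Finset.mem_univ b)⟩
  refine ⟨2 * (B + 1), ?_⟩
  intro v hv hlen
  obtain ⟨n', c, hn', hvc⟩ := hv
  have hlt : n + K < n' := by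
    by_contra hle
    push Not at hle
    have h1 := hvc.length_le
    have h2 := length_it_mono hσ [c] hle
    have h3 := hB c
    simp only [hτ] at h3
    omega
  have heq : it σ n' [c] = (it σ (n' - (n + K)) [c]).flatMap τ := by
    have h4 : n' = (n + K) + (n' - (n + K)) := by omega
    conv_lhs => rw [h4]
    rw [it_add, it_flatMap]
  rw [heq] at hvc
  obtain ⟨b, hb⟩ := infix_flatMap τ (B + 1) (by omega) (fun b => by have := hB b; omega) _ v hvc hlen
  exact (hwτ b).trans hb

end Pool.Agent.Helper40_Pisot
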